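import Pool.Agent.Helper83.TW.Defs

/-! # TW-ADEFS: ideals of bounded norm in a number field -/

set_option autoImplicit false

namespace Pool.Agent.Helper83.TW

open NumberField

/-- the nonzero integral ideals of norm at most `n` -/
noncomputable def idl (K : Type) [Field K] [NumberField K] (n : ℕ) : Finset (Ideal (𝓞 K)) := by
  classical
  exact ((Ideal.finite_setOfPred_absNorm_le (S := 𝓞 K) n).toFinset).filter (fun I => I ≠ ⊥)

theorem mem_idl {K : Type} [Field K] [NumberField K] {n : ℕ} {I : Ideal (𝓞 K)} :
    I ∈ idl K n ↔ Ideal.absNorm I ≤ n ∧ I ≠ ⊥ := by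
  classical
  simp [idl]

/-- the nonzero prime ideals of norm at most `n` -/
noncomputable def pid (K : Type) [Field K] [NumberField K] (n : ℕ) : Finset (Ideal (𝓞 K)) := by
  classical
  exact (idl K n).filter (fun I => I.IsPrime)

theorem mem_pid {K : Type} [Field K] [NumberField K] {n : ℕ} {I : Ideal (𝓞 K)} :
    I ∈ pid K n ↔ Ideal.absNorm I ≤ n ∧ I ≠ ⊥ ∧ I.IsPrime := by
  classical
  simp [pid, mem_idl, and_assoc]

/-- the ideals of norm exactly `p` (`p` a prime number): the prime ideals of degree one above `p` -/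
noncomputable def d1 (K : Type) [Field K] [NumberField K] (p : ℕ) : Finset (Ideal (𝓞 K)) := by
  classical
  exact (idl K p).filter (fun I => Ideal.absNorm I = p)

theorem mem_d1 {K : Type} [Field K] [NumberField K] {p : ℕ} (hp : 0 < p) {I : Ideal (𝓞 K)} :
    I ∈ d1 K p ↔ Ideal.absNorm I = p := by
  classical
  simp only [d1, Finset.mem_filter, mem_idl]
  constructor
  · exact fun h => h.2
  · intro h
    refine ⟨⟨h.le, ?_⟩, h⟩
    rintro rfl
    rw [Ideal.absNorm_bot] at h
    omega

end Pool.Agent.Helper83.TW
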