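import Pool.Agent.Helper83.TW.Defs
import Pool.Agent.Helper52.PrimeSums

/-!
# TW-L08: sums over primes

`theta_le`: `Chebyshev.theta_le_log4_mul_x` and `log 4 <= 2`.
`mertens_upper`: see `Pool/Agent/Helper52/PrimeSums.lean` (`mertens1`: `<= log n + log 4`), and
`log 4 <= 2 log T` for `T >= 2`; for `T = 1` both sides are `0`.
`prime_count_small`: e.g. from `Chebyshev.pi_le_log4_mul_div` or `Chebyshev.eventually_primeCounting_le`
or any proof that the primes have density zero.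
`inv_sq`: telescoping.
`log_prod_le`: a product of distinct primes dividing `n ≠ 0` is at most `|n|`.
-/

set_option autoImplicit false

namespace Pool.Agent.Helper83.TW

open Pool.Agent.Helper52 in
private theorem prm_subset_pr (z Y : ℕ) : prm z Y ⊆ pr 0 Y := by
  intro p hp
  rw [mem_prm] at hp
  rw [mem_pr]
  exact ⟨hp.2.2.pos, hp.2.1, hp.2.2⟩

private theorem log4_eq : Real.log 4 = 2 * Real.log 2 := by
  rw [show (4 : ℝ) = 2 ^ 2 by norm_num, Real.log_pow]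
  norm_num

private theorem log4_le : Real.log 4 ≤ 2 := by
  rw [log4_eq]
  have := Real.log_two_lt_d9
  linarith

theorem theta_le (z Y : ℕ) : ∑ p ∈ prm z Y, Real.log (p : ℝ) ≤ 2 * (Y : ℝ) := by
  have h1 : Chebyshev.theta (Y : ℝ) ≤ Real.log 4 * (Y : ℝ) :=
    Chebyshev.theta_le_log4_mul_x (Nat.cast_nonneg _)
  rw [Pool.Agent.Helper52.theta_nat] at h1
  have h2 : ∑ p ∈ prm z Y, Real.log (p : ℝ) ≤
      ∑ q ∈ Pool.Agent.Helper52.pr 0 Y, Real.log (q : ℝ) :=
    Finset.sum_le_sum_of_subset_of_nonneg (prm_subset_pr z Y)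
      (fun q _ _ => Real.log_natCast_nonneg q)
  have h3 : Real.log 4 * (Y : ℝ) ≤ 2 * (Y : ℝ) :=
    mul_le_mul_of_nonneg_right log4_le (Nat.cast_nonneg _)
  linarith

theorem mertens_upper (z T : ℕ) (hT : 1 ≤ T) :
    ∑ p ∈ prm z T, Real.log (p : ℝ) / (p : ℝ) ≤ 3 * Real.log (T : ℝ) := by
  rcases Nat.lt_or_ge T 2 with h | h
  · have hT1 : T = 1 := by omega
    subst hT1
    have he : prm z 1 = ∅ := by
      ext p
      rw [mem_prm]
      constructor
      · rintro ⟨_, h1, h2⟩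
        have := h2.two_le
        omega
      · intro hp
        exact absurd hp (Finset.notMem_empty p)
    rw [he]
    simp
  · have h1 := Pool.Agent.Helper52.mertens1 hT
    have h2 : ∑ p ∈ prm z T, Real.log (p : ℝ) / (p : ℝ) ≤
        ∑ q ∈ Pool.Agent.Helper52.pr 0 T, Real.log (q : ℝ) / (q : ℝ) :=
      Finset.sum_le_sum_of_subset_of_nonneg (prm_subset_pr z T)
        (fun q _ _ => div_nonneg (Real.log_natCast_nonneg q) (Nat.cast_nonneg _))
    have h3 : Real.log 2 ≤ Real.log (T : ℝ) :=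
      Real.log_le_log (by norm_num) (by exact_mod_cast h)
    rw [log4_eq] at h1
    linarith

theorem prime_count_small (ε : ℝ) (hε : 0 < ε) :
    ∃ Y₀ : ℕ, ∀ Y : ℕ, Y₀ ≤ Y → ∀ z : ℕ, ((prm z Y).card : ℝ) ≤ ε * Y := by
  have h1 := Chebyshev.eventually_primeCounting_le (ε := 1) one_pos
  have h2 : ∀ᶠ x : ℝ in Filter.atTop, (Real.log 4 + 1) / ε ≤ Real.log x :=
    Real.tendsto_log_atTop.eventually_ge_atTop _
  have h3 : ∀ᶠ x : ℝ in Filter.atTop, (1 : ℝ) < x := Filter.eventually_gt_atTop 1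
  obtain ⟨x₀, hx₀⟩ := Filter.eventually_atTop.mp ((h1.and h2).and h3)
  refine ⟨⌈x₀⌉₊, fun Y hY z => ?_⟩
  have hY' : x₀ ≤ (Y : ℝ) := le_trans (Nat.le_ceil x₀) (by exact_mod_cast hY)
  obtain ⟨⟨ha, hb⟩, hc⟩ := hx₀ (Y : ℝ) hY'
  rw [Nat.floor_natCast] at ha
  have hcard : (prm z Y).card ≤ Nat.primeCounting Y := by
    rw [← Nat.primesLE_card_eq_primeCounting]
    apply Finset.card_le_card
    intro p hp
    rw [mem_prm] at hp
    rw [Nat.mem_primesLE]
    exact ⟨hp.2.1, hp.2.2⟩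
  have hcard' : ((prm z Y).card : ℝ) ≤ (Nat.primeCounting Y : ℝ) := by exact_mod_cast hcard
  refine hcard'.trans (ha.trans ?_)
  have hlog : 0 < Real.log (Y : ℝ) := Real.log_pos hc
  rw [div_le_iff₀ hlog]
  have hYn : (0 : ℝ) ≤ (Y : ℝ) := Nat.cast_nonneg _
  have h4 : Real.log 4 + 1 ≤ ε * Real.log (Y : ℝ) := by
    rw [div_le_iff₀ hε] at hb
    linarith
  calc (Real.log 4 + 1) * (Y : ℝ) ≤ (ε * Real.log (Y : ℝ)) * (Y : ℝ) :=
        mul_le_mul_of_nonneg_right h4 hYn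
    _ = ε * (Y : ℝ) * Real.log (Y : ℝ) := by ring

private theorem inv_sq_Ioc (z : ℕ) (hz : 1 ≤ z) (k : ℕ) :
    ∑ p ∈ Finset.Ioc z (z + k), 1 / (p : ℝ) ^ 2 ≤ 1 / (z : ℝ) - 1 / ((z + k : ℕ) : ℝ) := by
  induction k with
  | zero => simp
  | succ k ih =>
    have he : Finset.Ioc z (z + (k + 1)) = insert (z + k + 1) (Finset.Ioc z (z + k)) := by
      ext p
      simp only [Finset.mem_Ioc, Finset.mem_insert]
      omega
    rw [he, Finset.sum_insert (by simp only [Finset.mem_Ioc]; omega)]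
    have hzk : (0 : ℝ) < ((z + k : ℕ) : ℝ) := by
      have : 0 < z + k := by omega
      exact_mod_cast this
    have hc : ((z + k + 1 : ℕ) : ℝ) = ((z + k : ℕ) : ℝ) + 1 := by push_cast; ring
    have hd : ((z + (k + 1) : ℕ) : ℝ) = ((z + k : ℕ) : ℝ) + 1 := by push_cast; ring
    rw [hc, hd]
    have key : 1 / (((z + k : ℕ) : ℝ) + 1) ^ 2 ≤
        1 / ((z + k : ℕ) : ℝ) - 1 / (((z + k : ℕ) : ℝ) + 1) := by
      set a : ℝ := ((z + k : ℕ) : ℝ) with ha
      have h1 : 1 / a - 1 / (a + 1) = 1 / (a * (a + 1)) := by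
        field_simp
        ring
      rw [h1]
      apply one_div_le_one_div_of_le (by positivity)
      nlinarith
    linarith

theorem inv_sq (z Y : ℕ) (hz : 1 ≤ z) : ∑ p ∈ prm z Y, 1 / (p : ℝ) ^ 2 ≤ 1 / (z : ℝ) := by
  have h1 : ∑ p ∈ prm z Y, 1 / (p : ℝ) ^ 2 ≤ ∑ p ∈ Finset.Ioc z (z + Y), 1 / (p : ℝ) ^ 2 := by
    apply Finset.sum_le_sum_of_subset_of_nonneg
    · intro p hp
      rw [mem_prm] at hp
      rw [Finset.mem_Ioc]
      omega
    · intro p _ _
      positivity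
  have h2 := inv_sq_Ioc z hz Y
  have h3 : (0 : ℝ) ≤ 1 / ((z + Y : ℕ) : ℝ) := by positivity
  linarith

theorem log_prod_le (n : ℤ) (hn : n ≠ 0) (S : Finset ℕ)
    (hS : ∀ p ∈ S, p.Prime ∧ (p : ℤ) ∣ n) : ∑ p ∈ S, Real.log (p : ℝ) ≤ Real.log |(n : ℝ)| := by
  have h1 : (∏ p ∈ S, p) ∣ n.natAbs := by
    apply Finset.prod_primes_dvd
    · intro p hp
      exact (hS p hp).1.prime
    · intro p hp
      exact Int.natCast_dvd.mp (hS p hp).2
  have h2 : (∏ p ∈ S, p) ≤ n.natAbs := Nat.le_of_dvd (Int.natAbs_pos.mpr hn) h1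
  have hne : ∀ p ∈ S, (p : ℝ) ≠ 0 := fun p hp => by
    have := (hS p hp).1.pos
    positivity
  rw [← Real.log_prod hne]
  apply Real.log_le_log
  · apply Finset.prod_pos
    intro p hp
    have := (hS p hp).1.pos
    exact_mod_cast this
  · have h3 : ((∏ p ∈ S, p : ℕ) : ℝ) ≤ (n.natAbs : ℝ) := by exact_mod_cast h2
    rw [Nat.cast_prod] at h3
    rw [Nat.cast_natAbs] at h3
    push_cast at h3
    exact h3

end Pool.Agent.Helper83.TW
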