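import Pool.Agent.Helper83.TW.ADefs
import Pool.Agent.Helper83.TW.L08

/-!
# TW-A2: prime ideals and rational primes

`norm_of_prime`: a nonzero prime ideal `I` has finite residue field of characteristic `p`, so
`absNorm I = p^k`, `k >= 1`, and `p ∈ I` (see `Ideal.absNorm_mem`, `Ideal.Quotient` finite field,
or `Ideal.exists_natAbs..`; `Ideal.absNorm I` is the cardinality of the quotient).
`card_above`: at most `[K : Q]` primes contain a given rational prime (`Ideal.sum_ramification_inertia`,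
each term is at least 1; or by the Chinese remainder theorem: the product of the distinct maximal
ideals contains `p`, so `p^(number) ∣ absNorm (product) ∣ absNorm (p) = p^[K:Q]`).
`sum_pid_le`: group the prime ideals of norm `<= n` by the rational prime `p` they contain
(`p <= absNorm I <= n`), `g (absNorm I) <= g p` as `g` is antitone.
-/

set_option autoImplicit false

namespace Pool.Agent.Helper83.TW

open NumberField

theorem norm_of_prime (K : Type) [Field K] [NumberField K] (I : Ideal (𝓞 K)) (hI : I.IsPrime)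
    (h0 : I ≠ ⊥) : ∃ p k : ℕ, p.Prime ∧ 1 ≤ k ∧ Ideal.absNorm I = p ^ k ∧ ((p : ℕ) : 𝓞 K) ∈ I := by
  classical
  haveI hmax : I.IsMaximal := hI.isMaximal h0
  letI : Field (𝓞 K ⧸ I) := Ideal.Quotient.field I
  haveI : Finite (𝓞 K ⧸ I) := Ideal.finiteQuotientOfFreeOfNeBot I h0
  letI : Fintype (𝓞 K ⧸ I) := Fintype.ofFinite _
  obtain ⟨p, hchar⟩ := CharP.exists (𝓞 K ⧸ I)
  haveI := hchar
  obtain ⟨n, hp, hcard⟩ := FiniteField.card (𝓞 K ⧸ I) p
  refine ⟨p, n, hp, n.pos, ?_, ?_⟩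
  · rw [Ideal.absNorm_apply, Submodule.cardQuot_apply, ← hcard, Nat.card_eq_fintype_card]
  · have h1 : ((p : ℕ) : 𝓞 K ⧸ I) = 0 := CharP.cast_eq_zero _ p
    rw [← Ideal.Quotient.eq_zero_iff_mem]
    simpa using h1

private theorem cast_ne_zero' (K : Type) [Field K] [NumberField K] (p : ℕ) (hp : p.Prime) :
    ((p : ℕ) : 𝓞 K) ≠ 0 := by
  exact_mod_cast hp.ne_zero

private theorem absNorm_span_nat (K : Type) [Field K] [NumberField K] (p : ℕ) :
    Ideal.absNorm (Ideal.span {((p : ℕ) : 𝓞 K)}) = p ^ Module.finrank ℚ K := by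
  rw [Ideal.absNorm_span_singleton]
  have h1 : ((p : ℕ) : 𝓞 K) = algebraMap ℤ (𝓞 K) (p : ℤ) := by simp
  rw [h1, Algebra.norm_algebraMap, NumberField.RingOfIntegers.rank K]
  simp [Int.natAbs_pow]

theorem card_above (K : Type) [Field K] [NumberField K] (p : ℕ) (hp : p.Prime)
    (S : Finset (Ideal (𝓞 K))) (hS : ∀ I ∈ S, I.IsPrime ∧ ((p : ℕ) : 𝓞 K) ∈ I) :
    S.card ≤ Module.finrank ℚ K := by
  classical
  have hne : ∀ I ∈ S, I ≠ ⊥ := by
    intro I hI h
    have h1 := (hS I hI).2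
    rw [h, Ideal.mem_bot] at h1
    exact cast_ne_zero' K p hp h1
  have hdvd : (∏ I ∈ S, I) ∣ Ideal.span {((p : ℕ) : 𝓞 K)} := by
    apply Finset.prod_primes_dvd
    · intro I hI
      haveI := (hS I hI).1
      exact Ideal.prime_of_isPrime (hne I hI) (hS I hI).1
    · intro I hI
      rw [Ideal.dvd_span_singleton]
      exact (hS I hI).2
  have h2 : Ideal.absNorm (∏ I ∈ S, I) ∣ Ideal.absNorm (Ideal.span {((p : ℕ) : 𝓞 K)}) :=
    Ideal.absNorm_dvd_absNorm_of_le (Ideal.le_of_dvd hdvd)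
  rw [absNorm_span_nat, map_prod] at h2
  have h3 : p ^ S.card ∣ ∏ I ∈ S, Ideal.absNorm I := by
    rw [← Finset.prod_const]
    apply Finset.prod_dvd_prod_of_dvd
    intro I hI
    obtain ⟨q, k, hq, hk, hn, hqI⟩ := norm_of_prime K I (hS I hI).1 (hne I hI)
    have hpq : p = q := by
      by_contra hne'
      have hc : Nat.Coprime p q := (Nat.coprime_primes hp hq).2 hne'
      have hc' : IsCoprime (p : ℤ) (q : ℤ) := Nat.isCoprime_iff_coprime.2 hc
      obtain ⟨a, b, hab⟩ := hc'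
      apply (hS I hI).1.ne_top
      rw [Ideal.eq_top_iff_one]
      have h5 : ((a : ℤ) : 𝓞 K) * ((p : ℕ) : 𝓞 K) + ((b : ℤ) : 𝓞 K) * ((q : ℕ) : 𝓞 K) = 1 := by
        have := congrArg (fun z : ℤ => (z : 𝓞 K)) hab
        simpa using this
      rw [← h5]
      exact I.add_mem (I.mul_mem_left _ (hS I hI).2) (I.mul_mem_left _ hqI)
    rw [hn, ← hpq]
    exact dvd_pow_self p (by omega)
  have h4 := h3.trans h2
  exact (Nat.pow_dvd_pow_iff_le_right hp.one_lt).1 h4

/-- the grouping argument: `u I` is a bound for `g (absNorm I)` through the prime below -/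
private theorem group_aux (K : Type) [Field K] [NumberField K] (n : ℕ) (S : Finset (Ideal (𝓞 K)))
    (F : Ideal (𝓞 K) → ℝ) (G : ℕ → ℝ) (hG : ∀ p, 0 ≤ G p)
    (hS : ∀ I ∈ S, ∃ p : ℕ, p ∈ prm 0 n ∧ I.IsPrime ∧ ((p : ℕ) : 𝓞 K) ∈ I ∧ F I ≤ G p) :
    ∑ I ∈ S, F I ≤ (Module.finrank ℚ K : ℝ) * ∑ p ∈ prm 0 n, G p := by
  classical
  have hex : ∀ I : Ideal (𝓞 K), ∃ p : ℕ, I ∈ S →
      (p ∈ prm 0 n ∧ I.IsPrime ∧ ((p : ℕ) : 𝓞 K) ∈ I ∧ F I ≤ G p) := by
    intro I
    by_cases hI : I ∈ S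
    · obtain ⟨p, hp⟩ := hS I hI
      exact ⟨p, fun _ => hp⟩
    · exact ⟨0, fun h => absurd h hI⟩
  choose u hu using hex
  calc ∑ I ∈ S, F I ≤ ∑ I ∈ S, G (u I) := Finset.sum_le_sum (fun I hI => (hu I hI).2.2.2)
    _ = ∑ p ∈ prm 0 n, ∑ I ∈ S with u I = p, G (u I) := by
        rw [Finset.sum_fiberwise_of_maps_to]
        exact fun I hI => (hu I hI).1
    _ ≤ ∑ p ∈ prm 0 n, (Module.finrank ℚ K : ℝ) * G p := by
        apply Finset.sum_le_sum
        intro p hp
        have h1 : ∑ I ∈ S with u I = p, G (u I) = ∑ I ∈ S with u I = p, G p := by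
          apply Finset.sum_congr rfl
          intro I hI
          rw [(Finset.mem_filter.1 hI).2]
        rw [h1, Finset.sum_const, nsmul_eq_mul]
        apply mul_le_mul_of_nonneg_right _ (hG p)
        have h2 := card_above K p (mem_prm.1 hp).2.2 (S.filter (fun I => u I = p)) (by
          intro I hI
          have h3 := Finset.mem_filter.1 hI
          have h4 := hu I h3.1
          rw [h3.2] at h4
          exact ⟨h4.2.1, h4.2.2.1⟩)
        exact_mod_cast h2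
    _ = (Module.finrank ℚ K : ℝ) * ∑ p ∈ prm 0 n, G p := by rw [Finset.mul_sum]

theorem sum_pid_le (K : Type) [Field K] [NumberField K] (n : ℕ) (g : ℕ → ℝ)
    (hg0 : ∀ k, 0 ≤ g k) (hg : ∀ a b : ℕ, 1 ≤ a → a ≤ b → g b ≤ g a) :
    ∑ I ∈ pid K n, g (Ideal.absNorm I) ≤ (Module.finrank ℚ K : ℝ) * ∑ p ∈ prm 0 n, g p := by
  apply group_aux K n (pid K n) (fun I => g (Ideal.absNorm I)) g hg0
  intro I hI
  obtain ⟨h1, h2, h3⟩ := mem_pid.1 hI
  obtain ⟨p, k, hp, hk, hn, hpI⟩ := norm_of_prime K I h3 h2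
  have hle : p ≤ Ideal.absNorm I := by
    rw [hn]
    exact Nat.le_self_pow (by omega) p
  exact ⟨p, mem_prm.2 ⟨hp.pos, hle.trans h1, hp⟩, h3, hpI, hg _ _ hp.one_le hle⟩

/-- prime ideals that are not of degree one: `absNorm I = p^k` with `k >= 2` -/
theorem sum_pid_sq_le (K : Type) [Field K] [NumberField K] (n : ℕ) (g : ℕ → ℝ)
    (hg0 : ∀ k, 0 ≤ g k) (hg : ∀ a b : ℕ, 1 ≤ a → a ≤ b → g b ≤ g a) :
    ∑ I ∈ (pid K n).filter (fun I => ¬ (Ideal.absNorm I).Prime), g (Ideal.absNorm I) ≤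
      (Module.finrank ℚ K : ℝ) * ∑ p ∈ prm 0 n, g (p ^ 2) := by
  apply group_aux K n _ (fun I => g (Ideal.absNorm I)) (fun p => g (p ^ 2)) (fun p => hg0 _)
  intro I hI
  obtain ⟨hI1, hI2⟩ := Finset.mem_filter.1 hI
  obtain ⟨h1, h2, h3⟩ := mem_pid.1 hI1
  obtain ⟨p, k, hp, hk, hn, hpI⟩ := norm_of_prime K I h3 h2
  have hk2 : 2 ≤ k := by
    by_contra hlt
    have hk1 : k = 1 := by omega
    rw [hk1, pow_one] at hn
    rw [hn] at hI2
    exact hI2 hp
  have hle : p ≤ Ideal.absNorm I := by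
    rw [hn]
    exact Nat.le_self_pow (by omega) p
  have hle2 : p ^ 2 ≤ Ideal.absNorm I := by
    rw [hn]
    exact Nat.pow_le_pow_right hp.pos hk2
  refine ⟨p, mem_prm.2 ⟨hp.pos, hle.trans h1, hp⟩, h3, hpI, ?_⟩
  exact hg _ _ (Nat.one_le_pow _ _ hp.pos) hle2

end Pool.Agent.Helper83.TW
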