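import Pool.Agent.Helper83.TW.ADefs

/-!
# TW-A3: the logarithm of the norm as a sum over prime powers

Proof.  For a nonzero ideal `I`, `log absNorm I = sum_{Q prime, k >= 1, Q^k ∣ I} log absNorm Q`
(unique factorization of ideals, `absNorm` multiplicative).  Sum over `I ∈ idl K n` and exchange: for
a prime `Q` and `k >= 1` the ideals `I ∈ idl K n` divisible by `Q^k` are `Q^k J` with
`absNorm J <= n / (absNorm Q)^k`, so their number is at most `card (idl K (n / (absNorm Q)^k))`; if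
there is one then `(absNorm Q)^k <= n`, `k <= n` (as `absNorm Q >= 2`) and `Q ∈ pid K n`.
-/

set_option autoImplicit false

namespace Pool.Agent.Helper83.TW

open NumberField

open UniqueFactorizationMonoid in
private theorem a3_norm_ne_zero {K : Type} [Field K] [NumberField K] {I : Ideal (𝓞 K)}
    (h : I ≠ ⊥) : Ideal.absNorm I ≠ 0 := by
  rw [Ne, Ideal.absNorm_eq_zero_iff]
  exact h

private theorem a3_two_le {K : Type} [Field K] [NumberField K] {Q : Ideal (𝓞 K)}
    (h : Q ≠ ⊥) (hQ : Q.IsPrime) : 2 ≤ Ideal.absNorm Q := by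
  have h0 := a3_norm_ne_zero h
  have h1 : Ideal.absNorm Q ≠ 1 := by
    rw [Ne, Ideal.absNorm_eq_one_iff]
    exact hQ.ne_top
  omega

open UniqueFactorizationMonoid Classical in
private theorem a3_log_le {K : Type} [Field K] [NumberField K] (n : ℕ) (I : Ideal (𝓞 K))
    (hI : I ∈ idl K n) :
    Real.log (Ideal.absNorm I : ℝ) ≤
      ∑ Q ∈ pid K n, ∑ k ∈ Finset.Icc 1 n, if Q ^ k ∣ I then Real.log (Ideal.absNorm Q : ℝ)
        else 0 := by
  obtain ⟨hn, h0⟩ := mem_idl.mp hI
  have h0' : I ≠ 0 := h0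
  set s := normalizedFactors I with hs
  have hprod : s.prod = I := by
    exact associated_iff_eq.mp (prod_normalizedFactors h0')
  have hnorm : Ideal.absNorm I = ∏ Q ∈ s.toFinset, Ideal.absNorm Q ^ s.count Q := by
    conv_lhs => rw [← hprod]
    rw [map_multiset_prod, Finset.prod_multiset_map_count]
  have hprime : ∀ Q ∈ s, Q ≠ ⊥ ∧ Q.IsPrime := by
    intro Q hQ
    have hp := prime_of_normalized_factor Q hQ
    exact ⟨hp.ne_zero, Ideal.isPrime_of_prime hp⟩
  have hdvd : ∀ Q k, k ≤ s.count Q → Q ^ k ∣ I := by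
    intro Q k hk
    have h1 := Multiset.le_count_iff_replicate_le.mp hk
    have h2 := Multiset.prod_dvd_prod_of_le h1
    rwa [Multiset.prod_replicate, hprod] at h2
  have hpow : ∀ Q k, Q ^ k ∣ I → Ideal.absNorm Q ^ k ≤ n := by
    intro Q k hk
    have h1 := map_dvd (Ideal.absNorm (S := 𝓞 K)) hk
    rw [map_pow] at h1
    exact (Nat.le_of_dvd (Nat.pos_of_ne_zero (a3_norm_ne_zero h0)) h1).trans hn
  have hsub : s.toFinset ⊆ pid K n := by
    intro Q hQ
    rw [Multiset.mem_toFinset] at hQ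
    obtain ⟨h1, h2⟩ := hprime Q hQ
    refine mem_pid.mpr ⟨?_, h1, h2⟩
    have := hpow Q 1 (hdvd Q 1 (Multiset.one_le_count_iff_mem.mpr hQ))
    rwa [pow_one] at this
  have hlog : Real.log (Ideal.absNorm I : ℝ) =
      ∑ Q ∈ s.toFinset, (s.count Q : ℝ) * Real.log (Ideal.absNorm Q : ℝ) := by
    rw [hnorm]
    push_cast
    rw [Real.log_prod]
    · exact Finset.sum_congr rfl fun Q _ => Real.log_pow _ _
    · intro Q hQ
      rw [Multiset.mem_toFinset] at hQ
      have := a3_norm_ne_zero (hprime Q hQ).1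
      positivity
  rw [hlog]
  have hnn : ∀ Q ∈ pid K n, 0 ≤ ∑ k ∈ Finset.Icc 1 n,
      if Q ^ k ∣ I then Real.log (Ideal.absNorm Q : ℝ) else 0 := by
    intro Q _
    refine Finset.sum_nonneg fun k _ => ?_
    split_ifs
    · exact Real.log_natCast_nonneg _
    · exact le_rfl
  refine le_trans ?_ (Finset.sum_le_sum_of_subset_of_nonneg hsub fun Q hQ _ => hnn Q hQ)
  refine Finset.sum_le_sum fun Q hQ => ?_
  rw [Multiset.mem_toFinset] at hQ
  have hc : s.count Q ≤ n := by
    have h1 := hpow Q _ (hdvd Q _ le_rfl)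
    have h2 := a3_two_le (hprime Q hQ).1 (hprime Q hQ).2
    have h3 : 2 ^ s.count Q ≤ Ideal.absNorm Q ^ s.count Q := Nat.pow_le_pow_left h2 _
    have h4 : s.count Q < 2 ^ s.count Q := Nat.lt_two_pow_self
    omega
  rw [← Finset.sum_filter, Finset.sum_const, nsmul_eq_mul]
  refine mul_le_mul_of_nonneg_right ?_ (Real.log_natCast_nonneg _)
  have hsub2 : Finset.Icc 1 (s.count Q) ⊆ (Finset.Icc 1 n).filter (fun k => Q ^ k ∣ I) := by
    intro k hk
    rw [Finset.mem_Icc] at hk
    rw [Finset.mem_filter, Finset.mem_Icc]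
    exact ⟨⟨hk.1, hk.2.trans hc⟩, hdvd Q k hk.2⟩
  have h5 := Finset.card_le_card hsub2
  rw [Nat.card_Icc, Nat.add_sub_cancel] at h5
  exact_mod_cast h5

open Classical in
private theorem a3_count {K : Type} [Field K] [NumberField K] (n k : ℕ) (Q : Ideal (𝓞 K))
    (hQ : Q ∈ pid K n) :
    ((idl K n).filter (fun I => Q ^ k ∣ I)).card ≤
      if (Ideal.absNorm Q) ^ k ≤ n then (idl K (n / (Ideal.absNorm Q) ^ k)).card else 0 := by
  obtain ⟨hQn, hQ0, hQp⟩ := mem_pid.mp hQ
  have hpos : 0 < Ideal.absNorm Q ^ k :=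
    pow_pos (Nat.pos_of_ne_zero (a3_norm_ne_zero hQ0)) _
  split_ifs with h
  · refine Finset.card_le_card_of_surjOn (fun J => Q ^ k * J) ?_
    intro I hI
    rw [Finset.mem_coe, Finset.mem_filter] at hI
    obtain ⟨hI1, J, rfl⟩ := hI
    obtain ⟨h1, h2⟩ := mem_idl.mp hI1
    refine ⟨J, ?_, rfl⟩
    rw [Finset.mem_coe, mem_idl]
    constructor
    · rw [map_mul, map_pow] at h1
      rw [Nat.le_div_iff_mul_le hpos, mul_comm]
      exact h1
    · rintro rfl
      exact h2 (by rw [Ideal.mul_bot])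
  · rw [Nat.le_zero, Finset.card_eq_zero, Finset.filter_eq_empty_iff]
    intro I hI hd
    obtain ⟨h1, h2⟩ := mem_idl.mp hI
    have h3 := map_dvd (Ideal.absNorm (S := 𝓞 K)) hd
    rw [map_pow] at h3
    exact h ((Nat.le_of_dvd (Nat.pos_of_ne_zero (a3_norm_ne_zero h2)) h3).trans h1)

theorem log_sum_le (K : Type) [Field K] [NumberField K] (n : ℕ) :
    ∑ I ∈ idl K n, Real.log (Ideal.absNorm I : ℝ) ≤
      ∑ Q ∈ pid K n, ∑ k ∈ (Finset.Icc 1 n).filter (fun k => (Ideal.absNorm Q) ^ k ≤ n),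
        Real.log (Ideal.absNorm Q : ℝ) * ((idl K (n / (Ideal.absNorm Q) ^ k)).card : ℝ) := by
  classical
  refine (Finset.sum_le_sum fun I hI => a3_log_le n I hI).trans ?_
  rw [Finset.sum_comm]
  refine Finset.sum_le_sum fun Q hQ => ?_
  rw [Finset.sum_comm, Finset.sum_filter]
  refine Finset.sum_le_sum fun k _ => ?_
  rw [← Finset.sum_filter, Finset.sum_const, nsmul_eq_mul, mul_comm]
  have h1 := a3_count n k Q hQ
  have h0 : 0 ≤ Real.log (Ideal.absNorm Q : ℝ) := Real.log_natCast_nonneg _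
  split_ifs with h
  · rw [if_pos h] at h1
    exact mul_le_mul_of_nonneg_left (by exact_mod_cast h1) h0
  · rw [if_neg h, Nat.le_zero] at h1
    rw [h1]
    simp

end Pool.Agent.Helper83.TW
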