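import Pool.Agent.Helper83.TW.A1
import Pool.Agent.Helper83.TW.A2
import Pool.Agent.Helper83.TW.A3

/-!
# TW-A4: Mertens for a number field, lower bound

Proof.  Write `A(n) = card (idl K n)`, `A(n) <= C n`, `κ` from `idl_count`.  `log_sum_le` and
`idl_log` give, for large `n`,
`(κ - ε) n log n <= sum_{Q, k : N Q^k <= n} log(N Q) A(n / N Q^k)`.
Terms with `k >= 2`: `A(n / NQ^k) <= C n / NQ^k`, and `sum_{k>=2} log NQ / NQ^k <= 2 log NQ / NQ^2`,
`sum_Q log NQ / NQ^2 <= D` independent of `n` (`sum_pid_le` with `g(x) = c x^(-3/2)` and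
`sum 1/p^(3/2) < infinity`, or with `g(x) = (1 + log x)/x^2` suitably; any bound independent of `n`).
Terms with `k = 1`, `NQ <= n / n1` where `A(m) <= (κ + ε) m` for `m >= n1`: at most
`(κ + ε) n log NQ / NQ`.  Terms with `k = 1`, `n/n1 < NQ <= n`: at most
`C n log NQ / NQ <= C n1 log n` each, and there are at most `[K:Q] * card (prm 0 n)` of them
(`sum_pid_le` with `g = 1`), and `card (prm 0 n) * log n <= C' n` (Chebyshev: e.g.
`Chebyshev.pi_le_log4_mul_div`), total at most `C'' n1 n`... (use `log NQ/NQ <= n1 log n / n`).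
Hence `(κ + ε) sum_{Q} log NQ / NQ >= (κ - ε) log n - C'''`, and let `ε → 0`.
-/

set_option autoImplicit false

namespace Pool.Agent.Helper83.TW

open NumberField

private theorem A4_log_le {x : ℝ} (hx : 0 ≤ x) : Real.log x ≤ 2 * √x := by
  have h1 : Real.log √x = Real.log x / 2 := Real.log_sqrt hx
  have h2 : Real.log √x ≤ √x := Real.log_le_self (Real.sqrt_nonneg x)
  linarith

private theorem A4_pi (n : ℕ) :
    ((prm 0 n).card : ℝ) * Real.log n ≤ (2 * Real.log 4 + 2) * n := by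
  have h4 : 0 < Real.log 4 := Real.log_pos (by norm_num)
  have hcard : (prm 0 n).card = Nat.primeCounting n := by
    unfold prm Nat.primeCounting Nat.primeCounting'
    rw [Nat.count_eq_card_filter_range]
    congr 1
    ext p
    simp only [Finset.mem_filter, Finset.mem_Ioc, Finset.mem_range]
    constructor
    · rintro ⟨⟨h1, h2⟩, h3⟩
      exact ⟨by omega, h3⟩
    · rintro ⟨h1, h3⟩
      exact ⟨⟨h3.pos, by omega⟩, h3⟩
  rcases Nat.lt_or_ge n 2 with h | h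
  · have h0 : Real.log (n : ℝ) = 0 := by
      interval_cases n
      · simp
      · simp
    rw [h0, mul_zero]
    positivity
  · have hn1 : (1 : ℝ) < n := by exact_mod_cast h
    have h1 := Chebyshev.pi_le_log4_mul_div (x := (n : ℝ)) hn1
    rw [Nat.floor_natCast] at h1
    have hlog : 0 < Real.log (n : ℝ) := Real.log_pos hn1
    have hsq : Real.log √(n : ℝ) = Real.log (n : ℝ) / 2 := Real.log_sqrt (by positivity)
    rw [hsq] at h1
    have h2 : Real.log (n : ℝ) ≤ 2 * √(n : ℝ) := A4_log_le (by positivity)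
    have h3 : √(n : ℝ) * √(n : ℝ) = n := Real.mul_self_sqrt (by positivity)
    rw [hcard]
    calc (Nat.primeCounting n : ℝ) * Real.log n
        ≤ (Real.log 4 * n / (Real.log (n : ℝ) / 2) + √(n : ℝ)) * Real.log n :=
          mul_le_mul_of_nonneg_right h1 hlog.le
      _ = 2 * Real.log 4 * n + √(n : ℝ) * Real.log n := by
          field_simp
      _ ≤ 2 * Real.log 4 * n + √(n : ℝ) * (2 * √(n : ℝ)) := by gcongr
      _ = 2 * Real.log 4 * n + 2 * (√(n : ℝ) * √(n : ℝ)) := by ring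
      _ = (2 * Real.log 4 + 2) * n := by rw [h3]; ring

private noncomputable def A4_g (k : ℕ) : ℝ := 2 * (k : ℝ) ^ (-(3 / 2) : ℝ)

private theorem A4_g_nonneg (k : ℕ) : 0 ≤ A4_g k := by
  unfold A4_g
  positivity

private theorem A4_g_anti (a b : ℕ) (ha : 1 ≤ a) (hab : a ≤ b) : A4_g b ≤ A4_g a := by
  unfold A4_g
  have h1 : (0 : ℝ) < a := by exact_mod_cast ha
  have h2 : (a : ℝ) ≤ b := by exact_mod_cast hab
  have h3 := Real.rpow_le_rpow_of_nonpos h1 h2 (by norm_num : (-(3 / 2) : ℝ) ≤ 0)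
  linarith

private theorem A4_g_sum : ∃ D : ℝ, 0 ≤ D ∧ ∀ n : ℕ, ∑ p ∈ prm 0 n, A4_g p ≤ D := by
  have hs : Summable A4_g := by
    unfold A4_g
    exact (Real.summable_nat_rpow.2 (by norm_num)).mul_left 2
  refine ⟨∑' k, A4_g k, tsum_nonneg A4_g_nonneg, fun n => ?_⟩
  exact hs.sum_le_tsum _ (fun k _ => A4_g_nonneg k)

private theorem A4_log_div (k : ℕ) (hk : 1 ≤ k) :
    Real.log (k : ℝ) / (k : ℝ) ^ 2 ≤ A4_g k := by
  have h0 : (0 : ℝ) < k := by exact_mod_cast hk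
  unfold A4_g
  rw [div_le_iff₀ (by positivity)]
  have h1 : (k : ℝ) ^ (-(3 / 2) : ℝ) * (k : ℝ) ^ 2 = √(k : ℝ) := by
    rw [← Real.rpow_natCast, ← Real.rpow_add h0, Real.sqrt_eq_rpow]
    norm_num
  rw [mul_assoc, h1]
  exact A4_log_le h0.le

private theorem A4_geom (x : ℝ) (hx0 : 0 ≤ x) (hx : x ≤ 1 / 2) (n : ℕ) (hn : 1 ≤ n) :
    ∑ k ∈ Finset.Ico 2 (n + 1), x ^ k ≤ 2 * x ^ 2 := by
  rw [geom_sum_Ico (by linarith) (by omega : 2 ≤ n + 1)]
  have h1 : (x ^ (n + 1) - x ^ 2) / (x - 1) = (x ^ 2 - x ^ (n + 1)) / (1 - x) := by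
    rw [← neg_div_neg_eq]
    congr 1 <;> ring
  rw [h1, div_le_iff₀ (by linarith)]
  have h2 : 0 ≤ x ^ (n + 1) := by positivity
  have h3 : 0 ≤ x ^ 2 := by positivity
  nlinarith

/-- the contribution of one prime ideal -/
private theorem A4_term (K : Type) [Field K] [NumberField K] (C c₁ : ℝ) (hC : 0 < C)
    (hc₁ : 0 ≤ c₁) (hA : ∀ n : ℕ, ((idl K n).card : ℝ) ≤ C * n) (n₁ : ℕ)
    (hA1 : ∀ n : ℕ, n₁ ≤ n → ((idl K n).card : ℝ) ≤ c₁ * n) (n q : ℕ) (hq2 : 2 ≤ q)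
    (hqn : q ≤ n) :
    ∑ k ∈ (Finset.Icc 1 n).filter (fun k => q ^ k ≤ n),
        Real.log (q : ℝ) * ((idl K (n / q ^ k)).card : ℝ) ≤
      c₁ * n * (Real.log (q : ℝ) / q) + C * n₁ * Real.log n + 2 * C * n * A4_g q := by
  have hq0 : (0 : ℝ) < q := by
    have : 0 < q := by omega
    exact_mod_cast this
  have hq1 : (1 : ℝ) ≤ q := by
    have : 1 ≤ q := by omega
    exact_mod_cast this
  have hlogq : 0 ≤ Real.log (q : ℝ) := Real.log_nonneg hq1
  have hlogn : Real.log (q : ℝ) ≤ Real.log n := by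
    apply Real.log_le_log hq0
    exact_mod_cast hqn
  have hn0 : (0 : ℝ) ≤ n := by positivity
  have hsub : (Finset.Icc 1 n).filter (fun k => q ^ k ≤ n) ⊆ insert 1 (Finset.Ico 2 (n + 1)) := by
    intro k hk
    simp only [Finset.mem_filter, Finset.mem_Icc] at hk
    simp only [Finset.mem_insert, Finset.mem_Ico]
    omega
  have hnn : ∀ k, 0 ≤ Real.log (q : ℝ) * ((idl K (n / q ^ k)).card : ℝ) := fun k =>
    mul_nonneg hlogq (by positivity)
  have h1 : Real.log (q : ℝ) * ((idl K (n / q ^ 1)).card : ℝ) ≤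
      c₁ * n * (Real.log (q : ℝ) / q) + C * n₁ * Real.log n := by
    rw [pow_one]
    have hdiv : ((n / q : ℕ) : ℝ) ≤ (n : ℝ) / q := Nat.cast_div_le
    rcases Nat.lt_or_ge (n / q) n₁ with h | h
    · have h2 : ((idl K (n / q)).card : ℝ) ≤ C * n₁ := by
        refine (hA _).trans ?_
        have : ((n / q : ℕ) : ℝ) ≤ n₁ := by exact_mod_cast h.le
        gcongr
      have h3 : Real.log (q : ℝ) * ((idl K (n / q)).card : ℝ) ≤ Real.log n * (C * n₁) := by
        gcongr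
      have h4 : 0 ≤ c₁ * n * (Real.log (q : ℝ) / q) := by positivity
      linarith
    · have h2 : ((idl K (n / q)).card : ℝ) ≤ c₁ * ((n : ℝ) / q) := by
        refine (hA1 _ h).trans ?_
        gcongr
      have h3 : Real.log (q : ℝ) * ((idl K (n / q)).card : ℝ) ≤
          Real.log (q : ℝ) * (c₁ * ((n : ℝ) / q)) := by
        gcongr
      have h4 : Real.log (q : ℝ) * (c₁ * ((n : ℝ) / q)) = c₁ * n * (Real.log (q : ℝ) / q) := by
        field_simp
      have h5 : 0 ≤ C * n₁ * Real.log n := by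
        have : 0 ≤ Real.log (n : ℝ) := hlogq.trans hlogn
        positivity
      linarith
  have h2 : ∑ k ∈ Finset.Ico 2 (n + 1), Real.log (q : ℝ) * ((idl K (n / q ^ k)).card : ℝ) ≤
      2 * C * n * A4_g q := by
    have h3 : ∀ k ∈ Finset.Ico 2 (n + 1), Real.log (q : ℝ) * ((idl K (n / q ^ k)).card : ℝ) ≤
        Real.log (q : ℝ) * (C * n) * ((1 / (q : ℝ)) ^ k) := by
      intro k _
      have h4 : ((n / q ^ k : ℕ) : ℝ) ≤ (n : ℝ) / (q : ℝ) ^ k := by
        have := Nat.cast_div_le (α := ℝ) (m := n) (n := q ^ k)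
        rwa [Nat.cast_pow] at this
      have h5 : ((idl K (n / q ^ k)).card : ℝ) ≤ C * ((n : ℝ) / (q : ℝ) ^ k) := by
        refine (hA _).trans ?_
        gcongr
      calc Real.log (q : ℝ) * ((idl K (n / q ^ k)).card : ℝ)
          ≤ Real.log (q : ℝ) * (C * ((n : ℝ) / (q : ℝ) ^ k)) := by gcongr
        _ = Real.log (q : ℝ) * (C * n) * ((1 / (q : ℝ)) ^ k) := by
            rw [one_div, inv_pow]
            ring
    have h6 : (1 / (q : ℝ)) ≤ 1 / 2 := by
      have : (2 : ℝ) ≤ q := by exact_mod_cast hq2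
      gcongr
    have h7 := A4_geom (1 / (q : ℝ)) (by positivity) h6 n (by omega)
    have h8 := A4_log_div q (by omega)
    calc ∑ k ∈ Finset.Ico 2 (n + 1), Real.log (q : ℝ) * ((idl K (n / q ^ k)).card : ℝ)
        ≤ ∑ k ∈ Finset.Ico 2 (n + 1), Real.log (q : ℝ) * (C * n) * ((1 / (q : ℝ)) ^ k) :=
          Finset.sum_le_sum h3
      _ = Real.log (q : ℝ) * (C * n) * ∑ k ∈ Finset.Ico 2 (n + 1), (1 / (q : ℝ)) ^ k := by
          rw [Finset.mul_sum]
      _ ≤ Real.log (q : ℝ) * (C * n) * (2 * (1 / (q : ℝ)) ^ 2) := by gcongr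
      _ = 2 * C * n * (Real.log (q : ℝ) / (q : ℝ) ^ 2) := by
          rw [one_div, inv_pow]
          ring
      _ ≤ 2 * C * n * A4_g q := by gcongr
  calc ∑ k ∈ (Finset.Icc 1 n).filter (fun k => q ^ k ≤ n),
        Real.log (q : ℝ) * ((idl K (n / q ^ k)).card : ℝ)
      ≤ ∑ k ∈ insert 1 (Finset.Ico 2 (n + 1)),
        Real.log (q : ℝ) * ((idl K (n / q ^ k)).card : ℝ) :=
        Finset.sum_le_sum_of_subset_of_nonneg hsub fun k _ _ => hnn k
    _ = Real.log (q : ℝ) * ((idl K (n / q ^ 1)).card : ℝ) +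
        ∑ k ∈ Finset.Ico 2 (n + 1), Real.log (q : ℝ) * ((idl K (n / q ^ k)).card : ℝ) := by
        rw [Finset.sum_insert (by simp)]
    _ ≤ _ := by linarith

private theorem A4_two_le (K : Type) [Field K] [NumberField K] {n : ℕ} {Q : Ideal (𝓞 K)}
    (hQ : Q ∈ pid K n) : 2 ≤ Ideal.absNorm Q := by
  rw [mem_pid] at hQ
  obtain ⟨p, k, hp, hk, hQn, -⟩ := norm_of_prime K Q hQ.2.2 hQ.2.1
  rw [hQn]
  calc 2 ≤ p := hp.two_le
    _ = p ^ 1 := (pow_one p).symm
    _ ≤ p ^ k := Nat.pow_le_pow_right hp.pos hk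


theorem mertens_K (K : Type) [Field K] [NumberField K] :
    ∀ ε : ℝ, 0 < ε → ∃ n₀ : ℕ, ∀ n : ℕ, n₀ ≤ n →
      (1 - ε) * Real.log n ≤
        ∑ Q ∈ pid K n, Real.log (Ideal.absNorm Q : ℝ) / (Ideal.absNorm Q : ℝ) := by
  intro ε hε
  obtain ⟨κ, hκ, hcount⟩ := idl_count K
  obtain ⟨C, hC, hA⟩ := idl_le K
  obtain ⟨D, hD, hDsum⟩ := A4_g_sum
  obtain ⟨ε₁, hε₁⟩ : ∃ ε₁ : ℝ, ε₁ = ε * κ / 4 := ⟨_, rfl⟩
  have hε₁0 : 0 < ε₁ := by rw [hε₁]; positivity
  obtain ⟨n₁, hn₁⟩ := hcount ε₁ hε₁0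
  obtain ⟨n₂, hn₂⟩ := idl_log K κ hκ hcount ε₁ hε₁0
  obtain ⟨d, hd⟩ : ∃ d : ℝ, d = (Module.finrank ℚ K : ℝ) := ⟨_, rfl⟩
  have hd0 : 0 ≤ d := by rw [hd]; positivity
  have h4 : 0 < Real.log 4 := Real.log_pos (by norm_num)
  obtain ⟨B, hB⟩ : ∃ B : ℝ, B = C * n₁ * (d * (2 * Real.log 4 + 2)) + 2 * C * (d * D) :=
    ⟨_, rfl⟩
  have hB0 : 0 ≤ B := by rw [hB]; positivity
  -- the main inequality
  have hmain : ∀ n : ℕ, n₂ ≤ n → 1 ≤ n → (κ - ε₁) * Real.log n ≤
      (κ + ε₁) * (∑ Q ∈ pid K n, Real.log (Ideal.absNorm Q : ℝ) / (Ideal.absNorm Q : ℝ)) + B := by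
    intro n hn hn1
    have hn0 : (0 : ℝ) < n := by exact_mod_cast hn1
    have e1 := hn₂ n hn
    have e2 := log_sum_le K n
    have e3 : ∑ Q ∈ pid K n, ∑ k ∈ (Finset.Icc 1 n).filter (fun k => (Ideal.absNorm Q) ^ k ≤ n),
        Real.log (Ideal.absNorm Q : ℝ) * ((idl K (n / (Ideal.absNorm Q) ^ k)).card : ℝ) ≤
        ∑ Q ∈ pid K n, ((κ + ε₁) * n * (Real.log (Ideal.absNorm Q : ℝ) / (Ideal.absNorm Q : ℝ)) +
          C * n₁ * Real.log n + 2 * C * n * A4_g (Ideal.absNorm Q)) := by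
      refine Finset.sum_le_sum fun Q hQ => ?_
      exact A4_term K C (κ + ε₁) hC (by positivity) hA n₁ (fun m hm => (hn₁ m hm).2) n _
        (A4_two_le K hQ) (mem_pid.1 hQ).1
    have e4 : ((pid K n).card : ℝ) ≤ d * ((prm 0 n).card : ℝ) := by
      have := sum_pid_le K n (fun _ => 1) (fun _ => zero_le_one) (fun _ _ _ _ => le_refl _)
      simpa [hd] using this
    have e5 : ∑ Q ∈ pid K n, A4_g (Ideal.absNorm Q) ≤ d * D := by
      refine (sum_pid_le K n A4_g A4_g_nonneg A4_g_anti).trans ?_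
      rw [← hd]
      exact mul_le_mul_of_nonneg_left (hDsum n) hd0
    have e6 : ((pid K n).card : ℝ) * Real.log n ≤ d * ((2 * Real.log 4 + 2) * n) := by
      have hl : 0 ≤ Real.log (n : ℝ) := Real.log_nonneg (by exact_mod_cast hn1)
      calc ((pid K n).card : ℝ) * Real.log n ≤ (d * ((prm 0 n).card : ℝ)) * Real.log n := by gcongr
        _ = d * (((prm 0 n).card : ℝ) * Real.log n) := by ring
        _ ≤ _ := mul_le_mul_of_nonneg_left (A4_pi n) hd0
    have e3' : ∑ Q ∈ pid K n, ((κ + ε₁) * n *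
          (Real.log (Ideal.absNorm Q : ℝ) / (Ideal.absNorm Q : ℝ)) +
          C * n₁ * Real.log n + 2 * C * n * A4_g (Ideal.absNorm Q)) =
        (κ + ε₁) * n * (∑ Q ∈ pid K n, Real.log (Ideal.absNorm Q : ℝ) / (Ideal.absNorm Q : ℝ)) +
          ((pid K n).card : ℝ) * (C * n₁ * Real.log n) +
          2 * C * n * ∑ Q ∈ pid K n, A4_g (Ideal.absNorm Q) := by
      rw [Finset.sum_add_distrib, Finset.sum_add_distrib, Finset.sum_const, nsmul_eq_mul,
        Finset.mul_sum, Finset.mul_sum]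
    rw [e3'] at e3
    obtain ⟨S, hS⟩ : ∃ S : ℝ, S = ∑ Q ∈ pid K n,
      Real.log (Ideal.absNorm Q : ℝ) / (Ideal.absNorm Q : ℝ) := ⟨_, rfl⟩
    rw [← hS] at e3 ⊢
    have e7 : ((pid K n).card : ℝ) * (C * n₁ * Real.log n) ≤
        C * n₁ * (d * ((2 * Real.log 4 + 2) * n)) := by
      calc ((pid K n).card : ℝ) * (C * n₁ * Real.log n)
          = C * n₁ * (((pid K n).card : ℝ) * Real.log n) := by ring
        _ ≤ _ := by gcongr
    have e8 : 2 * C * n * ∑ Q ∈ pid K n, A4_g (Ideal.absNorm Q) ≤ 2 * C * n * (d * D) := by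
      gcongr
    have e9 : (κ - ε₁) * n * Real.log n ≤ ((κ + ε₁) * S + B) * n := by
      have e11 : ((κ + ε₁) * S + B) * n = (κ + ε₁) * n * S +
          C * n₁ * (d * ((2 * Real.log 4 + 2) * n)) + 2 * C * n * (d * D) := by
        rw [hB]; ring
      rw [e11]
      linarith
    have e10 : (κ - ε₁) * Real.log n * n ≤ ((κ + ε₁) * S + B) * n := by
      calc (κ - ε₁) * Real.log n * n = (κ - ε₁) * n * Real.log n := by ring
        _ ≤ _ := e9
    exact le_of_mul_le_mul_right e10 hn0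
  -- large `n`
  obtain ⟨n₃, hn₃⟩ : ∃ n₃ : ℕ, ∀ n : ℕ, n₃ ≤ n → 2 * B / (ε * κ) ≤ Real.log n := by
    have ht : Filter.Tendsto (fun n : ℕ => Real.log (n : ℝ)) Filter.atTop Filter.atTop :=
      Real.tendsto_log_atTop.comp tendsto_natCast_atTop_atTop
    have := ht.eventually_ge_atTop (2 * B / (ε * κ))
    rw [Filter.eventually_atTop] at this
    exact this
  refine ⟨max (max n₂ n₃) 1, fun n hn => ?_⟩
  have h1 : n₂ ≤ n := (le_max_left _ _).trans ((le_max_left _ _).trans hn)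
  have h2 : n₃ ≤ n := (le_max_right _ _).trans ((le_max_left _ _).trans hn)
  have h3 : 1 ≤ n := (le_max_right _ _).trans hn
  have hl : 0 ≤ Real.log (n : ℝ) := Real.log_nonneg (by exact_mod_cast h3)
  have e1 := hmain n h1 h3
  have e2 := hn₃ n h2
  rw [div_le_iff₀ (by positivity)] at e2
  obtain ⟨S, hS⟩ : ∃ S : ℝ, S = ∑ Q ∈ pid K n,
      Real.log (Ideal.absNorm Q : ℝ) / (Ideal.absNorm Q : ℝ) := ⟨_, rfl⟩
  rw [← hS] at e1 ⊢
  by_contra hcon
  push Not at hcon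
  have hpos : 0 < κ + ε₁ := by positivity
  have e3 : (κ + ε₁) * S < (κ + ε₁) * ((1 - ε) * Real.log n) := mul_lt_mul_of_pos_left hcon hpos
  have e4 : (κ - ε₁) * Real.log n < (κ + ε₁) * ((1 - ε) * Real.log n) + B := by linarith
  have e5 : (κ - ε₁ - (κ + ε₁) * (1 - ε)) * Real.log n < B := by nlinarith
  have e6 : κ - ε₁ - (κ + ε₁) * (1 - ε) = ε * κ / 2 + ε * ε₁ := by rw [hε₁]; ring
  rw [e6] at e5
  have e7 : 0 ≤ ε * ε₁ * Real.log n := by positivity
  nlinarith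

end Pool.Agent.Helper83.TW
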