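import Pool.Agent.Helper83.TW.A2
import Pool.Agent.Helper83.TW.A4

/-!
# TW-A5: Mertens for primes of degree one

Proof.  From `mertens_K` drop the prime ideals whose norm is not a prime number: by `sum_pid_sq_le`
with an antitone majorant `g` of `log x / x` of size `x^(-3/4)` (e.g. `g x = 4 * x^(-3/4)`,
`log x <= 4 x^(1/4)`), their sum is at most `[K:Q] * 4 * sum_p p^(-3/2)`, bounded independently of
`n`.  The others are grouped by their norm `p` (`mem_d1`).
-/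

set_option autoImplicit false

namespace Pool.Agent.Helper83.TW

open NumberField

private theorem log_div_le (x : ℝ) (hx : 1 ≤ x) : Real.log x / x ≤ 4 * x ^ (-(3 / 4) : ℝ) := by
  have hx0 : 0 < x := by linarith
  have h := Real.log_le_rpow_div hx0.le (by norm_num : (0 : ℝ) < 1 / 4)
  have h1 : x ^ (-(3 / 4) : ℝ) = x ^ (1 / 4 : ℝ) / x := by
    rw [show (-(3 / 4) : ℝ) = 1 / 4 - 1 by norm_num, Real.rpow_sub hx0, Real.rpow_one]
  rw [h1, div_le_iff₀ hx0]
  have h2 : 4 * (x ^ (1 / 4 : ℝ) / x) * x = 4 * x ^ (1 / 4 : ℝ) := by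
    field_simp
  rw [h2]
  calc Real.log x ≤ x ^ (1 / 4 : ℝ) / (1 / 4) := h
    _ = 4 * x ^ (1 / 4 : ℝ) := by ring

private theorem g_anti (a b : ℕ) (ha : 1 ≤ a) (hab : a ≤ b) :
    4 * ((b : ℝ) ^ (-(3 / 4) : ℝ)) ≤ 4 * ((a : ℝ) ^ (-(3 / 4) : ℝ)) := by
  have ha' : (0 : ℝ) < a := by exact_mod_cast ha
  have hab' : (a : ℝ) ≤ b := by exact_mod_cast hab
  have := Real.rpow_le_rpow_of_nonpos ha' hab' (by norm_num : (-(3 / 4) : ℝ) ≤ 0)
  linarith

private theorem sum_g_le (n : ℕ) :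
    ∑ p ∈ prm 0 n, 4 * (((p ^ 2 : ℕ) : ℝ) ^ (-(3 / 4) : ℝ)) ≤
      4 * ∑' k : ℕ, ((k : ℝ) ^ (-(3 / 2) : ℝ)) := by
  have hs : Summable (fun k : ℕ => ((k : ℝ) ^ (-(3 / 2) : ℝ))) :=
    Real.summable_nat_rpow.mpr (by norm_num)
  rw [← Finset.mul_sum]
  refine mul_le_mul_of_nonneg_left ?_ (by norm_num)
  calc ∑ p ∈ prm 0 n, (((p ^ 2 : ℕ) : ℝ) ^ (-(3 / 4) : ℝ))
      = ∑ p ∈ prm 0 n, ((p : ℝ) ^ (-(3 / 2) : ℝ)) := by
        refine Finset.sum_congr rfl fun p _ => ?_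
        push_cast
        rw [← Real.rpow_natCast (p : ℝ) 2, ← Real.rpow_mul (Nat.cast_nonneg p)]
        norm_num
    _ ≤ ∑' k : ℕ, ((k : ℝ) ^ (-(3 / 2) : ℝ)) :=
        hs.sum_le_tsum _ (fun k _ => Real.rpow_nonneg (Nat.cast_nonneg k) _)

theorem mertens_d1 (K : Type) [Field K] [NumberField K] :
    ∀ ε : ℝ, 0 < ε → ∃ n₀ : ℕ, ∀ n : ℕ, n₀ ≤ n →
      (1 - ε) * Real.log n ≤ ∑ p ∈ prm 0 n, ((d1 K p).card : ℝ) * Real.log (p : ℝ) / (p : ℝ) := by
  classical
  intro ε hε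
  obtain ⟨n₁, hn₁⟩ := mertens_K K (ε / 2) (by positivity)
  set D : ℝ := (Module.finrank ℚ K : ℝ) * (4 * ∑' k : ℕ, ((k : ℝ) ^ (-(3 / 2) : ℝ))) with hD
  have hlim : ∀ᶠ n : ℕ in Filter.atTop, 2 * D / ε ≤ Real.log (n : ℝ) :=
    (Real.tendsto_log_atTop.comp tendsto_natCast_atTop_atTop).eventually_ge_atTop _
  obtain ⟨n₂, hn₂⟩ := Filter.eventually_atTop.mp hlim
  refine ⟨max n₁ n₂, fun n hn => ?_⟩
  have h1 := hn₁ n (le_trans (le_max_left _ _) hn)
  have h2 := hn₂ n (le_trans (le_max_right _ _) hn)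
  -- split
  rw [← Finset.sum_filter_add_sum_filter_not (pid K n) (fun I => (Ideal.absNorm I).Prime)] at h1
  -- the part which is not of degree one
  have hpos : ∀ I ∈ pid K n, 1 ≤ Ideal.absNorm I := by
    intro I hI
    rw [mem_pid] at hI
    rw [Nat.one_le_iff_ne_zero]
    intro h0
    exact hI.2.1 (Ideal.absNorm_eq_zero_iff.mp h0)
  have hB : ∑ Q ∈ (pid K n).filter (fun I => ¬ (Ideal.absNorm I).Prime),
      Real.log (Ideal.absNorm Q : ℝ) / (Ideal.absNorm Q : ℝ) ≤ D := by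
    calc ∑ Q ∈ (pid K n).filter (fun I => ¬ (Ideal.absNorm I).Prime),
          Real.log (Ideal.absNorm Q : ℝ) / (Ideal.absNorm Q : ℝ)
        ≤ ∑ Q ∈ (pid K n).filter (fun I => ¬ (Ideal.absNorm I).Prime),
          4 * (((Ideal.absNorm Q : ℕ) : ℝ) ^ (-(3 / 4) : ℝ)) := by
          refine Finset.sum_le_sum fun Q hQ => ?_
          refine log_div_le _ ?_
          exact_mod_cast hpos Q (Finset.mem_of_mem_filter Q hQ)
      _ ≤ (Module.finrank ℚ K : ℝ) * ∑ p ∈ prm 0 n, 4 * (((p ^ 2 : ℕ) : ℝ) ^ (-(3 / 4) : ℝ)) := by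
          exact sum_pid_sq_le K n (fun k => 4 * ((k : ℝ) ^ (-(3 / 4) : ℝ)))
            (fun k => by positivity) (fun a b ha hab => g_anti a b ha hab)
      _ ≤ D := mul_le_mul_of_nonneg_left (sum_g_le n) (by positivity)
  -- the part of degree one
  have hA : ∑ Q ∈ (pid K n).filter (fun I => (Ideal.absNorm I).Prime),
      Real.log (Ideal.absNorm Q : ℝ) / (Ideal.absNorm Q : ℝ) ≤
      ∑ p ∈ prm 0 n, ((d1 K p).card : ℝ) * Real.log (p : ℝ) / (p : ℝ) := by
    rw [← Finset.sum_fiberwise_of_maps_to (s := (pid K n).filter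
      (fun I => (Ideal.absNorm I).Prime)) (t := prm 0 n) (g := fun Q => Ideal.absNorm Q)]
    · refine Finset.sum_le_sum fun p hp => ?_
      rw [mem_prm] at hp
      have hcongr : ∑ Q ∈ ((pid K n).filter (fun I => (Ideal.absNorm I).Prime)).filter
            (fun Q => Ideal.absNorm Q = p),
            Real.log (Ideal.absNorm Q : ℝ) / (Ideal.absNorm Q : ℝ) =
          ((((pid K n).filter (fun I => (Ideal.absNorm I).Prime)).filter
            (fun Q => Ideal.absNorm Q = p)).card : ℝ) * (Real.log (p : ℝ) / (p : ℝ)) := by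
        rw [← nsmul_eq_mul, ← Finset.sum_const]
        refine Finset.sum_congr rfl fun Q hQ => ?_
        rw [(Finset.mem_filter.mp hQ).2]
      rw [hcongr, mul_div_assoc]
      refine mul_le_mul_of_nonneg_right ?_ ?_
      · have hsub : ((pid K n).filter (fun I => (Ideal.absNorm I).Prime)).filter
            (fun Q => Ideal.absNorm Q = p) ⊆ d1 K p := by
          intro Q hQ
          rw [mem_d1 hp.1]
          exact (Finset.mem_filter.mp hQ).2
        exact_mod_cast Finset.card_le_card hsub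
      · exact div_nonneg (Real.log_natCast_nonneg p) (Nat.cast_nonneg p)
    · intro Q hQ
      rw [Finset.mem_filter, mem_pid] at hQ
      rw [mem_prm]
      exact ⟨hQ.2.pos, hQ.1.1, hQ.2⟩
  have h3 : D ≤ ε / 2 * Real.log n := by
    rw [div_le_iff₀ hε] at h2
    linarith
  nlinarith [h1, hA, hB, h3]

end Pool.Agent.Helper83.TW
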