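import Pool.Agent.Helper83.TW.ADefs

/-!
# TW-A1: the number of ideals

From `NumberField.Ideal.tendsto_norm_le_div_atTop₀` (the limit is positive: regulator, class number,
discriminant and torsion order are positive).  `idl_log`: for `δ` small, the ideals with norm in
`(δ n, n]` have `log norm >= log (δ n)` and their number is at least
`(κ - ε') n - (κ + ε') δ n`.
-/

set_option autoImplicit false

namespace Pool.Agent.Helper83.TW

open NumberField

private theorem idl_mono (K : Type) [Field K] [NumberField K] {m n : ℕ} (h : m ≤ n) :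
    idl K m ⊆ idl K n := by
  intro I hI
  rw [mem_idl] at hI ⊢
  exact ⟨hI.1.trans h, hI.2⟩

private theorem idl_card (K : Type) [Field K] [NumberField K] (n : ℕ) :
    (Nat.card {I : nonZeroDivisors (Ideal (𝓞 K)) //
      (Ideal.absNorm (I : Ideal (𝓞 K)) : ℝ) ≤ (n : ℝ)}) = (idl K n).card := by
  classical
  rw [← Nat.card_eq_finsetCard]
  refine Nat.card_congr ⟨fun I => ⟨I.1.1, ?_⟩, fun I => ⟨⟨I.1, ?_⟩, ?_⟩, ?_, ?_⟩
  · rw [mem_idl]
    exact ⟨by exact_mod_cast I.2, nonZeroDivisors.coe_ne_zero I.1⟩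
  · have h := (mem_idl.1 I.2).2
    exact mem_nonZeroDivisors_iff_ne_zero.2 h
  · have h := (mem_idl.1 I.2).1
    exact_mod_cast h
  · intro I
    rfl
  · intro I
    rfl

theorem idl_count (K : Type) [Field K] [NumberField K] :
    ∃ κ : ℝ, 0 < κ ∧ ∀ ε : ℝ, 0 < ε → ∃ n₀ : ℕ, ∀ n : ℕ, n₀ ≤ n →
      (κ - ε) * n ≤ ((idl K n).card : ℝ) ∧ ((idl K n).card : ℝ) ≤ (κ + ε) * n := by
  refine ⟨dedekindZeta_residue K, dedekindZeta_residue_pos K, fun ε hε => ?_⟩
  have h1 := (Ideal.tendsto_norm_le_div_atTop₀ K).comp tendsto_natCast_atTop_atTop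
  have h2 := (Metric.tendsto_atTop.1 h1) ε hε
  obtain ⟨N, hN⟩ := h2
  refine ⟨max N 1, fun n hn => ?_⟩
  have hn1 : 1 ≤ n := (le_max_right _ _).trans hn
  have hn0 : (0 : ℝ) < n := by exact_mod_cast hn1
  have h3 := hN n ((le_max_left _ _).trans hn)
  simp only [Function.comp_apply] at h3
  rw [idl_card K n, Real.dist_eq, abs_lt] at h3
  have h4 : ((idl K n).card : ℝ) = ((idl K n).card : ℝ) / n * n := by
    field_simp
  have h5 : dedekindZeta_residue K =
    (2 ^ InfinitePlace.nrRealPlaces K * (2 * Real.pi) ^ InfinitePlace.nrComplexPlaces K *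
      Units.regulator K * classNumber K) / (Units.torsionOrder K * Real.sqrt |discr K|) := rfl
  rw [← h5] at h3
  constructor
  · rw [h4]
    apply mul_le_mul_of_nonneg_right _ hn0.le
    linarith [h3.1]
  · rw [h4]
    apply mul_le_mul_of_nonneg_right _ hn0.le
    linarith [h3.2]

theorem idl_le (K : Type) [Field K] [NumberField K] :
    ∃ C : ℝ, 0 < C ∧ ∀ n : ℕ, ((idl K n).card : ℝ) ≤ C * n := by
  obtain ⟨κ, hκ, h⟩ := idl_count K
  obtain ⟨N, hN⟩ := h 1 one_pos
  refine ⟨κ + 1 + (idl K N).card, by positivity, fun n => ?_⟩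
  rcases Nat.eq_zero_or_pos n with rfl | hn
  · have : idl K 0 = ∅ := by
      rw [Finset.eq_empty_iff_forall_notMem]
      intro I hI
      rw [mem_idl, Nat.le_zero, Ideal.absNorm_eq_zero_iff] at hI
      exact hI.2 hI.1
    rw [this]
    simp
  · have hn0 : (1 : ℝ) ≤ n := by exact_mod_cast hn
    by_cases hc : N ≤ n
    · have h1 := (hN n hc).2
      have h2 : (0 : ℝ) ≤ (idl K N).card * (n : ℝ) := by positivity
      linarith [add_mul (κ + 1) ((idl K N).card : ℝ) (n : ℝ)]
    · have h1 : ((idl K n).card : ℝ) ≤ (idl K N).card := by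
        exact_mod_cast Finset.card_le_card (idl_mono K (not_le.1 hc).le)
      have h2 : ((idl K N).card : ℝ) * 1 ≤ (idl K N).card * (n : ℝ) :=
        mul_le_mul_of_nonneg_left hn0 (by positivity)
      have h3 : (0 : ℝ) ≤ (κ + 1) * n := by positivity
      linarith [add_mul (κ + 1) ((idl K N).card : ℝ) (n : ℝ)]

theorem idl_log (K : Type) [Field K] [NumberField K] (κ : ℝ) (hκ : 0 < κ)
    (hc : ∀ ε : ℝ, 0 < ε → ∃ n₀ : ℕ, ∀ n : ℕ, n₀ ≤ n →
      (κ - ε) * n ≤ ((idl K n).card : ℝ) ∧ ((idl K n).card : ℝ) ≤ (κ + ε) * n) :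
    ∀ ε : ℝ, 0 < ε → ∃ n₀ : ℕ, ∀ n : ℕ, n₀ ≤ n →
      (κ - ε) * n * Real.log n ≤ ∑ I ∈ idl K n, Real.log (Ideal.absNorm I : ℝ) := by
  classical
  intro ε hε
  have hpos : ∀ I : Ideal (𝓞 K), I ≠ ⊥ → (1 : ℝ) ≤ (Ideal.absNorm I : ℝ) := by
    intro I hI
    have : Ideal.absNorm I ≠ 0 := fun h => hI (Ideal.absNorm_eq_zero_iff.1 h)
    exact_mod_cast Nat.one_le_iff_ne_zero.2 this
  have hsum0 : ∀ n, 0 ≤ ∑ I ∈ idl K n, Real.log (Ideal.absNorm I : ℝ) := by
    intro n
    refine Finset.sum_nonneg (fun I hI => Real.log_nonneg (hpos I (mem_idl.1 hI).2))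
  by_cases hek : κ ≤ ε
  · refine ⟨1, fun n hn => ?_⟩
    have hn1 : (1 : ℝ) ≤ n := by exact_mod_cast hn
    refine le_trans ?_ (hsum0 n)
    have h1 : 0 ≤ (n : ℝ) * Real.log n := mul_nonneg (by linarith) (Real.log_nonneg hn1)
    have h2 : κ - ε ≤ 0 := by linarith
    rw [mul_assoc]
    exact mul_nonpos_of_nonpos_of_nonneg h2 h1
  · push Not at hek
    set e : ℝ := ε / 8 with he
    have he0 : 0 < e := by positivity
    obtain ⟨n1, hn1⟩ := hc e he0
    obtain ⟨M, hM⟩ := exists_nat_gt ((κ + e) / e)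
    have hM0 : (0 : ℝ) < M := lt_trans (by positivity) hM
    have hM1 : 1 ≤ M := by
      have : 0 < M := by exact_mod_cast hM0
      omega
    have hMe : (κ + e) / M ≤ e := by
      rw [div_le_iff₀ hM0]
      rw [div_lt_iff₀ he0] at hM
      linarith
    -- threshold for the logarithm
    obtain ⟨n2, hn2⟩ := exists_nat_gt (Real.exp (κ * Real.log M / (3 * ε / 4)))
    refine ⟨max (max n1 (M * n1)) (max n2 M), fun n hn => ?_⟩
    have ha : n1 ≤ n := (le_max_left _ _).trans ((le_max_left _ _).trans hn)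
    have hb : M * n1 ≤ n := (le_max_right _ _).trans ((le_max_left _ _).trans hn)
    have hc' : n2 ≤ n := (le_max_left _ _).trans ((le_max_right _ _).trans hn)
    have hd : M ≤ n := (le_max_right _ _).trans ((le_max_right _ _).trans hn)
    have hn0 : (0 : ℝ) < n := by
      have : 0 < n := by omega
      exact_mod_cast this
    have hlogM : 0 ≤ Real.log M := Real.log_nonneg (by exact_mod_cast hM1)
    have hlogn : κ * Real.log M / (3 * ε / 4) ≤ Real.log n := by
      rw [Real.le_log_iff_exp_le hn0]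
      exact hn2.le.trans (by exact_mod_cast hc')
    have hdiv : n1 ≤ n / M := (Nat.le_div_iff_mul_le (by omega)).2 (by rw [Nat.mul_comm]; exact hb)
    have h1 := (hn1 n ha).1
    have h2 := (hn1 (n / M) hdiv).2
    have h3 : ((n / M : ℕ) : ℝ) ≤ (n : ℝ) / M := Nat.cast_div_le
    have h4 : ((idl K (n / M)).card : ℝ) ≤ e * n := by
      calc ((idl K (n / M)).card : ℝ) ≤ (κ + e) * ((n / M : ℕ) : ℝ) := h2
        _ ≤ (κ + e) * ((n : ℝ) / M) := mul_le_mul_of_nonneg_left h3 (by positivity)
        _ = (κ + e) / M * n := by ring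
        _ ≤ e * n := mul_le_mul_of_nonneg_right hMe hn0.le
    have hsub : idl K (n / M) ⊆ idl K n := idl_mono K (Nat.div_le_self _ _)
    have hcard : ((idl K n \ idl K (n / M)).card : ℝ) =
        (idl K n).card - (idl K (n / M)).card := by
      rw [Finset.card_sdiff_of_subset hsub, Nat.cast_sub (Finset.card_le_card hsub)]
    have h5 : ((idl K n \ idl K (n / M)).card : ℝ) * (Real.log n - Real.log M) ≤
        ∑ I ∈ idl K n, Real.log (Ideal.absNorm I : ℝ) := by
      calc ((idl K n \ idl K (n / M)).card : ℝ) * (Real.log n - Real.log M)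
          = ∑ I ∈ idl K n \ idl K (n / M), (Real.log n - Real.log M) := by
            rw [Finset.sum_const, nsmul_eq_mul]
        _ ≤ ∑ I ∈ idl K n \ idl K (n / M), Real.log (Ideal.absNorm I : ℝ) := by
            refine Finset.sum_le_sum (fun I hI => ?_)
            rw [Finset.mem_sdiff, mem_idl, mem_idl] at hI
            obtain ⟨⟨hI1, hI2⟩, hI3⟩ := hI
            have hI4 : n / M < Ideal.absNorm I := by
              by_contra hcon
              exact hI3 ⟨not_lt.1 hcon, hI2⟩
            have hI5 : n < M * Ideal.absNorm I := by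
              rw [Nat.div_lt_iff_lt_mul (by omega)] at hI4
              rwa [Nat.mul_comm] at hI4
            have hI6 : (n : ℝ) ≤ M * Ideal.absNorm I := by exact_mod_cast hI5.le
            rw [← Real.log_div hn0.ne' hM0.ne']
            apply Real.log_le_log (by positivity)
            rw [div_le_iff₀ hM0, mul_comm]
            exact hI6
        _ ≤ ∑ I ∈ idl K n, Real.log (Ideal.absNorm I : ℝ) := by
            refine Finset.sum_le_sum_of_subset_of_nonneg Finset.sdiff_subset (fun I hI _ => ?_)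
            exact Real.log_nonneg (hpos I (mem_idl.1 hI).2)
    have h6 : 0 ≤ Real.log n - Real.log M := by
      have : Real.log M ≤ Real.log n := Real.log_le_log hM0 (by exact_mod_cast hd)
      linarith
    have h7 : (κ - 2 * e) * n ≤ ((idl K n \ idl K (n / M)).card : ℝ) := by
      rw [hcard]
      nlinarith
    have h8 : (κ - 2 * e) * n * (Real.log n - Real.log M) ≤
        ∑ I ∈ idl K n, Real.log (Ideal.absNorm I : ℝ) :=
      (mul_le_mul_of_nonneg_right h7 h6).trans h5
    refine le_trans ?_ h8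
    have h9 : (κ - ε) * Real.log n ≤ (κ - 2 * e) * (Real.log n - Real.log M) := by
      have h10 : κ * Real.log M ≤ (3 * ε / 4) * Real.log n := by
        rw [div_le_iff₀ (by positivity)] at hlogn
        linarith
      have h11 : (κ - 2 * e) * Real.log M ≤ κ * Real.log M :=
        mul_le_mul_of_nonneg_right (by linarith) hlogM
      have h12 : (κ - 2 * e) * (Real.log n - Real.log M) =
          (κ - ε) * Real.log n + (3 * ε / 4) * Real.log n - (κ - 2 * e) * Real.log M := by
        rw [he]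
        ring
      rw [h12]
      linarith
    calc (κ - ε) * n * Real.log n = n * ((κ - ε) * Real.log n) := by ring
      _ ≤ n * ((κ - 2 * e) * (Real.log n - Real.log M)) :=
          mul_le_mul_of_nonneg_left h9 hn0.le
      _ = (κ - 2 * e) * n * (Real.log n - Real.log M) := by ring

end Pool.Agent.Helper83.TW
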