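import Pool.Agent.Helper83.TW.ADefs

/-!
# TW-A6: degree one primes give roots

Proof.  Let `c` be the leading coefficient of `h`; `α = c θ` is an algebraic integer
(`c^(m-1) h` gives a monic equation), say the image of `a : 𝓞 K`.  As `K = Q(θ) = Q(α)` and `𝓞 K` is
a finitely generated `Z`-module, there is an integer `M ≠ 0` with `M x ∈ Z[a]` for all `x : 𝓞 K`.
Take `z₀ = |c M|`.  For `p > z₀` prime and `I` with `absNorm I = p`, the quotient `𝓞 K / I` has `p`
elements, so there is a ring isomorphism to `ZMod p` (`ZMod.ringEquivOfPrime`), hence a ring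
homomorphism `φ : 𝓞 K → ZMod p` with kernel `I`.  Let `t_I ∈ [0, p)` represent `φ(a)/c`.  As
`c^m h(y/c)` is an integer polynomial in `y` vanishing at `a`, `c^m h(t_I) ≡ 0`, so
`t_I ∈ rts h p`.  Injectivity: if `t_I = t_J` then `φ_I(a) = φ_J(a)`, so `φ_I = φ_J` on `Z[a]`, and
`M φ_I(x) = φ_I(M x) = φ_J(M x) = M φ_J(x)` gives `φ_I = φ_J` and `I = J`.
-/

set_option autoImplicit false

namespace Pool.Agent.Helper83.TW

open NumberField

private theorem exists_hom {K : Type} [Field K] [NumberField K] {p : ℕ} (hp : p.Prime)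
    {I : Ideal (𝓞 K)} (hI : Ideal.absNorm I = p) :
    ∃ φ : 𝓞 K →+* ZMod p, RingHom.ker φ = I := by
  classical
  have hfin : Finite (𝓞 K ⧸ I) := by
    rw [← Ideal.absNorm_ne_zero_iff, hI]; exact hp.ne_zero
  let _ : Fintype (𝓞 K ⧸ I) := Fintype.ofFinite _
  have hcard : Fintype.card (𝓞 K ⧸ I) = p := by
    rw [← hI, Ideal.absNorm_apply, Submodule.cardQuot_apply, Nat.card_eq_fintype_card]
  let e := ZMod.ringEquivOfPrime (𝓞 K ⧸ I) hp hcard
  refine ⟨(e.symm : (𝓞 K ⧸ I) →+* ZMod p).comp (Ideal.Quotient.mk I), ?_⟩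
  ext x
  simp [RingHom.mem_ker, Ideal.Quotient.eq_zero_iff_mem]

theorem d1_le_roots (K : Type) [Field K] [NumberField K] (h : Polynomial ℤ) (h0 : h ≠ 0) (θ : K)
    (hθ : Polynomial.aeval θ h = 0) (hgen : IntermediateField.adjoin ℚ {θ} = ⊤) :
    ∃ z₀ : ℕ, ∀ p : ℕ, p.Prime → z₀ < p → (d1 K p).card ≤ (rts h p).card := by
  classical
  set c : ℤ := h.leadingCoeff with hc
  have hc0 : c ≠ 0 := by simpa [hc] using h0
  have hint : IsIntegral ℤ (c • θ) := isIntegral_leadingCoeff_smul h θ hθ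
  obtain ⟨a, ha⟩ : ∃ a : 𝓞 K, (a : K) = c • θ := ⟨⟨c • θ, hint⟩, rfl⟩
  -- the power basis
  have hadj : IntermediateField.adjoin ℚ {(a : K)} = ⊤ := by
    rw [eq_top_iff, ← hgen, IntermediateField.adjoin_le_iff, Set.singleton_subset_iff]
    have h1 : (a : K) ∈ IntermediateField.adjoin ℚ {(a : K)} :=
      IntermediateField.mem_adjoin_simple_self ℚ _
    have h2 : ((c : ℚ)⁻¹) • (a : K) ∈ IntermediateField.adjoin ℚ {(a : K)} :=
      IntermediateField.smul_mem _ h1
    have h3 : ((c : ℚ)⁻¹) • (a : K) = θ := by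
      rw [ha, ← Int.cast_smul_eq_zsmul ℚ, smul_smul, inv_mul_cancel₀ (by exact_mod_cast hc0),
        one_smul]
    rwa [h3] at h2
  have hinta : IsIntegral ℚ (a : K) := Algebra.IsIntegral.isIntegral _
  have hadj' : Algebra.adjoin ℚ {(a : K)} = ⊤ := by
    have := IntermediateField.adjoin_simple_toSubalgebra_of_isAlgebraic (hinta.isAlgebraic)
    rw [← this, hadj]; rfl
  let B : PowerBasis ℚ K := PowerBasis.ofAdjoinEqTop hinta hadj'
  have hBgen : B.gen = (a : K) := rfl
  have hBint : IsIntegral ℤ B.gen := by rw [hBgen]; exact a.2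
  have hdint : IsIntegral ℤ (Algebra.discr ℚ B.basis) := by
    apply Algebra.discr_isIntegral
    intro i
    rw [B.basis_eq_pow]
    exact hBint.pow _
  obtain ⟨M, hM⟩ := IsIntegrallyClosed.isIntegral_iff.1 hdint
  have hM0 : M ≠ 0 := by
    rintro rfl
    have := Algebra.discr_not_zero_of_basis ℚ B.basis
    rw [← hM] at this
    simp at this
  have hmem : ∀ x : 𝓞 K, (M : 𝓞 K) * x ∈ Algebra.adjoin ℤ {a} := by
    intro x
    have h1 := Algebra.discr_mul_isIntegral_mem_adjoin (R := ℤ) (K := ℚ) (L := K) hBint (z := (x : K)) x.2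
    rw [← hM, hBgen] at h1
    have h2 : ((algebraMap ℤ ℚ) M) • (x : K) = algebraMap (𝓞 K) K ((M : 𝓞 K) * x) := by
      simp [Algebra.smul_def]
    rw [h2] at h1
    have h3 : Algebra.adjoin ℤ {(a : K)} = (Algebra.adjoin ℤ {a}).map (Algebra.ofId (𝓞 K) K |>.restrictScalars ℤ) := by
      rw [AlgHom.map_adjoin]
      simp [Algebra.ofId_apply]
    rw [h3, Subalgebra.mem_map] at h1
    obtain ⟨y, hy, hxy⟩ := h1
    have h4 : y = (M : 𝓞 K) * x := by
      apply FaithfulSMul.algebraMap_injective (𝓞 K) K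
      exact hxy
    rwa [← h4]
  refine ⟨max c.natAbs M.natAbs, fun p hp hz => ?_⟩
  have : Fact p.Prime := ⟨hp⟩
  have hcp : (c : ZMod p) ≠ 0 := by
    rw [Ne, ZMod.intCast_zmod_eq_zero_iff_dvd]
    intro hd
    have := Nat.le_of_dvd (Int.natAbs_pos.2 hc0) (Int.natCast_dvd.1 hd)
    omega
  have hMp : (M : ZMod p) ≠ 0 := by
    rw [Ne, ZMod.intCast_zmod_eq_zero_iff_dvd]
    intro hd
    have := Nat.le_of_dvd (Int.natAbs_pos.2 hM0) (Int.natCast_dvd.1 hd)
    omega
  rcases (d1 K p).eq_empty_or_nonempty with hemp | ⟨I₀, hI₀⟩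
  · rw [hemp]; simp
  have hne : Nonempty (𝓞 K →+* ZMod p) :=
    ⟨(exists_hom hp ((mem_d1 hp.pos).1 hI₀)).choose⟩
  choose! φ hφ using fun (I : Ideal (𝓞 K)) (hI : Ideal.absNorm I = p) => exists_hom hp hI
  have hroot : ∀ ψ : 𝓞 K →+* ZMod p,
      Polynomial.eval₂ (Int.castRingHom (ZMod p)) (ψ a * (c : ZMod p)⁻¹) h = 0 := by
    intro ψ
    have h1 : Polynomial.aeval (a : K) (Polynomial.scaleRoots h c) = 0 := by
      have := Polynomial.scaleRoots_aeval_eq_zero (r := c) hθ
      rwa [ha, zsmul_eq_mul]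
    have h2 : Polynomial.aeval a (Polynomial.scaleRoots h c) = 0 := by
      apply FaithfulSMul.algebraMap_injective (𝓞 K) K
      rw [map_zero, ← Polynomial.aeval_algebraMap_apply]
      exact h1
    have h3 : Polynomial.eval₂ (Int.castRingHom (ZMod p)) (ψ a) (Polynomial.scaleRoots h c) = 0 := by
      have := congrArg ψ h2
      rw [map_zero, Polynomial.aeval_def, Polynomial.hom_eval₂] at this
      rw [← this]
      congr 1
      exact RingHom.ext_int _ _
    have h4 := Polynomial.scaleRoots_eval₂_mul (p := h) (Int.castRingHom (ZMod p))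
      (ψ a * (c : ZMod p)⁻¹) c
    have h5 : (Int.castRingHom (ZMod p)) c * (ψ a * (c : ZMod p)⁻¹) = ψ a := by
      rw [eq_intCast]; field_simp
    rw [h5, h3] at h4
    rcases mul_eq_zero.1 h4.symm with h6 | h6
    · exact absurd (eq_zero_of_pow_eq_zero h6) (by simpa using hcp)
    · exact h6
  refine Finset.card_le_card_of_injOn (fun I => (φ I a * (c : ZMod p)⁻¹).val) ?_ ?_
  · intro I hI
    have hI' : Ideal.absNorm I = p := (mem_d1 hp.pos).1 hI
    simp only [Finset.mem_coe, mem_rts]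
    refine ⟨ZMod.val_lt _, ?_⟩
    rw [← ZMod.intCast_zmod_eq_zero_iff_dvd]
    have h1 := hroot (φ I)
    rw [← h1]
    have h2 : (((φ I a * (c : ZMod p)⁻¹).val : ℤ) : ZMod p) = φ I a * (c : ZMod p)⁻¹ := by
      simp
    conv_rhs => rw [← h2]
    rw [← eq_intCast (Int.castRingHom (ZMod p)), Polynomial.eval₂_at_intCast]
    simp
  · intro I hI J hJ hIJ
    have hI' : Ideal.absNorm I = p := (mem_d1 hp.pos).1 hI
    have hJ' : Ideal.absNorm J = p := (mem_d1 hp.pos).1 hJ
    have h1 : φ I a = φ J a := by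
      have := ZMod.val_injective p hIJ
      exact mul_right_cancel₀ (inv_ne_zero hcp) this
    have h2 : ∀ y ∈ Algebra.adjoin ℤ {a}, φ I y = φ J y := by
      intro y hy
      induction hy using Algebra.adjoin_induction with
      | mem x hx => rw [Set.mem_singleton_iff] at hx; rw [hx, h1]
      | algebraMap r => simp
      | add x y _ _ hx hy => rw [map_add, map_add, hx, hy]
      | mul x y _ _ hx hy => rw [map_mul, map_mul, hx, hy]
    have h3 : φ I = φ J := by
      ext x
      have h4 := h2 _ (hmem x)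
      rw [map_mul, map_mul, map_intCast, map_intCast] at h4
      exact mul_left_cancel₀ hMp h4
    rw [← hφ I hI', ← hφ J hJ', h3]

end Pool.Agent.Helper83.TW
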