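import Pool.Agent.Helper83.TW.A5
import Pool.Agent.Helper83.TW.A6
import Pool.Agent.Helper83.TW.L08

/-!
# TW-A7: the mean number of roots of an irreducible polynomial modulo primes

Proof.  Take `K = AdjoinRoot (h.map ..)` (a number field) and `θ = AdjoinRoot.root`.  The primes
`p <= max z z₀` contribute a bounded amount to the sum in `mertens_d1`
(`card (d1 K p) <= [K:Q]` or any finite bound), absorbed for large `Y`.
-/

set_option autoImplicit false

namespace Pool.Agent.Helper83.TW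

open NumberField

private theorem twa7_split (a : ℕ → ℝ) (m n : ℕ) (hmn : m ≤ n) :
    ∑ p ∈ prm 0 n, a p = ∑ p ∈ prm 0 m, a p + ∑ p ∈ prm m n, a p := by
  have hd : Disjoint (prm 0 m) (prm m n) := by
    rw [Finset.disjoint_left]
    intro p hp hq
    rw [mem_prm] at hp hq
    omega
  have hu : prm 0 n = prm 0 m ∪ prm m n := by
    ext p
    simp only [Finset.mem_union, mem_prm]
    constructor
    · rintro ⟨h1, h2, h3⟩
      by_cases h : p ≤ m
      · exact Or.inl ⟨h1, h, h3⟩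
      · exact Or.inr ⟨by omega, h2, h3⟩
    · rintro (⟨h1, h2, h3⟩ | ⟨h1, h2, h3⟩)
      · exact ⟨h1, by omega, h3⟩
      · exact ⟨h3.pos, h2, h3⟩
  rw [hu, Finset.sum_union hd]

private theorem twa7_aux (K : Type) [Field K] [NumberField K] (h : Polynomial ℤ) (h0 : h ≠ 0)
    (θ : K) (hθ : Polynomial.aeval θ h = 0) (hgen : IntermediateField.adjoin ℚ {θ} = ⊤) :
    ∀ ε : ℝ, 0 < ε → ∀ z : ℕ, ∃ Y₀ : ℕ, ∀ Y : ℕ, Y₀ ≤ Y →
      (1 - ε) * Real.log (Y : ℝ) ≤ R h z Y := by
  intro ε hε z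
  obtain ⟨z₀, hz₀⟩ := d1_le_roots K h h0 θ hθ hgen
  obtain ⟨n₀, hn₀⟩ := mertens_d1 K (ε / 2) (by positivity)
  set m : ℕ := max z z₀ with hm
  set C : ℝ := ∑ p ∈ prm 0 m, ((d1 K p).card : ℝ) * Real.log (p : ℝ) / (p : ℝ) with hC
  have hlog : Filter.Tendsto (fun n : ℕ => ε / 2 * Real.log (n : ℝ)) Filter.atTop Filter.atTop :=
    (Real.tendsto_log_atTop.comp tendsto_natCast_atTop_atTop).const_mul_atTop (by positivity)
  obtain ⟨n₁, hn₁⟩ := Filter.eventually_atTop.mp (hlog.eventually_ge_atTop C)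
  refine ⟨max n₀ (max n₁ m), fun Y hY => ?_⟩
  have hY0 : n₀ ≤ Y := le_trans (le_max_left _ _) hY
  have hY1 : n₁ ≤ Y := le_trans (le_trans (le_max_left _ _) (le_max_right _ _)) hY
  have hYm : m ≤ Y := le_trans (le_trans (le_max_right _ _) (le_max_right _ _)) hY
  have h1 := hn₀ Y hY0
  have h2 := hn₁ Y hY1
  rw [twa7_split _ m Y hYm] at h1
  have h3 : ∑ p ∈ prm m Y, ((d1 K p).card : ℝ) * Real.log (p : ℝ) / (p : ℝ) ≤ R h z Y := by
    unfold R
    calc ∑ p ∈ prm m Y, ((d1 K p).card : ℝ) * Real.log (p : ℝ) / (p : ℝ)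
        ≤ ∑ p ∈ prm m Y, ((rts h p).card : ℝ) * Real.log (p : ℝ) / (p : ℝ) := by
          refine Finset.sum_le_sum fun p hp => ?_
          rw [mem_prm] at hp
          have hc : ((d1 K p).card : ℝ) ≤ ((rts h p).card : ℝ) := by
            exact_mod_cast hz₀ p hp.2.2 (lt_of_le_of_lt (le_max_right _ _) hp.1)
          have hl : 0 ≤ Real.log (p : ℝ) := Real.log_natCast_nonneg p
          have hp0 : (0 : ℝ) ≤ (p : ℝ) := Nat.cast_nonneg p
          exact div_le_div_of_nonneg_right (mul_le_mul_of_nonneg_right hc hl) hp0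
      _ ≤ _ := by
          refine Finset.sum_le_sum_of_subset_of_nonneg ?_ ?_
          · intro p hp
            rw [mem_prm] at hp ⊢
            exact ⟨lt_of_le_of_lt (le_max_left _ _) hp.1, hp.2⟩
          · intro p _ _
            have hl : 0 ≤ Real.log (p : ℝ) := Real.log_natCast_nonneg p
            positivity
  have h4 : (1 - ε / 2) * Real.log (Y : ℝ) = (1 - ε) * Real.log (Y : ℝ) +
      ε / 2 * Real.log (Y : ℝ) := by ring
  linarith

theorem R_lower (h : Polynomial ℤ) (hirr : Irreducible (h.map (Int.castRingHom ℚ))) :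
    ∀ ε : ℝ, 0 < ε → ∀ z : ℕ, ∃ Y₀ : ℕ, ∀ Y : ℕ, Y₀ ≤ Y →
      (1 - ε) * Real.log (Y : ℝ) ≤ R h z Y := by
  have : Fact (Irreducible (h.map (Int.castRingHom ℚ))) := ⟨hirr⟩
  have hne : h.map (Int.castRingHom ℚ) ≠ 0 := hirr.ne_zero
  have h0 : h ≠ 0 := by
    rintro rfl
    simp at hne
  have : FiniteDimensional ℚ (AdjoinRoot (h.map (Int.castRingHom ℚ))) :=
    (AdjoinRoot.powerBasis hne).finite
  have : CharZero (AdjoinRoot (h.map (Int.castRingHom ℚ))) :=
    charZero_of_injective_algebraMap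
      (algebraMap ℚ (AdjoinRoot (h.map (Int.castRingHom ℚ)))).injective
  have : NumberField (AdjoinRoot (h.map (Int.castRingHom ℚ))) := NumberField.mk
  refine twa7_aux (AdjoinRoot (h.map (Int.castRingHom ℚ))) h h0
    (AdjoinRoot.root (h.map (Int.castRingHom ℚ))) ?_ ?_
  · have e1 := AdjoinRoot.eval₂_root (h.map (Int.castRingHom ℚ))
    rw [Polynomial.eval₂_map, RingHom.ext_int ((AdjoinRoot.of (h.map (Int.castRingHom ℚ))).comp
      (Int.castRingHom ℚ)) (algebraMap ℤ (AdjoinRoot (h.map (Int.castRingHom ℚ))))] at e1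
    exact e1
  · have e2 := AdjoinRoot.adjoinRoot_eq_top (f := h.map (Int.castRingHom ℚ))
    exact IntermediateField.adjoin_eq_top_of_algebra ℚ _ e2

end Pool.Agent.Helper83.TW
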