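import Mathlib

/-!
# Squarefree twists with points, lower bound of the right order: definitions

Project TW (MP_f4d5ac_nt).  For an integer polynomial `f` of degree `r` the binary form
`form f (a, b) = sum c_i a^i b^(r-i)` is studied on the box `|a|, |b| < N`.
-/

set_option autoImplicit false

namespace Pool.Agent.Helper83.TW

/-- The primes `p` with `z < p ≤ Y`. -/
def prm (z Y : ℕ) : Finset ℕ := (Finset.Ioc z Y).filter Nat.Prime

theorem mem_prm {z Y p : ℕ} : p ∈ prm z Y ↔ z < p ∧ p ≤ Y ∧ p.Prime := by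
  simp [prm, and_assoc]

/-- The roots of `h` modulo `n`, represented in `[0, n)`. -/
def rts (h : Polynomial ℤ) (n : ℕ) : Finset ℕ :=
  (Finset.range n).filter (fun t => (n : ℤ) ∣ h.eval (t : ℤ))

theorem mem_rts {h : Polynomial ℤ} {n t : ℕ} :
    t ∈ rts h n ↔ t < n ∧ (n : ℤ) ∣ h.eval (t : ℤ) := by
  simp [rts]

/-- The binary form of degree `natDegree f` attached to `f`. -/
def form (f : Polynomial ℤ) (P : ℤ × ℤ) : ℤ :=
  ∑ i ∈ Finset.range (f.natDegree + 1), f.coeff i * P.1 ^ i * P.2 ^ (f.natDegree - i)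

/-- The open box of half side `N`. -/
noncomputable def box (N : ℕ) : Finset (ℤ × ℤ) :=
  Finset.Ioo (-(N : ℤ)) N ×ˢ Finset.Ioo (-(N : ℤ)) N

theorem mem_box {N : ℕ} {P : ℤ × ℤ} : P ∈ box N ↔ |P.1| < N ∧ |P.2| < N := by
  simp [box, abs_lt]

/-- The triangular weight of a point of the box. -/
noncomputable def wt (N : ℕ) (P : ℤ × ℤ) : ℝ :=
  ((N : ℝ) - |(P.1 : ℝ)|) * ((N : ℝ) - |(P.2 : ℝ)|)

/-- The greatest common divisor of the coordinates. -/
def gc (P : ℤ × ℤ) : ℕ := Int.gcd P.1 P.2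

/-- Sum of `log p` over the primes `p` in `(z, Y]` and the roots `t` of `h` modulo `p` with
`P` in the lattice `a ≡ t b (mod p)`. -/
noncomputable def Wt (h : Polynomial ℤ) (z Y : ℕ) (P : ℤ × ℤ) : ℝ :=
  ∑ p ∈ prm z Y, ∑ t ∈ rts h p, if (p : ℤ) ∣ P.1 - (t : ℤ) * P.2 then Real.log (p : ℝ) else 0

/-- Sum of `log p` over the primes `p` in `(z, Y]` dividing `form f P`. -/
noncomputable def V (f : Polynomial ℤ) (z Y : ℕ) (P : ℤ × ℤ) : ℝ :=
  ∑ p ∈ prm z Y, if (p : ℤ) ∣ form f P then Real.log (p : ℝ) else 0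

/-- The sum over primes in `(z, Y]` of (number of roots of `h` modulo `p`) times `log p / p`. -/
noncomputable def R (h : Polynomial ℤ) (z Y : ℕ) : ℝ :=
  ∑ p ∈ prm z Y, ((rts h p).card : ℝ) * Real.log (p : ℝ) / p

/-- The squarefree part (with sign) of an integer: product of the primes with odd exponent. -/
def sfp (n : ℤ) : ℤ :=
  n.sign * ((∏ p ∈ n.natAbs.primeFactors.filter (fun p => Odd (n.natAbs.factorization p)), p : ℕ) : ℤ)

/-- The product of the primes larger than `T` dividing `n`. -/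
def rough (T : ℕ) (n : ℤ) : ℕ := ∏ p ∈ n.natAbs.primeFactors.filter (fun p => T < p), p

/-- All primes larger than `z` are good for `f`: they do not divide the leading coefficient and
all roots of `f` modulo them are simple. -/
structure Nice (f : Polynomial ℤ) (z : ℕ) : Prop where
  lead : ∀ p : ℕ, p.Prime → z < p → ¬ (p : ℤ) ∣ f.leadingCoeff
  simple : ∀ p : ℕ, p.Prime → z < p → ∀ t : ℤ, (p : ℤ) ∣ f.eval t →
    ¬ (p : ℤ) ∣ f.derivative.eval t

/-- The exceptional points of the box. -/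
noncomputable def Exc (f : Polynomial ℤ) (z G N : ℕ) : Finset (ℤ × ℤ) :=
  (box N).filter (fun P => P ≠ 0 ∧ (P.1 = 0 ∨ G < gc P ∨
    ∃ p ∈ prm z (N ^ 2), (p : ℤ) ^ 2 ∣ form f P))

/-- The regular points of the box. -/
noncomputable def Reg (f : Polynomial ℤ) (z G N : ℕ) : Finset (ℤ × ℤ) :=
  (box N).filter (fun P => P.1 ≠ 0 ∧ gc P ≤ G ∧ form f P ≠ 0 ∧
    ∀ p ∈ prm z (N ^ 2), ¬ (p : ℤ) ^ 2 ∣ form f P)

/-- Good points: regular, and the `T`-rough part of the squarefree part is at least `N^2`. -/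
noncomputable def Good (f : Polynomial ℤ) (z G N T : ℕ) : Finset (ℤ × ℤ) :=
  (Reg f z G N).filter (fun P => N ^ 2 ≤ rough T (sfp (form f P)))

/-- Bad points: regular and not good. -/
noncomputable def Bad (f : Polynomial ℤ) (z G N T : ℕ) : Finset (ℤ × ℤ) :=
  (Reg f z G N).filter (fun P => rough T (sfp (form f P)) < N ^ 2)

/-- The squarefree parts of the values of the form on the box (first coordinate nonzero). -/
noncomputable def sfs (f : Polynomial ℤ) (N : ℕ) : Finset ℤ :=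
  ((box N).filter (fun P => P.1 ≠ 0 ∧ form f P ≠ 0)).image (fun P => sfp (form f P))

theorem Reg_sub {f : Polynomial ℤ} {z G N : ℕ} : Reg f z G N ⊆ box N := Finset.filter_subset _ _

theorem gc_pos {P : ℤ × ℤ} (h : P.1 ≠ 0) : 1 ≤ gc P := Int.gcd_pos_of_ne_zero_left _ h

end Pool.Agent.Helper83.TW
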