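import Pool.Agent.Helper83.TW.T4

/-!
# TW-T6: consequences of the dichotomy (real analysis only)

Write `e = ex f ∈ (0, 1/3]` (as `natDegree f >= 5`).
`windows`: we may assume `κ <= 1`.  Given `B` large let `B1 = floor (B^(1+κ)) >= B` and apply the
dichotomy to `B1` with a small `δ`.  First alternative: `B' = B1`.  Second: `B1^(e+δ) <= B` (as
`(1+κ)(e+δ) <= 1`) and `B1^(e-δ) >= B^e` (as `(1+κ)(e-δ) > e`), so `Nf f B >= B^e` by `Nf_mono`.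
`sparse`: in the second alternative for `B`, every `B'` in `[B^(e+κ), B^(1-κ)]` has
`Nf f B' >= Nf f (floor (B^(e+δ))) >= B^(e-δ) >= B'^e` when `δ <= κ e` and `δ <= κ`.
`of_upper`: if `Nf f B <= B^(1-ε)` for large `B` the second alternative is impossible for
`δ` small (`(e+δ)(1-ε) < e-δ`) and `B` large.
-/

set_option autoImplicit false

namespace Pool.Agent.Helper83.TW

private theorem ex_pos' (f : Polynomial ℤ) : 0 < ex f := by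
  unfold ex; positivity

private theorem ex_le' (f : Polynomial ℤ) (hf : 5 ≤ f.natDegree) : ex f ≤ 1 / 3 := by
  unfold ex
  have h : 2 ≤ (f.natDegree - 1) / 2 := by omega
  have h' : (2 : ℝ) ≤ (((f.natDegree - 1) / 2 : ℕ) : ℝ) := by exact_mod_cast h
  apply one_div_le_one_div_of_le (by norm_num)
  linarith

theorem windows (f : Polynomial ℤ) (hf : 5 ≤ f.natDegree)
    (hD : ∀ δ : ℝ, 0 < δ → ∃ c : ℝ, 0 < c ∧ ∃ B₀ : ℕ, ∀ B : ℕ, B₀ ≤ B →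
      c * (B : ℝ) ^ ex f ≤ (Nf f B : ℝ) ∨
      (B : ℝ) ^ (ex f - δ) ≤ (Nf f ⌊(B : ℝ) ^ (ex f + δ)⌋₊ : ℝ)) (κ : ℝ) (hκ : 0 < κ) :
    ∃ c : ℝ, 0 < c ∧ ∃ B₀ : ℕ, ∀ B : ℕ, B₀ ≤ B → ∃ B' : ℕ, B ≤ B' ∧
      (B' : ℝ) ≤ (B : ℝ) ^ (1 + κ) ∧ c * (B' : ℝ) ^ ex f ≤ (Nf f B' : ℝ) := by
  set e := ex f with he
  have e0 : 0 < e := ex_pos' f
  have e1 : e ≤ 1 / 3 := ex_le' f hf
  set k := min κ 1 with hk
  have k0 : 0 < k := lt_min hκ one_pos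
  have k1 : k ≤ 1 := min_le_right _ _
  have kκ : k ≤ κ := min_le_left _ _
  have hke : k * e ≤ 1 / 3 := by nlinarith
  have hke0 : 0 < k * e := mul_pos k0 e0
  have hkee : k * e ≤ e := by nlinarith
  obtain ⟨c, hc, B₀, hB⟩ := hD (k * e / 2) (by positivity)
  refine ⟨min c (1 / 2), lt_min hc (by norm_num), max B₀ 1, fun B hBB => ?_⟩
  have hB1 : 1 ≤ B := le_trans (le_max_right _ _) hBB
  have hB1' : (1 : ℝ) ≤ (B : ℝ) := by exact_mod_cast hB1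
  have hBpos : (0 : ℝ) < (B : ℝ) := by linarith
  have hmonok : (B : ℝ) ^ (1 + k) ≤ (B : ℝ) ^ (1 + κ) :=
    Real.rpow_le_rpow_of_exponent_le hB1' (by linarith)
  have hBle : (B : ℝ) ≤ (B : ℝ) ^ (1 + k) := by
    calc (B : ℝ) = (B : ℝ) ^ (1 : ℝ) := (Real.rpow_one _).symm
      _ ≤ (B : ℝ) ^ (1 + k) := Real.rpow_le_rpow_of_exponent_le hB1' (by linarith)
  set B1 := ⌊(B : ℝ) ^ (1 + k)⌋₊ with hB1def
  have hBB1 : B ≤ B1 := Nat.le_floor hBle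
  have hB1le : (B1 : ℝ) ≤ (B : ℝ) ^ (1 + k) := Nat.floor_le (by positivity)
  have hB1ge : (B : ℝ) ^ (1 + k) / 2 ≤ (B1 : ℝ) := by
    have h1 : (B : ℝ) ^ (1 + k) < (B1 : ℝ) + 1 := Nat.lt_floor_add_one _
    have h2 : (1 : ℝ) ≤ (B1 : ℝ) := by exact_mod_cast le_trans hB1 hBB1
    linarith
  rcases hB B1 (le_trans (le_max_left _ _) (le_trans hBB hBB1)) with h | h
  · refine ⟨B1, hBB1, hB1le.trans hmonok, le_trans ?_ h⟩
    exact mul_le_mul_of_nonneg_right (min_le_left _ _) (by positivity)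
  · refine ⟨B, le_rfl, hBle.trans hmonok, ?_⟩
    have hfl : ⌊(B1 : ℝ) ^ (e + k * e / 2)⌋₊ ≤ B := by
      apply Nat.floor_le_of_le
      calc (B1 : ℝ) ^ (e + k * e / 2) ≤ ((B : ℝ) ^ (1 + k)) ^ (e + k * e / 2) :=
            Real.rpow_le_rpow (by positivity) hB1le (by positivity)
        _ = (B : ℝ) ^ ((1 + k) * (e + k * e / 2)) := (Real.rpow_mul hBpos.le _ _).symm
        _ ≤ (B : ℝ) ^ (1 : ℝ) := by
            apply Real.rpow_le_rpow_of_exponent_le hB1'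
            nlinarith
        _ = (B : ℝ) := Real.rpow_one _
    have hN : (Nf f ⌊(B1 : ℝ) ^ (e + k * e / 2)⌋₊ : ℝ) ≤ (Nf f B : ℝ) := by
      exact_mod_cast Nf_mono f hfl
    have hlow : (1 / 2 : ℝ) * (B : ℝ) ^ e ≤ (B1 : ℝ) ^ (e - k * e / 2) := by
      have hpos : 0 ≤ e - k * e / 2 := by linarith
      calc (1 / 2 : ℝ) * (B : ℝ) ^ e
          ≤ (1 / 2 : ℝ) ^ (e - k * e / 2) * (B : ℝ) ^ ((1 + k) * (e - k * e / 2)) := by
            apply mul_le_mul _ _ (by positivity) (by positivity)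
            · calc (1 / 2 : ℝ) = (1 / 2 : ℝ) ^ (1 : ℝ) := (Real.rpow_one _).symm
                _ ≤ (1 / 2 : ℝ) ^ (e - k * e / 2) := by
                  apply Real.rpow_le_rpow_of_exponent_ge (by norm_num) (by norm_num)
                  linarith
            · apply Real.rpow_le_rpow_of_exponent_le hB1'
              nlinarith
        _ = (1 / 2 : ℝ) ^ (e - k * e / 2) * ((B : ℝ) ^ (1 + k)) ^ (e - k * e / 2) := by
            rw [Real.rpow_mul hBpos.le]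
        _ = ((1 / 2 : ℝ) * (B : ℝ) ^ (1 + k)) ^ (e - k * e / 2) := by
            rw [Real.mul_rpow (by norm_num) (by positivity)]
        _ ≤ (B1 : ℝ) ^ (e - k * e / 2) := by
            apply Real.rpow_le_rpow (by positivity) _ hpos
            linarith
    calc min c (1 / 2) * (B : ℝ) ^ e ≤ (1 / 2 : ℝ) * (B : ℝ) ^ e :=
          mul_le_mul_of_nonneg_right (min_le_right _ _) (by positivity)
      _ ≤ (B1 : ℝ) ^ (e - k * e / 2) := hlow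
      _ ≤ (Nf f ⌊(B1 : ℝ) ^ (e + k * e / 2)⌋₊ : ℝ) := h
      _ ≤ (Nf f B : ℝ) := hN

theorem sparse (f : Polynomial ℤ) (hf : 5 ≤ f.natDegree)
    (hD : ∀ δ : ℝ, 0 < δ → ∃ c : ℝ, 0 < c ∧ ∃ B₀ : ℕ, ∀ B : ℕ, B₀ ≤ B →
      c * (B : ℝ) ^ ex f ≤ (Nf f B : ℝ) ∨
      (B : ℝ) ^ (ex f - δ) ≤ (Nf f ⌊(B : ℝ) ^ (ex f + δ)⌋₊ : ℝ)) (κ : ℝ) (hκ : 0 < κ) :
    ∃ c : ℝ, 0 < c ∧ ∃ B₀ : ℕ, ∀ B : ℕ, B₀ ≤ B →
      c * (B : ℝ) ^ ex f ≤ (Nf f B : ℝ) ∨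
      ∀ B' : ℕ, (B : ℝ) ^ (ex f + κ) ≤ B' → (B' : ℝ) ≤ (B : ℝ) ^ (1 - κ) →
        (B' : ℝ) ^ ex f ≤ (Nf f B' : ℝ) := by
  set e := ex f with he
  have e0 : 0 < e := ex_pos' f
  have e1 : e ≤ 1 / 3 := ex_le' f hf
  have hke0 : 0 < κ * e := mul_pos hκ e0
  have hke1 : κ * e ≤ κ := by nlinarith
  obtain ⟨c, hc, B₀, hB⟩ := hD (κ * e) hke0
  refine ⟨c, hc, max B₀ 1, fun B hBB => ?_⟩
  have hB1 : 1 ≤ B := le_trans (le_max_right _ _) hBB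
  have hB1' : (1 : ℝ) ≤ (B : ℝ) := by exact_mod_cast hB1
  have hBpos : (0 : ℝ) < (B : ℝ) := by linarith
  rcases hB B (le_trans (le_max_left _ _) hBB) with h | h
  · exact Or.inl h
  · refine Or.inr (fun B' h1 h2 => ?_)
    have hfl : ⌊(B : ℝ) ^ (e + κ * e)⌋₊ ≤ B' := by
      apply Nat.floor_le_of_le
      exact (Real.rpow_le_rpow_of_exponent_le hB1' (by linarith)).trans h1
    have hN : (Nf f ⌊(B : ℝ) ^ (e + κ * e)⌋₊ : ℝ) ≤ (Nf f B' : ℝ) := by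
      exact_mod_cast Nf_mono f hfl
    calc (B' : ℝ) ^ e ≤ ((B : ℝ) ^ (1 - κ)) ^ e :=
          Real.rpow_le_rpow (by positivity) h2 e0.le
      _ = (B : ℝ) ^ ((1 - κ) * e) := (Real.rpow_mul hBpos.le _ _).symm
      _ ≤ (B : ℝ) ^ (e - κ * e) :=
          Real.rpow_le_rpow_of_exponent_le hB1' (by linarith [sub_mul 1 κ e, one_mul e])
      _ ≤ (Nf f ⌊(B : ℝ) ^ (e + κ * e)⌋₊ : ℝ) := h
      _ ≤ (Nf f B' : ℝ) := hN

theorem of_upper (f : Polynomial ℤ) (hf : 5 ≤ f.natDegree)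
    (hD : ∀ δ : ℝ, 0 < δ → ∃ c : ℝ, 0 < c ∧ ∃ B₀ : ℕ, ∀ B : ℕ, B₀ ≤ B →
      c * (B : ℝ) ^ ex f ≤ (Nf f B : ℝ) ∨
      (B : ℝ) ^ (ex f - δ) ≤ (Nf f ⌊(B : ℝ) ^ (ex f + δ)⌋₊ : ℝ)) (ε : ℝ) (hε : 0 < ε)
    (hU : ∃ B₁ : ℕ, ∀ B : ℕ, B₁ ≤ B → (Nf f B : ℝ) ≤ (B : ℝ) ^ (1 - ε)) :
    ∃ c : ℝ, 0 < c ∧ ∃ B₀ : ℕ, ∀ B : ℕ, B₀ ≤ B → c * (B : ℝ) ^ ex f ≤ (Nf f B : ℝ) := by
  set e := ex f with he
  have e0 : 0 < e := ex_pos' f
  have e1 : e ≤ 1 / 3 := ex_le' f hf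
  obtain ⟨B₁, hU⟩ := hU
  set k := min ε 1 with hk
  have k0 : 0 < k := lt_min hε one_pos
  have k1 : k ≤ 1 := min_le_right _ _
  have kε : k ≤ ε := min_le_left _ _
  have hke0 : 0 < k * e := mul_pos k0 e0
  obtain ⟨c, hc, B₀, hB⟩ := hD (k * e / 2) (by positivity)
  have hev : ∀ᶠ B : ℕ in Filter.atTop, ((max B₁ 1 : ℕ) : ℝ) ≤ (B : ℝ) ^ (e + k * e / 2) := by
    have ht : Filter.Tendsto (fun B : ℕ => (B : ℝ) ^ (e + k * e / 2)) Filter.atTop Filter.atTop :=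
      (tendsto_rpow_atTop (by positivity)).comp tendsto_natCast_atTop_atTop
    exact ht.eventually_ge_atTop _
  obtain ⟨B₂, hB₂⟩ := Filter.eventually_atTop.1 hev
  refine ⟨c, hc, max B₀ (max B₂ 2), fun B hBB => ?_⟩
  have hBa : B₀ ≤ B := le_trans (le_max_left _ _) hBB
  have hBb : B₂ ≤ B := le_trans (le_trans (le_max_left _ _) (le_max_right _ _)) hBB
  have hBc : 2 ≤ B := le_trans (le_trans (le_max_right _ _) (le_max_right _ _)) hBB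
  have hBc' : (2 : ℝ) ≤ (B : ℝ) := by exact_mod_cast hBc
  have hBpos : (0 : ℝ) < (B : ℝ) := by linarith
  rcases hB B hBa with h | h
  · exact h
  · exfalso
    set M := ⌊(B : ℝ) ^ (e + k * e / 2)⌋₊ with hM
    have hMge : max B₁ 1 ≤ M := Nat.le_floor (hB₂ B hBb)
    have hM1 : (1 : ℝ) ≤ (M : ℝ) := by exact_mod_cast le_trans (le_max_right _ _) hMge
    have hMle : (M : ℝ) ≤ (B : ℝ) ^ (e + k * e / 2) := Nat.floor_le (by positivity)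
    have h2 : (Nf f M : ℝ) ≤ (M : ℝ) ^ (1 - ε) := hU M (le_trans (le_max_left _ _) hMge)
    have h3 : (B : ℝ) ^ (e - k * e / 2) ≤ (B : ℝ) ^ ((e + k * e / 2) * (1 - k)) := by
      calc (B : ℝ) ^ (e - k * e / 2) ≤ (Nf f M : ℝ) := h
        _ ≤ (M : ℝ) ^ (1 - ε) := h2
        _ ≤ (M : ℝ) ^ (1 - k) := Real.rpow_le_rpow_of_exponent_le hM1 (by linarith)
        _ ≤ ((B : ℝ) ^ (e + k * e / 2)) ^ (1 - k) :=
            Real.rpow_le_rpow (by positivity) hMle (by linarith)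
        _ = (B : ℝ) ^ ((e + k * e / 2) * (1 - k)) := (Real.rpow_mul hBpos.le _ _).symm
    have h4 := (Real.rpow_le_rpow_left_iff (by linarith : (1 : ℝ) < (B : ℝ))).1 h3
    nlinarith [mul_pos hke0 k0]

end Pool.Agent.Helper83.TW
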