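import Pool.Agent.Helper83.TW.Defs

/-!
# TW-L01: triangular weights and lattices

Proof.  `sum_wt`: the sum over `a` in `(-N, N)` of `N - |a|` is `N^2`; the sum over the box is the
product.  `lattice_wt`: put `I = [0, N) x [0, N)` (natural numbers, `N^2` points) and
`phi (u, v) = u - t v` in `ZMod q`.  The number of pairs of points of `I` with difference `(a, b)` is
`(N - |a|) (N - |b|) = wt N (a, b)`, and the pairs with the same `phi` are those whose difference
satisfies `q ∣ a - t b`.  With `n_c` = number of points of `I` with `phi = c`, the left side is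
`sum_c n_c^2 >= (sum_c n_c)^2 / q = N^4 / q` (Cauchy-Schwarz, e.g. `inner_mul_le_norm_mul_norm` or
`sq_sum_le_card_mul_sum_sq`).
-/

set_option autoImplicit false

namespace Pool.Agent.Helper83.TW

private theorem box_real {N : ℕ} {P : ℤ × ℤ} (h : P ∈ box N) :
    |(P.1 : ℝ)| < N ∧ |(P.2 : ℝ)| < N := by
  rw [mem_box] at h
  constructor
  · have := h.1
    rw [← Int.cast_abs]
    exact_mod_cast this
  · have := h.2
    rw [← Int.cast_abs]
    exact_mod_cast this

private theorem one_dim (N : ℕ) (a : ℤ) (h : |a| < N) :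
    ((((Finset.range N ×ˢ Finset.range N).filter (fun p : ℕ × ℕ => (p.1 : ℤ) - p.2 = a)).card : ℕ) : ℝ)
      = (N : ℝ) - |(a : ℝ)| := by
  rcases le_or_gt 0 a with ha | ha
  · obtain ⟨k, rfl⟩ := Int.eq_ofNat_of_zero_le ha
    have hk : k < N := by
      have h1 : |(k : ℤ)| = k := abs_of_nonneg (by positivity)
      rw [h1] at h
      exact_mod_cast h
    have hs : (Finset.range N ×ˢ Finset.range N).filter (fun p : ℕ × ℕ => (p.1 : ℤ) - p.2 = (k : ℤ))
        = (Finset.range (N - k)).image (fun v => (v + k, v)) := by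
      ext ⟨u, v⟩
      simp only [Finset.mem_filter, Finset.mem_product, Finset.mem_range, Finset.mem_image,
        Prod.mk.injEq]
      constructor
      · rintro ⟨⟨h1, h2⟩, h3⟩
        exact ⟨v, by omega, by omega, rfl⟩
      · rintro ⟨w, h1, h2, h3⟩
        subst h3
        refine ⟨⟨by omega, by omega⟩, by omega⟩
    rw [hs, Finset.card_image_of_injective _ (fun x y hxy => by simpa using hxy), Finset.card_range]
    rw [Nat.cast_sub hk.le]
    simp
  · obtain ⟨k, hk0⟩ := Int.eq_ofNat_of_zero_le (by omega : (0 : ℤ) ≤ -a)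
    have hak : a = -(k : ℤ) := by omega
    subst hak
    have hk : k < N := by
      have h1 : |(-(k : ℤ))| = k := by rw [abs_neg]; exact abs_of_nonneg (by positivity)
      rw [h1] at h
      exact_mod_cast h
    have hs : (Finset.range N ×ˢ Finset.range N).filter (fun p : ℕ × ℕ => (p.1 : ℤ) - p.2 = -(k : ℤ))
        = (Finset.range (N - k)).image (fun v => (v, v + k)) := by
      ext ⟨u, v⟩
      simp only [Finset.mem_filter, Finset.mem_product, Finset.mem_range, Finset.mem_image,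
        Prod.mk.injEq]
      constructor
      · rintro ⟨⟨h1, h2⟩, h3⟩
        exact ⟨u, by omega, rfl, by omega⟩
      · rintro ⟨w, h1, h2, h3⟩
        subst h2
        refine ⟨⟨by omega, by omega⟩, by omega⟩
    rw [hs, Finset.card_image_of_injective _ (fun x y hxy => by
      have := (Prod.mk.injEq _ _ _ _).mp hxy
      exact this.1), Finset.card_range]
    rw [Nat.cast_sub hk.le]
    simp

private def D (x : (ℕ × ℕ) × (ℕ × ℕ)) : ℤ × ℤ := ((x.1.1 : ℤ) - x.2.1, (x.1.2 : ℤ) - x.2.2)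

private def I (N : ℕ) : Finset (ℕ × ℕ) := Finset.range N ×ˢ Finset.range N

private theorem two_dim (N : ℕ) {P : ℤ × ℤ} (h : P ∈ box N) :
    ((((I N ×ˢ I N).filter (fun x => D x = P)).card : ℕ) : ℝ) = wt N P := by
  obtain ⟨a, b⟩ := P
  rw [mem_box] at h
  have hs : ((I N ×ˢ I N).filter (fun x => D x = (a, b))).card
      = (((Finset.range N ×ˢ Finset.range N).filter (fun p : ℕ × ℕ => (p.1 : ℤ) - p.2 = a)) ×ˢ
        ((Finset.range N ×ˢ Finset.range N).filter (fun p : ℕ × ℕ => (p.1 : ℤ) - p.2 = b))).card := by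
    refine Finset.card_nbij' (fun x => ((x.1.1, x.2.1), (x.1.2, x.2.2)))
      (fun y => ((y.1.1, y.2.1), (y.1.2, y.2.2))) ?_ ?_ ?_ ?_
    · rintro ⟨⟨u, v⟩, ⟨u', v'⟩⟩ hx
      simp only [Finset.coe_filter, Finset.coe_product, Set.mem_setOf_eq, Set.mem_prod,
        Finset.mem_coe, Finset.mem_filter, Finset.mem_product, I, D, Finset.mem_range,
        Prod.mk.injEq] at hx ⊢
      tauto
    · rintro ⟨⟨u, v⟩, ⟨u', v'⟩⟩ hx
      simp only [Finset.coe_filter, Finset.coe_product, Set.mem_setOf_eq, Set.mem_prod,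
        Finset.mem_coe, Finset.mem_filter, Finset.mem_product, I, D, Finset.mem_range,
        Prod.mk.injEq] at hx ⊢
      tauto
    · rintro ⟨⟨u, v⟩, ⟨u', v'⟩⟩ _
      rfl
    · rintro ⟨⟨u, v⟩, ⟨u', v'⟩⟩ _
      rfl
  rw [hs, Finset.card_product, Nat.cast_mul, one_dim N a h.1, one_dim N b h.2]
  rfl

private theorem D_mem (N : ℕ) {x : (ℕ × ℕ) × (ℕ × ℕ)} (h : x ∈ I N ×ˢ I N) : D x ∈ box N := by
  obtain ⟨⟨u, v⟩, ⟨u', v'⟩⟩ := x
  simp only [Finset.mem_product, I, Finset.mem_range] at h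
  rw [mem_box]
  simp only [D, abs_lt]
  omega

private theorem sum_filter (N : ℕ) (p : ℤ × ℤ → Prop) [DecidablePred p] :
    ∑ P ∈ (box N).filter p, wt N P = (((I N ×ˢ I N).filter (fun x => p (D x))).card : ℝ) := by
  have h1 : ((I N ×ˢ I N).filter (fun x => p (D x))).card
      = ∑ P ∈ (box N).filter p, (((I N ×ˢ I N).filter (fun x => p (D x))).filter (fun x => D x = P)).card := by
    apply Finset.card_eq_sum_card_fiberwise
    intro x hx
    have hx' := Finset.mem_filter.mp (Finset.mem_coe.mp hx)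
    exact Finset.mem_coe.mpr (Finset.mem_filter.mpr ⟨D_mem N hx'.1, hx'.2⟩)
  rw [h1, Nat.cast_sum]
  apply Finset.sum_congr rfl
  intro P hP
  have hP' := Finset.mem_filter.mp hP
  rw [← two_dim N hP'.1]
  congr 2
  ext x
  simp only [Finset.mem_filter]
  constructor
  · rintro ⟨hx, h2⟩
    exact ⟨⟨hx, h2 ▸ hP'.2⟩, h2⟩
  · rintro ⟨⟨hx, _⟩, h2⟩
    exact ⟨hx, h2⟩

theorem wt_nonneg {N : ℕ} {P : ℤ × ℤ} (h : P ∈ box N) : 0 ≤ wt N P := by
  have h1 := box_real h
  exact mul_nonneg (by linarith [h1.1]) (by linarith [h1.2])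

theorem wt_le {N : ℕ} {P : ℤ × ℤ} (h : P ∈ box N) : wt N P ≤ (N : ℝ) ^ 2 := by
  have h1 := box_real h
  have h2 := abs_nonneg (P.1 : ℝ)
  have h3 := abs_nonneg (P.2 : ℝ)
  rw [sq]
  exact mul_le_mul (by linarith) (by linarith) (by linarith [h1.2]) (by linarith [h1.1])

theorem sum_wt (N : ℕ) : ∑ P ∈ box N, wt N P = (N : ℝ) ^ 4 := by
  have h := sum_filter N (fun _ => True)
  simp only [Finset.filter_true] at h
  rw [h]
  simp only [Finset.card_product, I, Finset.card_range]
  push_cast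
  ring

theorem lattice_wt (N q : ℕ) (hq : 0 < q) (t : ℤ) :
    (N : ℝ) ^ 4 / q ≤ ∑ P ∈ (box N).filter (fun P => (q : ℤ) ∣ P.1 - t * P.2), wt N P := by
  classical
  haveI : NeZero q := ⟨hq.ne'⟩
  rw [sum_filter N (fun P => (q : ℤ) ∣ P.1 - t * P.2)]
  set phi : ℕ × ℕ → ZMod q := fun u => (u.1 : ZMod q) - (t : ZMod q) * (u.2 : ZMod q) with hphi
  have hset : (I N ×ˢ I N).filter (fun x => (q : ℤ) ∣ (D x).1 - t * (D x).2)
      = (I N ×ˢ I N).filter (fun x => phi x.1 = phi x.2) := by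
    ext ⟨⟨u, v⟩, ⟨u', v'⟩⟩
    simp only [Finset.mem_filter]
    refine and_congr_right (fun _ => ?_)
    rw [← (ZMod.intCast_zmod_eq_zero_iff_dvd _ _), hphi]
    simp only [D]
    push_cast
    rw [← sub_eq_zero (a := (u : ZMod q) - t * v)]
    constructor
    · intro h
      rw [← h]; ring
    · intro h
      rw [← h]; ring
  rw [hset]
  set n : ZMod q → ℕ := fun c => ((I N).filter (fun u => phi u = c)).card with hn
  have hsum : ((I N ×ˢ I N).filter (fun x => phi x.1 = phi x.2)).card = ∑ c : ZMod q, (n c) ^ 2 := by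
    rw [Finset.card_eq_sum_card_fiberwise (f := fun x => phi x.1) (t := (Finset.univ : Finset (ZMod q)))
      (fun x _ => Finset.mem_coe.mpr (Finset.mem_univ _))]
    apply Finset.sum_congr rfl
    intro c _
    have h2 : ((I N ×ˢ I N).filter (fun x => phi x.1 = phi x.2)).filter (fun x => phi x.1 = c)
        = ((I N).filter (fun u => phi u = c)) ×ˢ ((I N).filter (fun u => phi u = c)) := by
      ext ⟨x, y⟩
      simp only [Finset.mem_filter, Finset.mem_product]
      constructor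
      · rintro ⟨⟨⟨h1, h2⟩, h3⟩, h4⟩
        exact ⟨⟨h1, h4⟩, ⟨h2, h3 ▸ h4⟩⟩
      · rintro ⟨⟨h1, h4⟩, ⟨h2, h5⟩⟩
        exact ⟨⟨⟨h1, h2⟩, h4.trans h5.symm⟩, h4⟩
    rw [h2, Finset.card_product, sq]
  have htot : ∑ c : ZMod q, n c = N ^ 2 := by
    have h3 := Finset.card_eq_sum_card_fiberwise (s := I N) (f := phi)
      (t := (Finset.univ : Finset (ZMod q))) (fun x _ => Finset.mem_coe.mpr (Finset.mem_univ _))
    rw [← h3]
    simp [I, sq]
  have hcs := sq_sum_le_card_mul_sum_sq (s := (Finset.univ : Finset (ZMod q))) (f := fun c => (n c : ℝ))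
  have hcard : (Finset.univ : Finset (ZMod q)).card = q := by
    rw [Finset.card_univ, ZMod.card]
  rw [hcard] at hcs
  have htot' : ∑ c : ZMod q, (n c : ℝ) = (N : ℝ) ^ 2 := by
    rw [← Nat.cast_sum, htot]
    push_cast
    ring
  rw [htot'] at hcs
  rw [hsum]
  push_cast
  have hq' : (0 : ℝ) < q := by exact_mod_cast hq
  rw [div_le_iff₀ hq']
  nlinarith [hcs]

end Pool.Agent.Helper83.TW
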