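import Pool.Agent.Helper83.TW.Defs

/-!
# TW-L02: few points in a box whose determinants are all divisible by q

Proof.  Split `S` into `S1 = {|a| <= |b|}` (so `b ≠ 0`) and `S2 = {|b| < |a|}` (so `a ≠ 0`); it is
enough to show `|S1| <= 4 G (N^2/q + 1)` (and the same for `S2` by swapping coordinates).  For
`P = (a, b)` in `S1` put `phi P = floor ((a / b) * N^2 / q)` (rational or real floor).  As
`|a/b| <= 1` there are at most `2 N^2/q + 2` values of `phi`.  If `phi P = phi Q` with `Q = (c, d)`,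
then `|a/b - c/d| < q/N^2`, so `|a d - c b| < q |b d| / N^2 <= q`, and as `q` divides it,
`a d = c b`.  The points of `S1` proportional to `P` are the `k (a0, b0)` with `(a0, b0)` the
primitive vector of `P` and `1 <= |k| <= G`, so each fibre of `phi` has at most `2 G` points.
Total `2 G (2 N^2/q + 2)`.
-/

set_option autoImplicit false

namespace Pool.Agent.Helper83.TW

private theorem inj_aux {c d c' d' : ℤ} (h : c * d' = c' * d) (hd : d ≠ 0) (hd' : d' ≠ 0)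
    (hs : Int.sign d * (Int.gcd c d : ℤ) = Int.sign d' * (Int.gcd c' d' : ℤ)) :
    c = c' ∧ d = d' := by
  have hg : 0 < Int.gcd c d := Int.gcd_pos_of_ne_zero_right _ hd
  have hg' : 0 < Int.gcd c' d' := Int.gcd_pos_of_ne_zero_right _ hd'
  have habs : Int.gcd c d = Int.gcd c' d' := by
    have := congrArg Int.natAbs hs
    rw [Int.natAbs_mul, Int.natAbs_mul, Int.natAbs_sign_of_ne_zero hd,
      Int.natAbs_sign_of_ne_zero hd', one_mul, one_mul, Int.natAbs_natCast,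
      Int.natAbs_natCast] at this
    exact this
  have hsgn : Int.sign d = Int.sign d' := by
    rw [habs] at hs
    have : ((Int.gcd c' d' : ℕ) : ℤ) ≠ 0 := by
      have := hg'
      omega
    exact mul_right_cancel₀ this hs
  obtain ⟨c0, hc0⟩ : ((Int.gcd c d : ℕ) : ℤ) ∣ c := Int.gcd_dvd_left ..
  obtain ⟨d0, hd0⟩ : ((Int.gcd c d : ℕ) : ℤ) ∣ d := Int.gcd_dvd_right ..
  obtain ⟨c1, hc1⟩ : ((Int.gcd c' d' : ℕ) : ℤ) ∣ c' := Int.gcd_dvd_left ..
  obtain ⟨d1, hd1⟩ : ((Int.gcd c' d' : ℕ) : ℤ) ∣ d' := Int.gcd_dvd_right ..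
  set g : ℕ := Int.gcd c d with hgdef
  rw [← habs] at hc1 hd1
  have hgz : (g : ℤ) ≠ 0 := by omega
  have hcop : Int.gcd c0 d0 = 1 := by
    have h1 : Int.gcd (g * c0) (g * d0) = g := by
      rw [← hc0, ← hd0]
    rw [Int.gcd_mul_left] at h1
    have h2 : (g : ℤ).natAbs * Int.gcd c0 d0 = (g : ℤ).natAbs * 1 := by
      rw [h1]; simp
    exact Nat.eq_of_mul_eq_mul_left (by simpa using hg) h2
  have hcop' : Int.gcd c1 d1 = 1 := by
    have h1 : Int.gcd (g * c1) (g * d1) = g := by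
      rw [← hc1, ← hd1]; exact habs.symm
    rw [Int.gcd_mul_left] at h1
    have h2 : (g : ℤ).natAbs * Int.gcd c1 d1 = (g : ℤ).natAbs * 1 := by
      rw [h1]; simp
    exact Nat.eq_of_mul_eq_mul_left (by simpa using hg) h2
  have hprod : c0 * d1 = c1 * d0 := by
    have h1 : ((g : ℤ) * g) * (c0 * d1) = ((g : ℤ) * g) * (c1 * d0) := by
      calc ((g : ℤ) * g) * (c0 * d1) = (g * c0) * (g * d1) := by ring
        _ = (g * c1) * (g * d0) := by rw [← hc0, ← hd0, ← hc1, ← hd1]; exact h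
        _ = _ := by ring
    exact mul_left_cancel₀ (mul_ne_zero hgz hgz) h1
  have h01 : d0 ∣ d1 := by
    have : d0 ∣ c0 * d1 := by rw [hprod]; exact dvd_mul_left _ _
    exact (Int.isCoprime_iff_gcd_eq_one.mpr hcop).symm.dvd_of_dvd_mul_left this
  have h10 : d1 ∣ d0 := by
    have : d1 ∣ c1 * d0 := by rw [← hprod]; exact dvd_mul_left _ _
    exact (Int.isCoprime_iff_gcd_eq_one.mpr hcop').symm.dvd_of_dvd_mul_left this
  have hdd : d = d' := by
    have h1 : d ∣ d' := by rw [hd0, hd1]; exact mul_dvd_mul_left _ h01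
    have h2 : d' ∣ d := by rw [hd0, hd1]; exact mul_dvd_mul_left _ h10
    have h3 : d.natAbs = d'.natAbs := Nat.dvd_antisymm (Int.natAbs_dvd_natAbs.mpr h1)
      (Int.natAbs_dvd_natAbs.mpr h2)
    rw [← Int.sign_mul_natAbs d, ← Int.sign_mul_natAbs d', h3, hsgn]
  refine ⟨?_, hdd⟩
  rw [← hdd] at h
  exact mul_right_cancel₀ hd h

private theorem half_card (N q G : ℕ) (hN : 0 < N) (hq : 0 < q) (S : Finset (ℤ × ℤ))
    (hS : ∀ P ∈ S, |P.1| < (N : ℤ) ∧ |P.2| < (N : ℤ)) (hg : ∀ P ∈ S, 1 ≤ gc P ∧ gc P ≤ G)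
    (hd : ∀ P ∈ S, ∀ Q ∈ S, (q : ℤ) ∣ P.1 * Q.2 - Q.1 * P.2)
    (hle : ∀ P ∈ S, |P.1| ≤ |P.2|) :
    (S.card : ℝ) ≤ 4 * G * ((N : ℝ) ^ 2 / q + 1) := by
  have hNR : (0 : ℝ) < N := by exact_mod_cast hN
  have hqR : (0 : ℝ) < q := by exact_mod_cast hq
  set M : ℝ := (N : ℝ) ^ 2 / q with hM
  have hMpos : 0 < M := by positivity
  have hne : ∀ P ∈ S, P.2 ≠ 0 := by
    intro P hP h0
    have h1 := hle P hP
    rw [h0, abs_zero] at h1
    have h2 : P.1 = 0 := abs_eq_zero.mp (le_antisymm h1 (abs_nonneg _))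
    have h3 := (hg P hP).1
    simp [gc, h0, h2] at h3
  let φ : ℤ × ℤ → ℤ := fun P => ⌊(P.1 : ℝ) / (P.2 : ℝ) * M⌋
  let t : Finset ℤ := Finset.Icc ⌊-M⌋ ⌊M⌋
  have hmaps : ∀ P ∈ S, φ P ∈ t := by
    intro P hP
    have hb : (0 : ℝ) < |(P.2 : ℝ)| := abs_pos.mpr (by exact_mod_cast hne P hP)
    have h1 : |(P.1 : ℝ) / (P.2 : ℝ)| ≤ 1 := by
      rw [abs_div, div_le_one hb]
      exact_mod_cast hle P hP
    obtain ⟨h2, h3⟩ := abs_le.mp h1
    simp only [t, φ, Finset.mem_Icc]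
    constructor
    · apply Int.floor_le_floor
      nlinarith
    · apply Int.floor_le_floor
      nlinarith
  have hfib : ∀ b ∈ t, (S.filter fun a => φ a = b).card ≤ 2 * G := by
    intro b _
    let u : Finset ℤ := (Finset.Icc (-(G : ℤ)) G).erase 0
    have hu : u.card = 2 * G := by
      simp only [u]
      rw [Finset.card_erase_of_mem (by simp), Int.card_Icc]
      omega
    rw [← hu]
    apply Finset.card_le_card_of_injOn (fun Q => Int.sign Q.2 * (gc Q : ℤ))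
    · intro Q hQ
      rw [Finset.mem_coe, Finset.mem_filter] at hQ
      have h1 := hg Q hQ.1
      have h2 := hne Q hQ.1
      simp only [u, Finset.coe_erase, Set.mem_sdiff, Finset.mem_coe, Finset.mem_Icc,
        Set.mem_singleton_iff]
      rcases lt_or_gt_of_ne h2 with h3 | h3
      · rw [Int.sign_eq_neg_one_of_neg h3]
        omega
      · rw [Int.sign_eq_one_of_pos h3]
        omega
    · intro P hP Q hQ hPQ
      rw [Finset.mem_coe, Finset.mem_filter] at hP hQ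
      have hP2 := hne P hP.1
      have hQ2 := hne Q hQ.1
      have hdet : P.1 * Q.2 = Q.1 * P.2 := by
        have hfl : ⌊(P.1 : ℝ) / (P.2 : ℝ) * M⌋ = ⌊(Q.1 : ℝ) / (Q.2 : ℝ) * M⌋ := by
          have h1 := hP.2
          have h2 := hQ.2
          simp only [φ] at h1 h2
          rw [h1, h2]
        have hab := Int.abs_sub_lt_one_of_floor_eq_floor hfl
        have hP2R : (P.2 : ℝ) ≠ 0 := by exact_mod_cast hP2
        have hQ2R : (Q.2 : ℝ) ≠ 0 := by exact_mod_cast hQ2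
        have e1 : (P.1 : ℝ) / (P.2 : ℝ) * M - (Q.1 : ℝ) / (Q.2 : ℝ) * M
            = ((P.1 : ℝ) * Q.2 - Q.1 * P.2) / (P.2 * Q.2) * M := by
          field_simp
        rw [e1, abs_mul, abs_div, abs_of_pos hMpos] at hab
        have hbd : (0 : ℝ) < |(P.2 : ℝ) * Q.2| := abs_pos.mpr (mul_ne_zero hP2R hQ2R)
        have hbd2 : |(P.2 : ℝ) * Q.2| ≤ (N : ℝ) ^ 2 := by
          rw [abs_mul, sq]
          have h1 : |(P.2 : ℝ)| ≤ N := by exact_mod_cast (hS P hP.1).2.le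
          have h2 : |(Q.2 : ℝ)| ≤ N := by exact_mod_cast (hS Q hQ.1).2.le
          exact mul_le_mul h1 h2 (abs_nonneg _) hNR.le
        have hlt : |(P.1 : ℝ) * Q.2 - Q.1 * P.2| < q := by
          have h1 : |(P.1 : ℝ) * Q.2 - Q.1 * P.2| * M < |(P.2 : ℝ) * Q.2| := by
            rw [div_mul_eq_mul_div, div_lt_one hbd] at hab
            exact hab
          have h2 : |(P.1 : ℝ) * Q.2 - Q.1 * P.2| * M < (N : ℝ) ^ 2 := lt_of_lt_of_le h1 hbd2
          have h3 : (N : ℝ) ^ 2 = q * M := by rw [hM]; field_simp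
          rw [h3] at h2
          exact lt_of_mul_lt_mul_right h2 hMpos.le
        have hltZ : |P.1 * Q.2 - Q.1 * P.2| < (q : ℤ) := by
          exact_mod_cast hlt
        have h0 := Int.eq_zero_of_abs_lt_dvd (hd P hP.1 Q hQ.1) hltZ
        linarith
      obtain ⟨h1, h2⟩ := inj_aux hdet hP2 hQ2 hPQ
      exact Prod.ext h1 h2
  have hcard := Finset.card_le_mul_card_image_of_maps_to hmaps (2 * G) hfib
  have ht : (t.card : ℝ) ≤ 2 * M + 2 := by
    have h1 : t.card = (⌊M⌋ + 1 - ⌊-M⌋).toNat := Int.card_Icc _ _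
    have h2 : (0 : ℤ) ≤ ⌊M⌋ + 1 - ⌊-M⌋ := by
      have h3 : (0 : ℤ) ≤ ⌊M⌋ := Int.floor_nonneg.mpr hMpos.le
      have h4 : ⌊-M⌋ ≤ 0 := by
        have : (⌊-M⌋ : ℝ) ≤ -M := Int.floor_le _
        have h5 : (⌊-M⌋ : ℝ) ≤ 0 := by linarith
        exact_mod_cast h5
      omega
    have h3 : (t.card : ℝ) = ((⌊M⌋ + 1 - ⌊-M⌋ : ℤ) : ℝ) := by
      rw [h1]
      have : (((⌊M⌋ + 1 - ⌊-M⌋).toNat : ℤ) : ℝ) = ((⌊M⌋ + 1 - ⌊-M⌋ : ℤ) : ℝ) := by
        rw [Int.toNat_of_nonneg h2]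
      exact_mod_cast this
    rw [h3]
    push_cast
    have h4 : (⌊M⌋ : ℝ) ≤ M := Int.floor_le _
    have h5 : -M < ⌊-M⌋ + 1 := Int.lt_floor_add_one _
    linarith
  have h6 : (S.card : ℝ) ≤ (2 * G : ℝ) * t.card := by exact_mod_cast hcard
  have hG : (0 : ℝ) ≤ 2 * G := by positivity
  nlinarith [mul_le_mul_of_nonneg_left ht hG]

theorem card_le_of_det (N q G : ℕ) (hN : 0 < N) (hq : 0 < q) (S : Finset (ℤ × ℤ))
    (hS : S ⊆ box N) (hg : ∀ P ∈ S, 1 ≤ gc P ∧ gc P ≤ G)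
    (hd : ∀ P ∈ S, ∀ Q ∈ S, (q : ℤ) ∣ P.1 * Q.2 - Q.1 * P.2) :
    (S.card : ℝ) ≤ 8 * G * ((N : ℝ) ^ 2 / q + 1) := by
  classical
  let S1 : Finset (ℤ × ℤ) := S.filter (fun P => |P.1| ≤ |P.2|)
  let S2 : Finset (ℤ × ℤ) := (S.filter (fun P => ¬ |P.1| ≤ |P.2|)).image Prod.swap
  have hc : S.card = S1.card + S2.card := by
    have h1 : S2.card = (S.filter (fun P => ¬ |P.1| ≤ |P.2|)).card :=
      Finset.card_image_of_injective _ Prod.swap_injective
    rw [h1]
    exact (Finset.card_filter_add_card_filter_not (s := S) (fun P => |P.1| ≤ |P.2|)).symm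
  have hb : ∀ P ∈ S, |P.1| < (N : ℤ) ∧ |P.2| < (N : ℤ) := fun P hP => mem_box.mp (hS hP)
  have H1 : (S1.card : ℝ) ≤ 4 * G * ((N : ℝ) ^ 2 / q + 1) := by
    apply half_card N q G hN hq
    · intro P hP
      exact hb P (Finset.mem_filter.mp hP).1
    · intro P hP
      exact hg P (Finset.mem_filter.mp hP).1
    · intro P hP Q hQ
      exact hd P (Finset.mem_filter.mp hP).1 Q (Finset.mem_filter.mp hQ).1
    · intro P hP
      exact (Finset.mem_filter.mp hP).2
  have H2 : (S2.card : ℝ) ≤ 4 * G * ((N : ℝ) ^ 2 / q + 1) := by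
    have hmem : ∀ P ∈ S2, (P.2, P.1) ∈ S ∧ |P.1| < |P.2| := by
      intro P hP
      obtain ⟨Q, hQ, hQP⟩ := Finset.mem_image.mp hP
      rw [Finset.mem_filter] at hQ
      rw [← hQP]
      exact ⟨hQ.1, not_le.mp hQ.2⟩
    apply half_card N q G hN hq
    · intro P hP
      have := hb _ (hmem P hP).1
      exact ⟨this.2, this.1⟩
    · intro P hP
      have := hg _ (hmem P hP).1
      simp only [gc] at this ⊢
      rw [Int.gcd_comm] at this
      exact this
    · intro P hP Q hQ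
      have := hd _ (hmem P hP).1 _ (hmem Q hQ).1
      simp only at this
      have h2 : P.1 * Q.2 - Q.1 * P.2 = -(P.2 * Q.1 - Q.2 * P.1) := by ring
      rw [h2]
      exact (dvd_neg).mpr this
    · intro P hP
      exact (hmem P hP).2.le
  rw [hc]
  push_cast
  linarith

end Pool.Agent.Helper83.TW
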