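import Pool.Agent.Helper83.TW.Defs

/-!
# TW-L03: algebra of the binary form

`form_congr`: if `n ∣ a - t b` then `a ≡ t b (mod n)`, so `form f (a, b) ≡ b^r f(t)`.
`form_rat`: over the rationals `form f (a, b) = b^r f(a/b)` for `b ≠ 0`.
`form_mul`: multiplicativity (for nonzero polynomials; check it for `b ≠ 0` with `form_rat` and for
`b = 0` with leading coefficients).
`form_abs_le`: with `C = sum |c_i|`, on the box `|form f P| <= C N^r`.
-/

set_option autoImplicit false

namespace Pool.Agent.Helper83.TW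

theorem form_congr (f : Polynomial ℤ) (n t : ℤ) (P : ℤ × ℤ) (h : n ∣ P.1 - t * P.2) :
    n ∣ form f P - P.2 ^ f.natDegree * f.eval t := by
  have he : form f P - P.2 ^ f.natDegree * f.eval t =
      ∑ i ∈ Finset.range (f.natDegree + 1),
        (f.coeff i * P.2 ^ (f.natDegree - i)) * (P.1 ^ i - (t * P.2) ^ i) := by
    rw [form, Polynomial.eval_eq_sum_range, Finset.mul_sum, ← Finset.sum_sub_distrib]
    refine Finset.sum_congr rfl fun i hi => ?_
    have hi' : i ≤ f.natDegree := Nat.lt_succ_iff.1 (Finset.mem_range.1 hi)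
    have hp : P.2 ^ f.natDegree = P.2 ^ (f.natDegree - i) * P.2 ^ i := by
      rw [← pow_add]
      congr 1
      omega
    rw [hp, mul_pow]
    ring
  rw [he]
  exact Finset.dvd_sum fun i _ => Dvd.dvd.mul_left (h.trans (sub_dvd_pow_sub_pow _ _ i)) _

theorem form_rat (f : Polynomial ℤ) (P : ℤ × ℤ) (h : P.2 ≠ 0) :
    (form f P : ℚ) = (P.2 : ℚ) ^ f.natDegree *
      (f.map (Int.castRingHom ℚ)).eval ((P.1 : ℚ) / (P.2 : ℚ)) := by
  have h' : (P.2 : ℚ) ≠ 0 := by exact_mod_cast h
  rw [Polynomial.eval_map, Polynomial.eval₂_eq_sum_range, form, Finset.mul_sum]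
  push_cast
  refine Finset.sum_congr rfl fun i hi => ?_
  have hi' : i ≤ f.natDegree := Nat.lt_succ_iff.1 (Finset.mem_range.1 hi)
  have hp : (P.2 : ℚ) ^ f.natDegree = (P.2 : ℚ) ^ (f.natDegree - i) * (P.2 : ℚ) ^ i := by
    rw [← pow_add]
    congr 1
    omega
  rw [hp, div_pow]
  simp only [eq_intCast]
  field_simp

theorem form_snd_zero (f : Polynomial ℤ) (a : ℤ) :
    form f (a, 0) = f.leadingCoeff * a ^ f.natDegree := by
  rw [form, Finset.sum_range_succ, Finset.sum_eq_zero]
  · simp
  · intro i hi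
    have hi' : i < f.natDegree := Finset.mem_range.1 hi
    have : f.natDegree - i ≠ 0 := by omega
    simp [this]

theorem form_zero (f : Polynomial ℤ) (hf : 1 ≤ f.natDegree) : form f 0 = 0 := by
  have h := form_snd_zero f 0
  rw [zero_pow (by omega), mul_zero] at h
  exact h

theorem form_one (P : ℤ × ℤ) : form 1 P = 1 := by
  simp [form]

theorem form_mul (h k : Polynomial ℤ) (hh : h ≠ 0) (hk : k ≠ 0) (P : ℤ × ℤ) :
    form (h * k) P = form h P * form k P := by
  obtain ⟨a, b⟩ := P
  by_cases hb : b = 0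
  · subst hb
    rw [form_snd_zero, form_snd_zero, form_snd_zero, Polynomial.leadingCoeff_mul,
      Polynomial.natDegree_mul hh hk, pow_add]
    ring
  · have e1 := form_rat (h * k) (a, b) hb
    have e2 := form_rat h (a, b) hb
    have e3 := form_rat k (a, b) hb
    have : (form (h * k) (a, b) : ℚ) = ((form h (a, b) * form k (a, b) : ℤ) : ℚ) := by
      push_cast
      rw [e1, e2, e3, Polynomial.natDegree_mul hh hk, Polynomial.map_mul, Polynomial.eval_mul,
        pow_add]
      ring
    exact_mod_cast this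

theorem form_abs_le (f : Polynomial ℤ) :
    ∃ C : ℕ, 0 < C ∧ ∀ (N : ℕ) (P : ℤ × ℤ), P ∈ box N → |form f P| ≤ C * (N : ℤ) ^ f.natDegree := by
  refine ⟨(∑ i ∈ Finset.range (f.natDegree + 1), (f.coeff i).natAbs) + 1, Nat.succ_pos _, ?_⟩
  intro N P hP
  obtain ⟨h1, h2⟩ := mem_box.1 hP
  have hN : (0 : ℤ) ≤ N := by positivity
  have hb : |form f P| ≤ (∑ i ∈ Finset.range (f.natDegree + 1), |f.coeff i|) *
      (N : ℤ) ^ f.natDegree := by
    rw [form, Finset.sum_mul]
    refine (Finset.abs_sum_le_sum_abs _ _).trans (Finset.sum_le_sum fun i hi => ?_)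
    have hi' : i ≤ f.natDegree := Nat.lt_succ_iff.1 (Finset.mem_range.1 hi)
    have hp : (N : ℤ) ^ f.natDegree = (N : ℤ) ^ i * (N : ℤ) ^ (f.natDegree - i) := by
      rw [← pow_add]
      congr 1
      omega
    rw [abs_mul, abs_mul, abs_pow, abs_pow, hp, ← mul_assoc]
    gcongr
  refine hb.trans ?_
  have hp0 : (0 : ℤ) ≤ (N : ℤ) ^ f.natDegree := pow_nonneg hN _
  refine mul_le_mul_of_nonneg_right ?_ hp0
  push_cast
  linarith

/-- a form whose polynomial has no rational root and a nonzero leading coefficient has no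
nontrivial zero. -/
theorem form_ne_zero (h : Polynomial ℤ) (h0 : h ≠ 0)
    (hr : ∀ x : ℚ, (h.map (Int.castRingHom ℚ)).eval x ≠ 0) (P : ℤ × ℤ) (hP : P ≠ 0) :
    form h P ≠ 0 := by
  obtain ⟨a, b⟩ := P
  by_cases hb : b = 0
  · subst hb
    rw [form_snd_zero]
    have ha : a ≠ 0 := by
      rintro rfl
      exact hP rfl
    exact mul_ne_zero (Polynomial.leadingCoeff_ne_zero.2 h0) (pow_ne_zero _ ha)
  · intro hz
    have e := form_rat h (a, b) hb
    rw [hz, Int.cast_zero] at e
    have hb' : ((b : ℤ) : ℚ) ≠ 0 := by exact_mod_cast hb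
    exact mul_ne_zero (pow_ne_zero _ hb') (hr _) e.symm

/-- number of zeros of the form on the box -/
theorem card_zero (f : Polynomial ℤ) (hf : 1 ≤ f.natDegree) (N : ℕ) :
    ((box N).filter (fun P => form f P = 0)).card ≤ 2 * f.natDegree * N := by
  classical
  have hf0 : f ≠ 0 := by
    rintro rfl
    simp at hf
  set s := (box N).filter (fun P => form f P = 0) with hs
  have hinj : Function.Injective (Int.castRingHom ℚ) := Int.cast_injective
  have hfib : ∀ b ∈ s.image Prod.snd, (s.filter (fun P => P.2 = b)).card ≤ f.natDegree := by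
    intro b _
    by_cases hb : b = 0
    · refine le_trans (Finset.card_le_card (t := {((0 : ℤ), (0 : ℤ))}) ?_) ?_
      · intro P hP
        obtain ⟨hP1, hP2⟩ := Finset.mem_filter.1 hP
        obtain ⟨_, hP3⟩ := Finset.mem_filter.1 hP1
        obtain ⟨a, b'⟩ := P
        simp only at hP2
        subst hP2
        subst hb
        rw [form_snd_zero] at hP3
        have ha : a = 0 := by
          rcases mul_eq_zero.1 hP3 with h | h
          · exact absurd h (Polynomial.leadingCoeff_ne_zero.2 hf0)
          · exact pow_eq_zero_iff (by omega) |>.1 h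
        simp [ha]
      · simpa using hf
    · have hb' : ((b : ℤ) : ℚ) ≠ 0 := by exact_mod_cast hb
      have hm0 : f.map (Int.castRingHom ℚ) ≠ 0 := (Polynomial.map_ne_zero_iff hinj).2 hf0
      have hle : (s.filter (fun P => P.2 = b)).card ≤
          ((f.map (Int.castRingHom ℚ)).roots.toFinset).card := by
        refine Finset.card_le_card_of_injOn (fun P => (P.1 : ℚ) / (b : ℚ)) ?_ ?_
        · intro P hP
          obtain ⟨hP1, hP2⟩ := Finset.mem_filter.1 (Finset.mem_coe.1 hP)
          obtain ⟨_, hP3⟩ := Finset.mem_filter.1 hP1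
          have e := form_rat f P (by rw [hP2]; exact hb)
          rw [hP3, Int.cast_zero, hP2] at e
          have e' : (f.map (Int.castRingHom ℚ)).eval ((P.1 : ℚ) / (b : ℚ)) = 0 := by
            rcases mul_eq_zero.1 e.symm with h | h
            · exact absurd h (pow_ne_zero _ hb')
            · exact h
          simp only [Finset.mem_coe, Multiset.mem_toFinset]
          exact (Polynomial.mem_roots hm0).2 e'
        · intro P hP Q hQ hPQ
          obtain ⟨_, hP2⟩ := Finset.mem_filter.1 (Finset.mem_coe.1 hP)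
          obtain ⟨_, hQ2⟩ := Finset.mem_filter.1 (Finset.mem_coe.1 hQ)
          simp only at hPQ
          have h1 : (P.1 : ℚ) = (Q.1 : ℚ) := by
            rw [div_eq_div_iff hb' hb'] at hPQ
            exact mul_right_cancel₀ hb' hPQ
          exact Prod.ext (by exact_mod_cast h1) (hP2.trans hQ2.symm)
      refine hle.trans ((Multiset.toFinset_card_le _).trans ((Polynomial.card_roots' _).trans ?_))
      exact Polynomial.natDegree_map_le
  have h1 := Finset.card_le_mul_card_image s f.natDegree hfib
  have h2 : (s.image Prod.snd).card ≤ 2 * N := by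
    refine (Finset.card_le_card (t := Finset.Ioo (-(N : ℤ)) N) ?_).trans ?_
    · intro b hb
      obtain ⟨P, hP, rfl⟩ := Finset.mem_image.1 hb
      have hP1 := (Finset.mem_filter.1 hP).1
      rw [box, Finset.mem_product] at hP1
      exact hP1.2
    · rw [Int.card_Ioo]
      omega
  calc s.card ≤ f.natDegree * (s.image Prod.snd).card := h1
    _ ≤ f.natDegree * (2 * N) := Nat.mul_le_mul_left _ h2
    _ = 2 * f.natDegree * N := by ring

end Pool.Agent.Helper83.TW
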