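import Pool.Agent.Helper83.TW.L03

/-!
# TW-L04: roots modulo good primes

`exists_nice`: from separability over the rationals there are integer polynomials `u`, `v` and a
nonzero integer `m` with `u f + v f' = m` (clear denominators); take `z0 = |m| + |leading coeff|`.
`card_rts_le`: reduce modulo `p`; a nonzero polynomial of degree at most `r` over a field has at most
`r` roots (`Polynomial.card_roots'`).
`point_root`: for `p > z` prime not dividing both coordinates, `p ∣ form f P` implies `p` does not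
divide `P.2` (else `p ∣ lc * a^r`, so `p ∣ a`) and `a ≡ t b` for a root `t` modulo `p`.
-/

set_option autoImplicit false

namespace Pool.Agent.Helper83.TW

theorem exists_nice (f : Polynomial ℤ) (hf : (f.map (Int.castRingHom ℚ)).Separable) :
    ∃ z₀ : ℕ, ∀ z : ℕ, z₀ ≤ z → Nice f z := by
  obtain ⟨u, v, huv⟩ := hf
  obtain ⟨b, hb, hu⟩ := IsLocalization.integerNormalization_spec (nonZeroDivisors ℤ) u
  obtain ⟨c, hc, hv⟩ := IsLocalization.integerNormalization_spec (nonZeroDivisors ℤ) v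
  have hb0 : b ≠ 0 := nonZeroDivisors.ne_zero hb
  have hc0 : c ≠ 0 := nonZeroDivisors.ne_zero hc
  set u' : Polynomial ℤ := IsLocalization.integerNormalization (nonZeroDivisors ℤ) u with hu'
  set v' : Polynomial ℤ := IsLocalization.integerNormalization (nonZeroDivisors ℤ) v with hv'
  have halg : algebraMap ℤ ℚ = Int.castRingHom ℚ := rfl
  rw [halg] at hu hv
  have key : Polynomial.C c * u' * f + Polynomial.C b * v' * f.derivative = Polynomial.C (b * c) := by
    apply Polynomial.map_injective (Int.castRingHom ℚ) Int.cast_injective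
    rw [Polynomial.map_add, Polynomial.map_mul, Polynomial.map_mul, Polynomial.map_mul,
      Polynomial.map_mul, Polynomial.map_C, Polynomial.map_C, Polynomial.map_C, hu, hv]
    have e1 : (b • u : Polynomial ℚ) = Polynomial.C ((b : ℤ) : ℚ) * u := by
      rw [← Polynomial.smul_eq_C_mul, Int.cast_smul_eq_zsmul]
    have e2 : (c • v : Polynomial ℚ) = Polynomial.C ((c : ℤ) : ℚ) * v := by
      rw [← Polynomial.smul_eq_C_mul, Int.cast_smul_eq_zsmul]
    rw [e1, e2]
    have hder : f.derivative.map (Int.castRingHom ℚ) =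
        (f.map (Int.castRingHom ℚ)).derivative := (Polynomial.derivative_map _ _).symm
    rw [hder]
    have : Polynomial.C ((Int.castRingHom ℚ) c) * (Polynomial.C ((b : ℤ) : ℚ) * u) *
          f.map (Int.castRingHom ℚ) +
        Polynomial.C ((Int.castRingHom ℚ) b) * (Polynomial.C ((c : ℤ) : ℚ) * v) *
          (f.map (Int.castRingHom ℚ)).derivative =
        Polynomial.C ((b : ℤ) : ℚ) * Polynomial.C ((c : ℤ) : ℚ) *
          (u * f.map (Int.castRingHom ℚ) + v * (f.map (Int.castRingHom ℚ)).derivative) := by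
      simp only [eq_intCast]
      ring
    rw [this, huv]
    simp
  have hf0 : f ≠ 0 := by
    rintro rfl
    simp at huv
  have hlc : f.leadingCoeff ≠ 0 := Polynomial.leadingCoeff_ne_zero.mpr hf0
  refine ⟨(b * c).natAbs + f.leadingCoeff.natAbs, fun z hz => ⟨?_, ?_⟩⟩
  · intro p _ hzp hd
    have h1 : p ≤ f.leadingCoeff.natAbs :=
      Nat.le_of_dvd (Int.natAbs_pos.mpr hlc) (Int.natCast_dvd.mp hd)
    omega
  · intro p _ hzp t h1 h2
    have h3 : (p : ℤ) ∣ b * c := by
      have := congrArg (Polynomial.eval t) key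
      simp only [Polynomial.eval_add, Polynomial.eval_mul, Polynomial.eval_C] at this
      rw [← this]
      exact dvd_add (Dvd.dvd.mul_left h1 _) (Dvd.dvd.mul_left h2 _)
    have h4 : p ≤ (b * c).natAbs :=
      Nat.le_of_dvd (Int.natAbs_pos.mpr (mul_ne_zero hb0 hc0)) (Int.natCast_dvd.mp h3)
    omega

theorem card_rts_le (h : Polynomial ℤ) (p : ℕ) (hp : p.Prime)
    (hl : ¬ (p : ℤ) ∣ h.leadingCoeff) : (rts h p).card ≤ h.natDegree := by
  haveI : Fact p.Prime := ⟨hp⟩
  set g : Polynomial (ZMod p) := h.map (Int.castRingHom (ZMod p)) with hg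
  have hl' : (Int.castRingHom (ZMod p)) h.leadingCoeff ≠ 0 := by
    simpa [ZMod.intCast_zmod_eq_zero_iff_dvd] using hl
  have hg0 : g ≠ 0 := by
    intro h0
    have := Polynomial.coeff_map (Int.castRingHom (ZMod p)) (p := h) h.natDegree
    rw [← hg, h0] at this
    exact hl' (by rw [Polynomial.leadingCoeff]; simpa using this.symm)
  have hinj : Set.InjOn (fun t : ℕ => (t : ZMod p)) (rts h p) := by
    intro a ha b hb hab
    have ha' := (mem_rts.mp (Finset.mem_coe.mp ha)).1
    have hb' := (mem_rts.mp (Finset.mem_coe.mp hb)).1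
    have := (ZMod.natCast_eq_natCast_iff' a b p).mp hab
    rwa [Nat.mod_eq_of_lt ha', Nat.mod_eq_of_lt hb'] at this
  have hsub : (rts h p).image (fun t : ℕ => (t : ZMod p)) ⊆ g.roots.toFinset := by
    intro x hx
    obtain ⟨t, ht, rfl⟩ := Finset.mem_image.mp hx
    have ht' := (mem_rts.mp ht).2
    rw [Multiset.mem_toFinset, Polynomial.mem_roots hg0, Polynomial.IsRoot.def, hg]
    have h1 : ((t : ZMod p)) = (Int.castRingHom (ZMod p)) (t : ℤ) := by simp
    rw [h1, Polynomial.eval_map, Polynomial.eval₂_hom]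
    have := (ZMod.intCast_zmod_eq_zero_iff_dvd (h.eval (t : ℤ)) p).mpr ht'
    simpa using this
  calc (rts h p).card = ((rts h p).image (fun t : ℕ => (t : ZMod p))).card :=
        (Finset.card_image_of_injOn hinj).symm
    _ ≤ g.roots.toFinset.card := Finset.card_le_card hsub
    _ ≤ Multiset.card g.roots := Multiset.toFinset_card_le _
    _ ≤ g.natDegree := Polynomial.card_roots' g
    _ ≤ h.natDegree := Polynomial.natDegree_map_le

theorem lead_of_dvd {f h : Polynomial ℤ} {z : ℕ} (hN : Nice f z) (hd : h ∣ f) :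
    ∀ p : ℕ, p.Prime → z < p → ¬ (p : ℤ) ∣ h.leadingCoeff := by
  intro p hp hz hl
  obtain ⟨k, rfl⟩ := hd
  apply hN.lead p hp hz
  rw [Polynomial.leadingCoeff_mul]
  exact Dvd.dvd.mul_right hl _

/-- small nonzero gcd: a prime larger than the gcd does not divide both coordinates -/
theorem not_dvd_both {P : ℤ × ℤ} {G p : ℕ} (h1 : 1 ≤ gc P) (h2 : gc P ≤ G) (hp : G < p) :
    ¬ ((p : ℤ) ∣ P.1 ∧ (p : ℤ) ∣ P.2) := by
  rintro ⟨ha, hb⟩
  have h3 : p ∣ gc P := by
    unfold gc
    exact Int.natCast_dvd_natCast.mp (Int.dvd_coe_gcd ha hb)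
  have := Nat.le_of_dvd h1 h3
  omega

theorem point_root {f : Polynomial ℤ} {z p : ℕ} (hN : Nice f z) (hp : p.Prime) (hz : z < p)
    {P : ℤ × ℤ} (hP : ¬ ((p : ℤ) ∣ P.1 ∧ (p : ℤ) ∣ P.2)) (hd : (p : ℤ) ∣ form f P) :
    ¬ (p : ℤ) ∣ P.2 ∧ ∃ t ∈ rts f p, (p : ℤ) ∣ P.1 - (t : ℤ) * P.2 := by
  have hpi : Prime (p : ℤ) := Nat.prime_iff_prime_int.mp hp
  have hb : ¬ (p : ℤ) ∣ P.2 := by
    intro hb
    have h1 : (p : ℤ) ∣ form f P - f.leadingCoeff * P.1 ^ f.natDegree := by
      unfold form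
      rw [Finset.sum_range_succ, Nat.sub_self, pow_zero, mul_one]
      rw [Polynomial.leadingCoeff, add_sub_cancel_right]
      apply Finset.dvd_sum
      intro i hi
      have hi' := Finset.mem_range.mp hi
      exact Dvd.dvd.mul_left (dvd_pow hb (by omega)) _
    have h2 : (p : ℤ) ∣ f.leadingCoeff * P.1 ^ f.natDegree := by
      have := dvd_sub hd h1
      simpa using this
    rcases hpi.dvd_or_dvd h2 with h3 | h3
    · exact hN.lead p hp hz h3
    · exact hP ⟨hpi.dvd_of_dvd_pow h3, hb⟩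
  refine ⟨hb, ?_⟩
  haveI : Fact p.Prime := ⟨hp⟩
  have hp0 : (0 : ℤ) < p := by exact_mod_cast hp.pos
  have hbz : ((P.2 : ℤ) : ZMod p) ≠ 0 := by
    rw [Ne, ZMod.intCast_zmod_eq_zero_iff_dvd]; exact hb
  set t : ℕ := (((P.1 : ℤ) : ZMod p) * (((P.2 : ℤ) : ZMod p))⁻¹).val with ht
  have htc : ((t : ℕ) : ZMod p) = ((P.1 : ℤ) : ZMod p) * (((P.2 : ℤ) : ZMod p))⁻¹ := by
    rw [ht, ZMod.natCast_zmod_val]
  have h1 : (p : ℤ) ∣ P.1 - (t : ℤ) * P.2 := by
    rw [← ZMod.intCast_zmod_eq_zero_iff_dvd]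
    push_cast
    rw [htc, mul_assoc, inv_mul_cancel₀ hbz, mul_one, sub_self]
  refine ⟨t, mem_rts.mpr ⟨ZMod.val_lt _, ?_⟩, h1⟩
  have h2 := form_congr f (p : ℤ) (t : ℤ) P h1
  have h3 : (p : ℤ) ∣ P.2 ^ f.natDegree * f.eval (t : ℤ) := by
    have := dvd_sub hd h2
    simpa using this
  rcases hpi.dvd_or_dvd h3 with h4 | h4
  · exact absurd (hpi.dvd_of_dvd_pow h4) hb
  · exact h4

/-- two points in the same root class modulo n have determinant divisible by n -/
theorem det_of_root {n t : ℤ} {P Q : ℤ × ℤ} (hP : n ∣ P.1 - t * P.2) (hQ : n ∣ Q.1 - t * Q.2) :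
    n ∣ P.1 * Q.2 - Q.1 * P.2 := by
  have : P.1 * Q.2 - Q.1 * P.2 = (P.1 - t * P.2) * Q.2 - (Q.1 - t * Q.2) * P.2 := by ring
  rw [this]
  exact dvd_sub (Dvd.dvd.mul_right hP _) (Dvd.dvd.mul_right hQ _)

/-- a point in the class of the root t has `p ∣ form f P` -/
theorem dvd_form_of_root {f : Polynomial ℤ} {n t : ℤ} {P : ℤ × ℤ} (ht : n ∣ f.eval t)
    (hP : n ∣ P.1 - t * P.2) : n ∣ form f P := by
  have h2 := form_congr f n t P hP
  have := dvd_add h2 (Dvd.dvd.mul_left ht (P.2 ^ f.natDegree))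
  simpa using this

end Pool.Agent.Helper83.TW
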