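import Pool.Agent.Helper83.TW.L04

/-!
# TW-L05: lifting to p^2 (Hensel)

Proof.  `p` divides none of `P.2`, `Q.2`.  Choose integers `s`, `t` with `P.1 ≡ s P.2 (mod p^2)`,
`Q.1 ≡ t Q.2 (mod p^2)` (inverse of `P.2` modulo `p^2`).  Then `p^2 ∣ f(s)`, `p^2 ∣ f(t)` by
`form_congr` (cancel the unit `P.2^r`), and `p ∣ P.1 Q.2 - Q.1 P.2` gives `p ∣ s - t`.  Taylor:
`f(s) ≡ f(t) + (s - t) f'(t) (mod (s-t)^2)` (`Polynomial.evalSubFactor`/`binomExpansion`), hence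
`p^2 ∣ (s - t) f'(t)`, and `f'(t)` is prime to `p` by `Nice.simple`, so `p^2 ∣ s - t` and
`P.1 Q.2 - Q.1 P.2 ≡ (s - t) P.2 Q.2 ≡ 0 (mod p^2)`.
-/

set_option autoImplicit false

namespace Pool.Agent.Helper83.TW

private theorem exists_slope {p : ℕ} (hp : p.Prime) {P : ℤ × ℤ} (hP : ¬ (p : ℤ) ∣ P.2) :
    ∃ s : ℤ, (p : ℤ) ^ 2 ∣ P.1 - s * P.2 := by
  have hpi : Prime (p : ℤ) := Nat.prime_iff_prime_int.mp hp
  have hc : IsCoprime (P.2) ((p : ℤ) ^ 2) :=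
    ((hpi.coprime_iff_not_dvd.mpr hP).symm).pow_right
  obtain ⟨u, v, huv⟩ := hc
  refine ⟨P.1 * u, P.1 * v, ?_⟩
  linear_combination (-P.1) * huv

private theorem slope_root {f : Polynomial ℤ} {p : ℕ} (hp : p.Prime) {P : ℤ × ℤ}
    (hP : ¬ (p : ℤ) ∣ P.2) (h1 : (p : ℤ) ^ 2 ∣ form f P) {s : ℤ}
    (hs : (p : ℤ) ^ 2 ∣ P.1 - s * P.2) : (p : ℤ) ^ 2 ∣ f.eval s := by
  have hpi : Prime (p : ℤ) := Nat.prime_iff_prime_int.mp hp
  have h2 := form_congr f ((p : ℤ) ^ 2) s P hs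
  have h3 : (p : ℤ) ^ 2 ∣ P.2 ^ f.natDegree * f.eval s := by
    have := dvd_sub h1 h2
    simpa using this
  have hc : IsCoprime ((p : ℤ) ^ 2) (P.2 ^ f.natDegree) :=
    ((hpi.coprime_iff_not_dvd.mpr hP).pow_left).pow_right
  exact hc.dvd_of_dvd_mul_left h3

theorem lift_det {f : Polynomial ℤ} {z p : ℕ} (hN : Nice f z) (hp : p.Prime) (hz : z < p)
    {P Q : ℤ × ℤ} (hP : ¬ (p : ℤ) ∣ P.2) (hQ : ¬ (p : ℤ) ∣ Q.2)
    (h1 : (p : ℤ) ^ 2 ∣ form f P) (h2 : (p : ℤ) ^ 2 ∣ form f Q)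
    (hd : (p : ℤ) ∣ P.1 * Q.2 - Q.1 * P.2) : (p : ℤ) ^ 2 ∣ P.1 * Q.2 - Q.1 * P.2 := by
  have hpi : Prime (p : ℤ) := Nat.prime_iff_prime_int.mp hp
  obtain ⟨s, hs⟩ := exists_slope hp hP
  obtain ⟨t, ht⟩ := exists_slope hp hQ
  have hfs := slope_root hp hP h1 hs
  have hft := slope_root hp hQ h2 ht
  -- the determinant is congruent to `(s - t) P.2 Q.2`
  have hdet : (p : ℤ) ^ 2 ∣ (P.1 * Q.2 - Q.1 * P.2) - (s - t) * P.2 * Q.2 := by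
    have e : (P.1 * Q.2 - Q.1 * P.2) - (s - t) * P.2 * Q.2
        = (P.1 - s * P.2) * Q.2 - (Q.1 - t * Q.2) * P.2 := by ring
    rw [e]
    exact dvd_sub (Dvd.dvd.mul_right hs _) (Dvd.dvd.mul_right ht _)
  have hp2 : (p : ℤ) ∣ (p : ℤ) ^ 2 := dvd_pow_self _ two_ne_zero
  have h3 : (p : ℤ) ∣ (s - t) * P.2 * Q.2 := by
    have := dvd_sub hd (hp2.trans hdet)
    simpa using this
  have h4 : (p : ℤ) ∣ s - t := by
    rcases hpi.dvd_or_dvd h3 with h | h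
    · rcases hpi.dvd_or_dvd h with h | h
      · exact h
      · exact absurd h hP
    · exact absurd h hQ
  obtain ⟨k, hk⟩ := f.binomExpansion t (s - t)
  have e1 : t + (s - t) = s := by ring
  rw [e1] at hk
  have h5 : (p : ℤ) ^ 2 ∣ k * (s - t) ^ 2 := Dvd.dvd.mul_left (pow_dvd_pow_of_dvd h4 2) k
  have h6 : (p : ℤ) ^ 2 ∣ f.derivative.eval t * (s - t) := by
    have e : f.derivative.eval t * (s - t) = f.eval s - f.eval t - k * (s - t) ^ 2 := by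
      rw [hk]; ring
    rw [e]
    exact dvd_sub (dvd_sub hfs hft) h5
  have h7 : ¬ (p : ℤ) ∣ f.derivative.eval t := hN.simple p hp hz t (hp2.trans hft)
  have hc : IsCoprime ((p : ℤ) ^ 2) (f.derivative.eval t) :=
    (hpi.coprime_iff_not_dvd.mpr h7).pow_left
  have h8 : (p : ℤ) ^ 2 ∣ s - t := hc.dvd_of_dvd_mul_left h6
  have h9 : (p : ℤ) ^ 2 ∣ (s - t) * P.2 * Q.2 :=
    Dvd.dvd.mul_right (Dvd.dvd.mul_right h8 _) _
  have := dvd_add hdet h9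
  simpa using this

end Pool.Agent.Helper83.TW
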