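import Pool.Agent.Helper83.TW.L02
import Pool.Agent.Helper83.TW.L05

/-!
# TW-L06: points with p^2 dividing the form

Proof.  Each point of the set has, by `not_dvd_both` and `point_root`, a root `t` in `rts f p` with
`p ∣ a - t b`; choose one.  For each of the at most `natDegree f` roots (`card_rts_le`) the points with
this root have pairwise determinant divisible by `p` (`det_of_root`), hence by `p^2` (`lift_det`);
apply `card_le_of_det` with `q = p^2`.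
-/

set_option autoImplicit false

namespace Pool.Agent.Helper83.TW

theorem card_sq (f : Polynomial ℤ) (z G N p : ℕ) (hN : Nice f z) (hG : G ≤ z) (hpos : 0 < N)
    (hp : p.Prime) (hz : z < p) :
    (((box N).filter (fun P => 1 ≤ gc P ∧ gc P ≤ G ∧ (p : ℤ) ^ 2 ∣ form f P)).card : ℝ) ≤
      f.natDegree * (8 * G * ((N : ℝ) ^ 2 / (p : ℝ) ^ 2 + 1)) := by
  classical
  set S := (box N).filter (fun P => 1 ≤ gc P ∧ gc P ≤ G ∧ (p : ℤ) ^ 2 ∣ form f P) with hS
  have hmem : ∀ P ∈ S, P ∈ box N ∧ 1 ≤ gc P ∧ gc P ≤ G ∧ (p : ℤ) ^ 2 ∣ form f P := by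
    intro P hP
    simpa [hS, Finset.mem_filter] using hP
  have hroot : ∀ P ∈ S, ¬ (p : ℤ) ∣ P.2 ∧ ∃ t ∈ rts f p, (p : ℤ) ∣ P.1 - (t : ℤ) * P.2 := by
    intro P hP
    obtain ⟨_, h1, h2, h3⟩ := hmem P hP
    exact point_root hN hp hz (not_dvd_both h1 h2 (lt_of_le_of_lt hG hz))
      (dvd_trans (dvd_pow_self _ two_ne_zero) h3)
  have hsub : S ⊆ (rts f p).biUnion (fun t => S.filter (fun P => (p : ℤ) ∣ P.1 - (t : ℤ) * P.2)) := by
    intro P hP
    obtain ⟨_, t, ht, htd⟩ := hroot P hP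
    rw [Finset.mem_biUnion]
    exact ⟨t, ht, Finset.mem_filter.mpr ⟨hP, htd⟩⟩
  have hfib : ∀ t ∈ rts f p, ((S.filter (fun P => (p : ℤ) ∣ P.1 - (t : ℤ) * P.2)).card : ℝ) ≤
      8 * G * ((N : ℝ) ^ 2 / (p : ℝ) ^ 2 + 1) := by
    intro t _
    have h := card_le_of_det N (p ^ 2) G hpos (pow_pos hp.pos 2)
      (S.filter (fun P => (p : ℤ) ∣ P.1 - (t : ℤ) * P.2))
      (fun P hP => (hmem P (Finset.mem_filter.mp hP).1).1)
      (fun P hP => ⟨(hmem P (Finset.mem_filter.mp hP).1).2.1, (hmem P (Finset.mem_filter.mp hP).1).2.2.1⟩)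
      (fun P hP Q hQ => by
        obtain ⟨hPS, hPt⟩ := Finset.mem_filter.mp hP
        obtain ⟨hQS, hQt⟩ := Finset.mem_filter.mp hQ
        push_cast
        exact lift_det hN hp hz (hroot P hPS).1 (hroot Q hQS).1 (hmem P hPS).2.2.2 (hmem Q hQS).2.2.2
          (det_of_root hPt hQt))
    push_cast at h
    exact h
  have hlead : ¬ (p : ℤ) ∣ f.leadingCoeff := hN.lead p hp hz
  have hB : (0 : ℝ) ≤ 8 * G * ((N : ℝ) ^ 2 / (p : ℝ) ^ 2 + 1) := by positivity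
  calc (S.card : ℝ) ≤ (((rts f p).biUnion
        (fun t => S.filter (fun P => (p : ℤ) ∣ P.1 - (t : ℤ) * P.2))).card : ℝ) := by
        exact_mod_cast Finset.card_le_card hsub
    _ ≤ ((∑ t ∈ rts f p, (S.filter (fun P => (p : ℤ) ∣ P.1 - (t : ℤ) * P.2)).card : ℕ) : ℝ) := by
        exact_mod_cast Finset.card_biUnion_le
    _ = ∑ t ∈ rts f p, ((S.filter (fun P => (p : ℤ) ∣ P.1 - (t : ℤ) * P.2)).card : ℝ) := by
        push_cast; rfl
    _ ≤ ∑ _t ∈ rts f p, 8 * G * ((N : ℝ) ^ 2 / (p : ℝ) ^ 2 + 1) := Finset.sum_le_sum hfib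
    _ = (rts f p).card * (8 * G * ((N : ℝ) ^ 2 / (p : ℝ) ^ 2 + 1)) := by
        rw [Finset.sum_const, nsmul_eq_mul]
    _ ≤ f.natDegree * (8 * G * ((N : ℝ) ^ 2 / (p : ℝ) ^ 2 + 1)) := by
        apply mul_le_mul_of_nonneg_right _ hB
        exact_mod_cast card_rts_le f p hp hlead

end Pool.Agent.Helper83.TW
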