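import Pool.Agent.Helper83.TW.Defs

/-!
# TW-L07: points with a large gcd

Proof.  A point of the box with `gc P > G >= 1` is nonzero and is `g (a', b')` with `g = gc P`,
`G < g < N`; for each `g` there are at most `(2 N/g + 1)^2 <= 9 N^2/g^2` multiples of `g` in the box,
and `sum_{g > G} 1/g^2 <= 1/G`.
-/

set_option autoImplicit false

namespace Pool.Agent.Helper83.TW

private theorem l07_fiber (N g : ℕ) (hg : 1 ≤ g) (hgN : g < N) :
    (((box N).filter (fun P => gc P = g)).card : ℝ) ≤ 9 * (N : ℝ) ^ 2 * ((g : ℝ) ^ 2)⁻¹ := by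
  set M : ℕ := (N - 1) / g with hM
  have hM1 : 1 ≤ M := by
    rw [hM, Nat.le_div_iff_mul_le (by omega)]
    omega
  have hMg : M * g ≤ N - 1 := Nat.div_mul_le_self _ _
  have hg0 : (0 : ℤ) < g := by exact_mod_cast hg
  have hcard : ((box N).filter (fun P => gc P = g)).card ≤
      (Finset.Icc (-(M : ℤ)) M ×ˢ Finset.Icc (-(M : ℤ)) M).card := by
    have hb : ∀ a : ℤ, |a| < N → (g : ℤ) ∣ a → a / g ∈ Finset.Icc (-(M : ℤ)) M := by
      intro a ha hd
      obtain ⟨b, rfl⟩ := hd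
      rw [Int.mul_ediv_cancel_left _ hg0.ne', Finset.mem_Icc, ← abs_le]
      have h1 : |(g : ℤ) * b| = g * |b| := by rw [abs_mul, abs_of_pos hg0]
      rw [h1] at ha
      have h2 : b.natAbs * g ≤ N - 1 := by
        have h3 : (g : ℤ) * (b.natAbs : ℤ) < N := by rw [Int.natCast_natAbs]; exact ha
        have h4 : g * b.natAbs < N := by exact_mod_cast h3
        rw [mul_comm] at h4
        omega
      have h5 : b.natAbs ≤ M := by
        rw [hM, Nat.le_div_iff_mul_le (by omega)]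
        exact h2
      rw [← Int.natCast_natAbs]
      exact_mod_cast h5
    apply Finset.card_le_card_of_injOn (fun P : ℤ × ℤ => (P.1 / (g : ℤ), P.2 / (g : ℤ)))
    · intro P hP
      rw [Finset.mem_coe, Finset.mem_filter, mem_box] at hP
      obtain ⟨⟨h1, h2⟩, h3⟩ := hP
      have d1 : (g : ℤ) ∣ P.1 := h3 ▸ Int.gcd_dvd_left ..
      have d2 : (g : ℤ) ∣ P.2 := h3 ▸ Int.gcd_dvd_right ..
      rw [Finset.mem_coe, Finset.mem_product]
      exact ⟨hb _ h1 d1, hb _ h2 d2⟩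
    · intro P hP Q hQ hPQ
      rw [Finset.mem_coe, Finset.mem_filter, mem_box] at hP hQ
      have d1 : (g : ℤ) ∣ P.1 := hP.2 ▸ Int.gcd_dvd_left ..
      have d2 : (g : ℤ) ∣ P.2 := hP.2 ▸ Int.gcd_dvd_right ..
      have e1 : (g : ℤ) ∣ Q.1 := hQ.2 ▸ Int.gcd_dvd_left ..
      have e2 : (g : ℤ) ∣ Q.2 := hQ.2 ▸ Int.gcd_dvd_right ..
      simp only [Prod.mk.injEq] at hPQ
      ext
      · rw [← Int.ediv_mul_cancel d1, ← Int.ediv_mul_cancel e1, hPQ.1]
      · rw [← Int.ediv_mul_cancel d2, ← Int.ediv_mul_cancel e2, hPQ.2]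
  have hcard2 : (Finset.Icc (-(M : ℤ)) M ×ˢ Finset.Icc (-(M : ℤ)) M).card =
      (2 * M + 1) * (2 * M + 1) := by
    rw [Finset.card_product, Int.card_Icc]
    congr 1 <;> omega
  rw [hcard2] at hcard
  have h1 : (((box N).filter (fun P => gc P = g)).card : ℝ) ≤ (2 * M + 1) * (2 * M + 1) := by
    exact_mod_cast hcard
  have hgR : (0 : ℝ) < g := by exact_mod_cast hg
  have hMR : (1 : ℝ) ≤ M := by exact_mod_cast hM1
  have h2 : (M : ℝ) ≤ N / g := by
    rw [le_div_iff₀ hgR]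
    have : M * g ≤ N := by omega
    exact_mod_cast this
  have h3 : (2 * M + 1 : ℝ) ≤ 3 * (N / g) := by linarith
  calc (((box N).filter (fun P => gc P = g)).card : ℝ) ≤ (2 * M + 1) * (2 * M + 1) := h1
    _ ≤ (3 * (N / g)) * (3 * (N / g)) := by gcongr
    _ = 9 * (N : ℝ) ^ 2 * ((g : ℝ) ^ 2)⁻¹ := by field_simp; ring

theorem card_gcd (N G : ℕ) (hG : 1 ≤ G) :
    (((box N).filter (fun P => G < gc P)).card : ℝ) ≤ 9 * (N : ℝ) ^ 2 / G := by
  have hsub : (box N).filter (fun P => G < gc P) ⊆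
      (Finset.Ioc G (N - 1)).biUnion (fun g => (box N).filter (fun P => gc P = g)) := by
    intro P hP
    rw [Finset.mem_filter] at hP
    obtain ⟨hb, hg⟩ := hP
    rw [Finset.mem_biUnion]
    refine ⟨gc P, ?_, Finset.mem_filter.mpr ⟨hb, rfl⟩⟩
    rw [Finset.mem_Ioc]
    refine ⟨hg, ?_⟩
    rw [mem_box] at hb
    have hne : P.1 ≠ 0 ∨ P.2 ≠ 0 := by
      by_contra hcon
      push Not at hcon
      have : gc P = 0 := by unfold gc; rw [hcon.1, hcon.2]; rfl
      omega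
    have d1 : gc P ∣ P.1.natAbs := Int.natCast_dvd.mp (Int.gcd_dvd_left ..)
    have d2 : gc P ∣ P.2.natAbs := Int.natCast_dvd.mp (Int.gcd_dvd_right ..)
    rcases hne with h | h
    · have h1 : gc P ≤ P.1.natAbs := Nat.le_of_dvd (Int.natAbs_pos.mpr h) d1
      have h2 : (P.1.natAbs : ℤ) < N := by rw [Int.natCast_natAbs]; exact hb.1
      have h3 : P.1.natAbs < N := by exact_mod_cast h2
      omega
    · have h1 : gc P ≤ P.2.natAbs := Nat.le_of_dvd (Int.natAbs_pos.mpr h) d2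
      have h2 : (P.2.natAbs : ℤ) < N := by rw [Int.natCast_natAbs]; exact hb.2
      have h3 : P.2.natAbs < N := by exact_mod_cast h2
      omega
  have hGR : (0 : ℝ) < G := by exact_mod_cast hG
  have h1 : (((box N).filter (fun P => G < gc P)).card : ℝ) ≤
      ∑ g ∈ Finset.Ioc G (N - 1), (((box N).filter (fun P => gc P = g)).card : ℝ) := by
    have := (Finset.card_le_card hsub).trans Finset.card_biUnion_le
    exact_mod_cast this
  have h2 : ∑ g ∈ Finset.Ioc G (N - 1), (((box N).filter (fun P => gc P = g)).card : ℝ) ≤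
      ∑ g ∈ Finset.Ioc G (N - 1), 9 * (N : ℝ) ^ 2 * ((g : ℝ) ^ 2)⁻¹ := by
    apply Finset.sum_le_sum
    intro g hg
    rw [Finset.mem_Ioc] at hg
    exact l07_fiber N g (by omega) (by omega)
  have h3 : ∑ g ∈ Finset.Ioc G (N - 1), ((g : ℝ) ^ 2)⁻¹ ≤ (G : ℝ)⁻¹ := by
    rcases le_or_gt G (N - 1) with h | h
    · have := sum_Ioc_inv_sq_le_sub (α := ℝ) (k := G) (n := N - 1) (by omega) h
      have h4 : (0 : ℝ) ≤ ((N - 1 : ℕ) : ℝ)⁻¹ := by positivity
      linarith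
    · rw [Finset.Ioc_eq_empty (by omega), Finset.sum_empty]
      positivity
  rw [← Finset.mul_sum] at h2
  calc (((box N).filter (fun P => G < gc P)).card : ℝ)
      ≤ 9 * (N : ℝ) ^ 2 * ∑ g ∈ Finset.Ioc G (N - 1), ((g : ℝ) ^ 2)⁻¹ := h1.trans h2
    _ ≤ 9 * (N : ℝ) ^ 2 * (G : ℝ)⁻¹ := by gcongr
    _ = 9 * (N : ℝ) ^ 2 / G := by rw [div_eq_mul_inv]

end Pool.Agent.Helper83.TW
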