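import Pool.Agent.Helper83.TW.L06
import Pool.Agent.Helper83.TW.L07
import Pool.Agent.Helper83.TW.L08

/-!
# TW-L09: the exceptional points are few

Proof.  `Exc` is contained in the union of: points with `P.1 = 0` (at most `2 N`), points with
`G < gc P` (at most `9 N^2/G` by `card_gcd`), and, for `p ∈ prm z (N^2)`, points with
`1 <= gc P <= G` and `p^2 ∣ form f P`: by `card_sq` their total number is at most
`8 G r (N^2 sum 1/p^2 + card (prm z (N^2))) <= 8 G r (N^2/z + card (prm z (N^2)))` (`inv_sq`,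
`prime_count_small` with `Y = N^2`).  Choose `G` with `9/G <= ε/4`, then `z₁ >= G, z₀` with
`8 G r / z₁ <= ε/4`, then `N₀` (depending on `G`) for the two other terms.
-/

set_option autoImplicit false

namespace Pool.Agent.Helper83.TW

private theorem card_A (N : ℕ) :
    (((box N).filter (fun P => P.1 = 0)).card : ℝ) ≤ 2 * (N : ℝ) := by
  have h1 : (box N).filter (fun P => P.1 = 0) ⊆
      ({0} : Finset ℤ) ×ˢ Finset.Ioo (-(N : ℤ)) N := by
    intro P hP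
    rw [Finset.mem_filter] at hP
    obtain ⟨hb, h0⟩ := hP
    rw [mem_box] at hb
    rw [Finset.mem_product, Finset.mem_singleton, Finset.mem_Ioo]
    exact ⟨h0, abs_lt.mp hb.2⟩
  have h2 := Finset.card_le_card h1
  rw [Finset.card_product, Finset.card_singleton, Int.card_Ioo, one_mul] at h2
  have h3 : ((box N).filter (fun P => P.1 = 0)).card ≤ 2 * N := by omega
  exact_mod_cast h3

private theorem exc_cover (f : Polynomial ℤ) (z G N : ℕ) :
    Exc f z G N ⊆ ((box N).filter (fun P => P.1 = 0) ∪ (box N).filter (fun P => G < gc P)) ∪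
      (prm z (N ^ 2)).biUnion (fun p => (box N).filter
        (fun P => 1 ≤ gc P ∧ gc P ≤ G ∧ (p : ℤ) ^ 2 ∣ form f P)) := by
  intro P hP
  rw [Exc, Finset.mem_filter] at hP
  obtain ⟨hb, hne, h⟩ := hP
  rw [Finset.mem_union, Finset.mem_union, Finset.mem_filter, Finset.mem_filter,
    Finset.mem_biUnion]
  by_cases h1 : P.1 = 0
  · exact Or.inl (Or.inl ⟨hb, h1⟩)
  by_cases h2 : G < gc P
  · exact Or.inl (Or.inr ⟨hb, h2⟩)
  rcases h with h | h | ⟨p, hp, hd⟩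
  · exact absurd h h1
  · exact absurd h h2
  · exact Or.inr ⟨p, hp, Finset.mem_filter.mpr ⟨hb, gc_pos h1, not_lt.mp h2, hd⟩⟩

private theorem exc_card (f : Polynomial ℤ) (z G N : ℕ) (hN : Nice f z) (hG : 1 ≤ G)
    (hGz : G ≤ z) (hpos : 0 < N) :
    ((Exc f z G N).card : ℝ) ≤ 2 * N + 9 * (N : ℝ) ^ 2 / G +
      8 * G * f.natDegree * ((N : ℝ) ^ 2 / z + (prm z (N ^ 2)).card) := by
  have h1 := Finset.card_le_card (exc_cover f z G N)
  have h2 : (Exc f z G N).card ≤ (((box N).filter (fun P => P.1 = 0)).card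
      + ((box N).filter (fun P => G < gc P)).card) +
      ∑ p ∈ prm z (N ^ 2), ((box N).filter
        (fun P => 1 ≤ gc P ∧ gc P ≤ G ∧ (p : ℤ) ^ 2 ∣ form f P)).card :=
    h1.trans ((Finset.card_union_le _ _).trans
      (add_le_add (Finset.card_union_le _ _) Finset.card_biUnion_le))
  have h3 : ((Exc f z G N).card : ℝ) ≤ ((((box N).filter (fun P => P.1 = 0)).card : ℝ)
      + (((box N).filter (fun P => G < gc P)).card : ℝ)) +
      ∑ p ∈ prm z (N ^ 2), (((box N).filter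
        (fun P => 1 ≤ gc P ∧ gc P ≤ G ∧ (p : ℤ) ^ 2 ∣ form f P)).card : ℝ) := by
    exact_mod_cast h2
  have h4 : ∑ p ∈ prm z (N ^ 2), (((box N).filter
        (fun P => 1 ≤ gc P ∧ gc P ≤ G ∧ (p : ℤ) ^ 2 ∣ form f P)).card : ℝ) ≤
      ∑ p ∈ prm z (N ^ 2), f.natDegree * (8 * G * ((N : ℝ) ^ 2 / (p : ℝ) ^ 2 + 1)) := by
    refine Finset.sum_le_sum fun p hp => ?_
    rw [mem_prm] at hp
    exact card_sq f z G N p hN hGz hpos hp.2.2 hp.1
  have h5 : ∑ p ∈ prm z (N ^ 2), (f.natDegree : ℝ) * (8 * G * ((N : ℝ) ^ 2 / (p : ℝ) ^ 2 + 1))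
      = 8 * G * f.natDegree * ((N : ℝ) ^ 2 * (∑ p ∈ prm z (N ^ 2), 1 / (p : ℝ) ^ 2)
        + (prm z (N ^ 2)).card) := by
    have h6 : ∀ p ∈ prm z (N ^ 2), (f.natDegree : ℝ) * (8 * G * ((N : ℝ) ^ 2 / (p : ℝ) ^ 2 + 1))
        = 8 * G * f.natDegree * ((N : ℝ) ^ 2 * (1 / (p : ℝ) ^ 2) + 1) := by
      intro p _
      ring
    rw [Finset.sum_congr rfl h6, ← Finset.mul_sum, Finset.sum_add_distrib, ← Finset.mul_sum]
    simp
  have h7 : (N : ℝ) ^ 2 * (∑ p ∈ prm z (N ^ 2), 1 / (p : ℝ) ^ 2) ≤ (N : ℝ) ^ 2 / z := by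
    have := mul_le_mul_of_nonneg_left (inv_sq z (N ^ 2) (hG.trans hGz)) (sq_nonneg (N : ℝ))
    rw [mul_one_div] at this
    exact this
  have h8 : 8 * (G : ℝ) * f.natDegree * ((N : ℝ) ^ 2 * (∑ p ∈ prm z (N ^ 2), 1 / (p : ℝ) ^ 2)
        + (prm z (N ^ 2)).card) ≤
      8 * G * f.natDegree * ((N : ℝ) ^ 2 / z + (prm z (N ^ 2)).card) :=
    mul_le_mul_of_nonneg_left (by linarith) (by positivity)
  have h9 := card_A N
  have h10 := card_gcd N G hG
  linarith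

theorem exc_small (f : Polynomial ℤ) (z₀ : ℕ) (hN : ∀ z, z₀ ≤ z → Nice f z) (ε : ℝ) (hε : 0 < ε) :
    ∃ G z₁ : ℕ, 1 ≤ G ∧ G ≤ z₁ ∧ z₀ ≤ z₁ ∧ ∀ z, z₁ ≤ z → ∃ N₀ : ℕ, ∀ N, N₀ ≤ N →
      ((Exc f z G N).card : ℝ) ≤ ε * (N : ℝ) ^ 2 := by
  obtain ⟨G0, hG0⟩ := exists_nat_ge (36 / ε)
  set G : ℕ := G0 + 1 with hGdef
  have hG1 : 1 ≤ G := by omega
  have hGR : (0 : ℝ) < G := by exact_mod_cast hG1
  have hG : 36 / ε ≤ (G : ℝ) := by
    rw [hGdef]; push_cast; linarith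
  set K : ℝ := 8 * (G : ℝ) * f.natDegree with hK
  have hK0 : 0 ≤ K := by positivity
  obtain ⟨z2, hz2⟩ := exists_nat_ge (4 * K / ε)
  refine ⟨G, max (max G z₀) z2, hG1, (le_max_left _ _).trans (le_max_left _ _),
    (le_max_right _ _).trans (le_max_left _ _), ?_⟩
  intro z hz
  have hzG : G ≤ z := ((le_max_left _ _).trans (le_max_left _ _)).trans hz
  have hz0 : z₀ ≤ z := ((le_max_right _ _).trans (le_max_left _ _)).trans hz
  have hzz : z2 ≤ z := (le_max_right _ _).trans hz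
  have hzR : (0 : ℝ) < z := by exact_mod_cast (hG1.trans hzG)
  have hzK : 4 * K / ε ≤ (z : ℝ) := hz2.trans (by exact_mod_cast hzz)
  obtain ⟨Y₀, hY₀⟩ := prime_count_small (ε / (4 * (K + 1))) (by positivity)
  obtain ⟨N1, hN1⟩ := exists_nat_ge (8 / ε)
  refine ⟨max (max Y₀ N1) 1, ?_⟩
  intro N hNN
  have hNY : Y₀ ≤ N := ((le_max_left _ _).trans (le_max_left _ _)).trans hNN
  have hNN1 : N1 ≤ N := ((le_max_right _ _).trans (le_max_left _ _)).trans hNN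
  have hN1' : 1 ≤ N := (le_max_right _ _).trans hNN
  have hNR : (1 : ℝ) ≤ N := by exact_mod_cast hN1'
  have hY : Y₀ ≤ N ^ 2 := hNY.trans (by nlinarith)
  have hpc := hY₀ (N ^ 2) hY z
  have hcard := exc_card f z G N (hN z hz0) hG1 hzG (by omega)
  rw [← hK] at hcard
  -- the four terms
  have t1 : 2 * (N : ℝ) ≤ ε / 4 * (N : ℝ) ^ 2 := by
    have h1 : 8 / ε ≤ (N : ℝ) := hN1.trans (by exact_mod_cast hNN1)
    rw [div_le_iff₀ hε] at h1
    nlinarith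
  have t2 : 9 * (N : ℝ) ^ 2 / G ≤ ε / 4 * (N : ℝ) ^ 2 := by
    rw [div_le_iff₀ hGR]
    have h1 : 36 ≤ (G : ℝ) * ε := by
      rw [div_le_iff₀ hε] at hG
      exact hG
    nlinarith [sq_nonneg (N : ℝ)]
  have t3 : K * ((N : ℝ) ^ 2 / z) ≤ ε / 4 * (N : ℝ) ^ 2 := by
    rw [← mul_div_assoc, div_le_iff₀ hzR]
    have h1 : 4 * K ≤ (z : ℝ) * ε := by
      rw [div_le_iff₀ hε] at hzK
      exact hzK
    nlinarith [sq_nonneg (N : ℝ)]
  have t4 : K * ((prm z (N ^ 2)).card : ℝ) ≤ ε / 4 * (N : ℝ) ^ 2 := by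
    have h1 : K * ((prm z (N ^ 2)).card : ℝ) ≤ K * (ε / (4 * (K + 1)) * ((N ^ 2 : ℕ) : ℝ)) :=
      mul_le_mul_of_nonneg_left hpc hK0
    have h2 : K * (ε / (4 * (K + 1)) * ((N ^ 2 : ℕ) : ℝ))
        = (K / (K + 1)) * (ε / 4 * (N : ℝ) ^ 2) := by
      push_cast
      field_simp
    have h3 : K / (K + 1) ≤ 1 := by
      rw [div_le_one (by linarith)]
      linarith
    have h4 : (K / (K + 1)) * (ε / 4 * (N : ℝ) ^ 2) ≤ 1 * (ε / 4 * (N : ℝ) ^ 2) :=
      mul_le_mul_of_nonneg_right h3 (by positivity)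
    linarith
  have h5 : K * ((N : ℝ) ^ 2 / z + ((prm z (N ^ 2)).card : ℝ))
      = K * ((N : ℝ) ^ 2 / z) + K * ((prm z (N ^ 2)).card : ℝ) := by ring
  rw [h5] at hcard
  linarith

end Pool.Agent.Helper83.TW
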