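import Pool.Agent.Helper83.TW.Defs

/-!
# TW-SFP: basic facts on the squarefree part `sfp`

`sfp n = sign n * prod of the primes p with odd exponent in |n|`.  `Nat.prod_factorization_pow_eq_self`:
`|n| = prod p^(e_p)`, so `|n| = (prod_{e_p odd} p) * (prod p^(e_p / 2))^2`.
-/

set_option autoImplicit false

namespace Pool.Agent.Helper83.TW

private def sq (N : ℕ) : ℕ := ∏ p ∈ N.primeFactors.filter (fun p => Odd (N.factorization p)), p

private theorem sfp_eq (n : ℤ) : sfp n = n.sign * (sq n.natAbs : ℤ) := rfl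

private theorem sq_pos (N : ℕ) : 0 < sq N := by
  unfold sq
  apply Finset.prod_pos
  intro p hp
  exact (Nat.prime_of_mem_primeFactors (Finset.mem_filter.mp hp).1).pos

private theorem sq_spec (N : ℕ) (hN : N ≠ 0) : ∃ m : ℕ, m ≠ 0 ∧ N = sq N * m ^ 2 := by
  refine ⟨∏ p ∈ N.primeFactors, p ^ (N.factorization p / 2), ?_, ?_⟩
  · apply Finset.prod_ne_zero_iff.mpr
    intro p hp
    exact pow_ne_zero _ (Nat.prime_of_mem_primeFactors hp).ne_zero
  · have h1 : N = ∏ p ∈ N.primeFactors, p ^ N.factorization p := by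
      have := Nat.prod_factorization_pow_eq_self hN
      conv_lhs => rw [← this]
      rfl
    have h2 : sq N = ∏ p ∈ N.primeFactors, (if Odd (N.factorization p) then p else 1) := by
      unfold sq
      rw [Finset.prod_filter]
    conv_lhs => rw [h1]
    rw [h2, ← Finset.prod_pow, ← Finset.prod_mul_distrib]
    apply Finset.prod_congr rfl
    intro p _
    by_cases ho : Odd (N.factorization p)
    · rw [if_pos ho]
      obtain ⟨k, hk⟩ := ho
      have : N.factorization p / 2 = k := by omega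
      rw [this, hk]
      ring
    · rw [if_neg ho]
      rw [Nat.not_odd_iff_even] at ho
      obtain ⟨k, hk⟩ := ho
      have : N.factorization p / 2 = k := by omega
      rw [this, hk]
      ring

private theorem sq_squarefree (N : ℕ) : Squarefree (sq N) := by
  unfold sq
  refine Finset.squarefree_prod_of_pairwise_isCoprime (fun p hp q hq hpq ↦ ?_) ?_
  · have hp' := Nat.prime_of_mem_primeFactors (Finset.mem_filter.mp (Finset.mem_coe.mp hp)).1
    have hq' := Nat.prime_of_mem_primeFactors (Finset.mem_filter.mp (Finset.mem_coe.mp hq)).1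
    exact Nat.coprime_iff_isRelPrime.mp ((Nat.coprime_primes hp' hq').mpr hpq)
  · intro p hp
    exact (Nat.prime_of_mem_primeFactors (Finset.mem_filter.mp hp).1).squarefree

private theorem sign_sq {n : ℤ} (hn : n ≠ 0) : n.sign.natAbs = 1 := by
  rw [Int.natAbs_sign_of_ne_zero hn]

private theorem natAbs_eq_sq {n : ℤ} (hn : n ≠ 0) : (sfp n).natAbs = sq n.natAbs := by
  rw [sfp_eq, Int.natAbs_mul, sign_sq hn, Int.natAbs_natCast, one_mul]

theorem sfp_spec (n : ℤ) (hn : n ≠ 0) : ∃ m : ℤ, m ≠ 0 ∧ n = sfp n * m ^ 2 := by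
  obtain ⟨m, hm, h⟩ := sq_spec n.natAbs (Int.natAbs_ne_zero.mpr hn)
  refine ⟨m, by exact_mod_cast hm, ?_⟩
  have h1 : n = n.sign * (n.natAbs : ℤ) := (Int.sign_mul_natAbs n).symm
  have h2 : (n.natAbs : ℤ) = (sq n.natAbs : ℤ) * (m : ℤ) ^ 2 := by exact_mod_cast h
  rw [sfp_eq]
  calc n = n.sign * (n.natAbs : ℤ) := h1
    _ = n.sign * ((sq n.natAbs : ℤ) * (m : ℤ) ^ 2) := by rw [h2]
    _ = n.sign * (sq n.natAbs : ℤ) * (m : ℤ) ^ 2 := by ring

theorem sfp_dvd (n : ℤ) : sfp n ∣ n := by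
  by_cases hn : n = 0
  · subst hn; exact dvd_zero _
  obtain ⟨m, _, h⟩ := sfp_spec n hn
  exact ⟨m ^ 2, h⟩

theorem sfp_ne_zero (n : ℤ) (hn : n ≠ 0) : sfp n ≠ 0 := by
  intro h
  obtain ⟨m, _, h'⟩ := sfp_spec n hn
  rw [h, zero_mul] at h'
  exact hn h'

theorem sfp_squarefree (n : ℤ) (hn : n ≠ 0) : Squarefree (sfp n) := by
  rw [← Int.squarefree_natAbs, natAbs_eq_sq hn]
  exact sq_squarefree _

theorem sfp_abs_le (n : ℤ) : |sfp n| ≤ |n| := by
  by_cases hn : n = 0
  · subst hn; simp [sfp]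
  · exact Int.natAbs_le_of_dvd_ne_zero (sfp_dvd n) hn |> fun h => by
      rw [Int.abs_eq_natAbs, Int.abs_eq_natAbs]; exact_mod_cast h

theorem prime_dvd_sfp (n : ℤ) (p : ℕ) (hn : n ≠ 0) (hp : p.Prime) (h1 : (p : ℤ) ∣ n)
    (h2 : ¬ (p : ℤ) ^ 2 ∣ n) : (p : ℤ) ∣ sfp n := by
  obtain ⟨m, _, h⟩ := sfp_spec n hn
  rw [h] at h1
  rcases (Nat.prime_iff_prime_int.mp hp).dvd_or_dvd h1 with h3 | h3
  · exact h3
  · exfalso
    apply h2
    rw [h]
    have h4 : (p : ℤ) ∣ m := (Nat.prime_iff_prime_int.mp hp).dvd_of_dvd_pow h3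
    exact Dvd.dvd.mul_left (pow_dvd_pow_of_dvd h4 2) _

theorem natAbs_sfp (n : ℤ) (hn : n ≠ 0) :
    (sfp n).natAbs = ∏ p ∈ (sfp n).natAbs.primeFactors, p := by
  rw [Nat.prod_primeFactors_of_squarefree]
  rw [Int.squarefree_natAbs]
  exact sfp_squarefree n hn

theorem rough_pos (T : ℕ) (n : ℤ) : 1 ≤ rough T n := by
  unfold rough
  refine Nat.succ_le_of_lt (Finset.prod_pos ?_)
  intro p hp
  exact (Nat.prime_of_mem_primeFactors (Finset.mem_filter.mp hp).1).pos

/-- product of the primes `> T` dividing `n` is at most `|n|` -/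
theorem rough_le (T : ℕ) (n : ℤ) (hn : n ≠ 0) : (rough T n : ℤ) ≤ |n| := by
  rw [Int.abs_eq_natAbs]
  have h1 : rough T n ∣ n.natAbs := by
    unfold rough
    refine dvd_trans ?_ (Nat.prod_primeFactors_dvd n.natAbs)
    exact Finset.prod_dvd_prod_of_subset _ _ _ (Finset.filter_subset _ _)
  have h2 := Nat.le_of_dvd (Int.natAbs_pos.mpr hn) h1
  exact_mod_cast h2

end Pool.Agent.Helper83.TW
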