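import Pool.Agent.Helper83.TW.L02
import Pool.Agent.Helper83.TW.L04
import Pool.Agent.Helper83.TW.L08
import Pool.Agent.Helper83.TW.Sfp

/-!
# TW-L10: multiplicity of a squarefree part

`card_fiber_le`: to `P ∈ S` attach the function `p ↦ t_p ∈ rts f p` (`p ∈ T`) with `p ∣ a - t_p b`
(`not_dvd_both`, `point_root`).  There are at most `r^|T|` such functions (`card_rts_le`; use
`Finset.pi` or a `Fintype.piFinset`), and on each fibre all determinants are divisible by every
`p ∈ T`, hence by the product (distinct primes), so `card_le_of_det` applies with `q = ∏ p`.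

`card_le_image`: group `S` by `d = sfp (form f P)`; the set `T' = primes > T dividing d` has at most
`k` elements, product `rough T d >= M`, and every `p ∈ T'` divides `sfp (form f P)`, hence
`form f P` (`sfp_dvd` in `Sfp`).
-/

set_option autoImplicit false

namespace Pool.Agent.Helper83.TW

theorem card_fiber_le (f : Polynomial ℤ) (z G N : ℕ) (hN : Nice f z) (hG : G ≤ z) (hpos : 0 < N)
    (T : Finset ℕ) (hT : ∀ p ∈ T, p.Prime ∧ z < p) (S : Finset (ℤ × ℤ)) (hS : S ⊆ box N)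
    (hg : ∀ P ∈ S, 1 ≤ gc P ∧ gc P ≤ G) (hd : ∀ P ∈ S, ∀ p ∈ T, (p : ℤ) ∣ form f P) :
    (S.card : ℝ) ≤ (f.natDegree : ℝ) ^ T.card *
      (8 * G * ((N : ℝ) ^ 2 / ((∏ p ∈ T, p : ℕ) : ℝ) + 1)) := by
  classical
  have hex : ∀ P ∈ S, ∀ p ∈ T, ∃ t ∈ rts f p, (p : ℤ) ∣ P.1 - (t : ℤ) * P.2 := by
    intro P hP p hp
    have h1 := not_dvd_both (hg P hP).1 (hg P hP).2 (lt_of_le_of_lt hG (hT p hp).2)
    exact (point_root hN (hT p hp).1 (hT p hp).2 h1 (hd P hP p hp)).2
  choose! τ hτ1 hτ2 using hex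
  have hmaps : ∀ P ∈ S, (fun (p : ℕ) (_ : p ∈ T) => τ P p) ∈ T.pi (fun p => rts f p) := by
    intro P hP
    rw [Finset.mem_pi]
    intro p hp
    exact hτ1 P hP p hp
  have hfib : ∀ g ∈ T.pi (fun p => rts f p),
      ((S.filter (fun P => (fun (p : ℕ) (_ : p ∈ T) => τ P p) = g)).card : ℝ) ≤
        8 * G * ((N : ℝ) ^ 2 / ((∏ p ∈ T, p : ℕ) : ℝ) + 1) := by
    intro g _
    refine card_le_of_det N (∏ p ∈ T, p) G hpos
      (Finset.prod_pos fun p hp => (hT p hp).1.pos) _ ?_ ?_ ?_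
    · exact (Finset.filter_subset _ _).trans hS
    · intro P hP
      exact hg P (Finset.mem_filter.1 hP).1
    · intro P hP Q hQ
      obtain ⟨hPS, hPg⟩ := Finset.mem_filter.1 hP
      obtain ⟨hQS, hQg⟩ := Finset.mem_filter.1 hQ
      rw [Nat.cast_prod]
      refine Finset.prod_dvd_of_coprime ?_ ?_
      · intro p hp p' hp' hne
        exact Nat.isCoprime_iff_coprime.2 ((Nat.coprime_primes (hT p hp).1 (hT p' hp').1).2 hne)
      · intro p hp
        have e : τ P p = τ Q p := by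
          have h3 := hPg.trans hQg.symm
          exact congrFun (congrFun h3 p) hp
        have h1 := hτ2 P hPS p hp
        have h2 := hτ2 Q hQS p hp
        rw [← e] at h2
        exact det_of_root h1 h2
  have hcard := Finset.card_eq_sum_card_fiberwise (s := S) (t := T.pi (fun p => rts f p))
    (f := fun P => (fun (p : ℕ) (_ : p ∈ T) => τ P p)) hmaps
  have hB : 0 ≤ 8 * (G : ℝ) * ((N : ℝ) ^ 2 / ((∏ p ∈ T, p : ℕ) : ℝ) + 1) := by positivity
  rw [hcard, Nat.cast_sum]
  refine (Finset.sum_le_card_nsmul _ _ _ hfib).trans ?_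
  rw [nsmul_eq_mul]
  refine mul_le_mul_of_nonneg_right ?_ hB
  rw [Finset.card_pi]
  have h5 : ∏ p ∈ T, (rts f p).card ≤ f.natDegree ^ T.card := by
    refine Finset.prod_le_pow_card _ _ _ ?_
    intro p hp
    exact card_rts_le f p (hT p hp).1 (hN.lead p (hT p hp).1 (hT p hp).2)
  exact_mod_cast h5

theorem card_le_image (f : Polynomial ℤ) (z G N T k : ℕ) (M : ℝ) (hM : 0 < M) (hN : Nice f z)
    (hf : 1 ≤ f.natDegree) (hG : G ≤ z) (hzT : z ≤ T) (hpos : 0 < N) (S : Finset (ℤ × ℤ))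
    (hS : S ⊆ box N) (hg : ∀ P ∈ S, 1 ≤ gc P ∧ gc P ≤ G) (h0 : ∀ P ∈ S, form f P ≠ 0)
    (hk : ∀ P ∈ S, ((sfp (form f P)).natAbs.primeFactors.filter (fun p => T < p)).card ≤ k)
    (hr : ∀ P ∈ S, M ≤ (rough T (sfp (form f P)) : ℝ)) :
    (S.card : ℝ) ≤ ((S.image (fun P => sfp (form f P))).card : ℝ) *
      ((f.natDegree : ℝ) ^ k * (8 * G * ((N : ℝ) ^ 2 / M + 1))) := by
  classical
  have hcard := Finset.card_eq_sum_card_fiberwise (s := S)
    (t := S.image (fun P => sfp (form f P))) (f := fun P => sfp (form f P))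
    (fun P hP => Finset.mem_image_of_mem _ hP)
  have hfib : ∀ d ∈ S.image (fun P => sfp (form f P)),
      ((S.filter (fun P => sfp (form f P) = d)).card : ℝ) ≤
        (f.natDegree : ℝ) ^ k * (8 * G * ((N : ℝ) ^ 2 / M + 1)) := by
    intro d hd
    obtain ⟨P₀, hP₀, rfl⟩ := Finset.mem_image.1 hd
    have hk0 := hk P₀ hP₀
    have hr0 := hr P₀ hP₀
    set D := sfp (form f P₀) with hD
    set T' := D.natAbs.primeFactors.filter (fun p => T < p) with hT'
    have hT'p : ∀ p ∈ T', p.Prime ∧ z < p := by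
      intro p hp
      obtain ⟨hp1, hp2⟩ := Finset.mem_filter.1 hp
      exact ⟨Nat.prime_of_mem_primeFactors hp1, lt_of_le_of_lt hzT hp2⟩
    have h1 := card_fiber_le f z G N hN hG hpos T' hT'p (S.filter (fun P => sfp (form f P) = D))
      ((Finset.filter_subset _ _).trans hS)
      (fun P hP => hg P (Finset.mem_filter.1 hP).1) (by
        intro P hP p hp
        obtain ⟨hp1, _⟩ := Finset.mem_filter.1 hp
        have h2 : (p : ℤ) ∣ D := Int.natCast_dvd.2 (Nat.dvd_of_mem_primeFactors hp1)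
        have h3 : D ∣ form f P := by
          rw [← (Finset.mem_filter.1 hP).2]
          exact sfp_dvd _
        exact h2.trans h3)
    refine h1.trans ?_
    have hr1 : (1 : ℝ) ≤ f.natDegree := by exact_mod_cast hf
    have hM' : M ≤ ((∏ p ∈ T', p : ℕ) : ℝ) := hr0
    have hP0 : (0 : ℝ) < ((∏ p ∈ T', p : ℕ) : ℝ) := lt_of_lt_of_le hM hM'
    refine mul_le_mul (pow_le_pow_right₀ hr1 hk0) ?_ (by positivity) (by positivity)
    refine mul_le_mul_of_nonneg_left ?_ (by positivity)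
    have h4 : (N : ℝ) ^ 2 / ((∏ p ∈ T', p : ℕ) : ℝ) ≤ (N : ℝ) ^ 2 / M :=
      div_le_div_of_nonneg_left (by positivity) hM hM'
    linarith
  rw [hcard, Nat.cast_sum]
  refine (Finset.sum_le_card_nsmul _ _ _ hfib).trans ?_
  rw [nsmul_eq_mul]

end Pool.Agent.Helper83.TW
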