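import Pool.Agent.Helper83.TW.L04
import Pool.Agent.Helper83.TW.L08

/-!
# TW-L11: upper mean value of V

`card_dvd`: for a good prime `p <= N`: pairs `(a, b)` of the box with `p ∣ b`: at most
`(2N/p + 1) * 2N <= 6 N^2/p`; pairs with `p` not dividing `b`: `a ≡ t b` with `t ∈ rts f p`
(`point_root`), for each `b` and `t` at most `2N/p + 1 <= 3N/p` values `a`; total
`6 (r+1) N^2/p`.  `V_mean`: exchange the sums and use `mertens_upper`.
-/

set_option autoImplicit false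

namespace Pool.Agent.Helper83.TW

private theorem count_mod (N p : ℕ) (hp : 0 < p) (hpN : p ≤ N) (c : ℤ) :
    (((Finset.Ioo (-(N : ℤ)) N).filter (fun a => (p : ℤ) ∣ a - c)).card : ℝ) ≤
      3 * (N : ℝ) / p := by
  have hp' : (0 : ℤ) < p := by exact_mod_cast hp
  have hpR : (0 : ℝ) < p := by exact_mod_cast hp
  have hsub : (Finset.Ioo (-(N : ℤ)) N).filter (fun a => (p : ℤ) ∣ a - c) ⊆
      (Finset.Ioc (-(N : ℤ)) N).filter (fun a => a ≡ c [ZMOD (p : ℤ)]) := by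
    intro a ha
    simp only [Finset.mem_filter, Finset.mem_Ioo, Finset.mem_Ioc] at ha ⊢
    refine ⟨⟨ha.1.1, le_of_lt ha.1.2⟩, ?_⟩
    exact (Int.modEq_iff_dvd.mpr ha.2).symm
  have h1 := Finset.card_le_card hsub
  have h2 := Int.Ioc_filter_modEq_card (-(N : ℤ)) (N : ℤ) hp' c
  have h3 : (((Finset.Ioc (-(N : ℤ)) N).filter (fun a => a ≡ c [ZMOD (p : ℤ)])).card : ℤ) ≤
      ⌊((N : ℤ) - (c : ℚ)) / ((p : ℤ) : ℚ)⌋ - ⌊(((-(N : ℤ)) : ℤ) - (c : ℚ)) / ((p : ℤ) : ℚ)⌋ ∨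
      (((Finset.Ioc (-(N : ℤ)) N).filter (fun a => a ≡ c [ZMOD (p : ℤ)])).card : ℤ) ≤ 0 := by
    rw [h2]
    rcases le_total (⌊((N : ℤ) - (c : ℚ)) / ((p : ℤ) : ℚ)⌋ -
      ⌊(((-(N : ℤ)) : ℤ) - (c : ℚ)) / ((p : ℤ) : ℚ)⌋) 0 with h | h
    · right
      exact le_of_eq (max_eq_right h)
    · left
      exact le_of_eq (max_eq_left h)
  have hq : (0 : ℚ) < p := by exact_mod_cast hp
  have hfin : (((Finset.Ioc (-(N : ℤ)) N).filter (fun a => a ≡ c [ZMOD (p : ℤ)])).card : ℚ) ≤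
      3 * (N : ℚ) / p := by
    rcases h3 with h | h
    · have hA := Int.floor_le (((N : ℤ) - (c : ℚ)) / ((p : ℤ) : ℚ))
      have hB := Int.lt_floor_add_one ((((-(N : ℤ)) : ℤ) - (c : ℚ)) / ((p : ℤ) : ℚ))
      have hC : (((Finset.Ioc (-(N : ℤ)) N).filter (fun a => a ≡ c [ZMOD (p : ℤ)])).card : ℚ) ≤
          (⌊((N : ℤ) - (c : ℚ)) / ((p : ℤ) : ℚ)⌋ : ℚ) -
          (⌊(((-(N : ℤ)) : ℤ) - (c : ℚ)) / ((p : ℤ) : ℚ)⌋ : ℚ) := by exact_mod_cast h
      have hD : ((N : ℤ) - (c : ℚ)) / ((p : ℤ) : ℚ) - (((-(N : ℤ)) : ℤ) - (c : ℚ)) / ((p : ℤ) : ℚ) =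
          2 * (N : ℚ) / p := by
        push_cast
        field_simp
        ring
      have hE : (1 : ℚ) ≤ (N : ℚ) / p := by
        rw [le_div_iff₀ hq, one_mul]
        exact_mod_cast hpN
      have hF : 3 * (N : ℚ) / p = 2 * (N : ℚ) / p + (N : ℚ) / p := by ring
      rw [hF]
      linarith
    · have h0 : (((Finset.Ioc (-(N : ℤ)) N).filter (fun a => a ≡ c [ZMOD (p : ℤ)])).card : ℚ) ≤ 0 := by
        exact_mod_cast h
      have h00 : (0 : ℚ) ≤ 3 * (N : ℚ) / p := by positivity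
      linarith
  have hfin' : (((Finset.Ioc (-(N : ℤ)) N).filter (fun a => a ≡ c [ZMOD (p : ℤ)])).card : ℝ) ≤
      3 * (N : ℝ) / p := by
    have := (Rat.cast_le (K := ℝ)).mpr hfin
    push_cast at this
    exact this
  exact le_trans (by exact_mod_cast h1) hfin'

private theorem card_Ioo_le (N : ℕ) : ((Finset.Ioo (-(N : ℤ)) N).card : ℝ) ≤ 2 * (N : ℝ) := by
  have h : ((Finset.Ioo (-(N : ℤ)) N).card) ≤ 2 * N := by
    rw [Int.card_Ioo]
    omega
  exact_mod_cast h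

theorem card_dvd (f : Polynomial ℤ) (z N p : ℕ) (hN : Nice f z) (hp : p.Prime) (hz : z < p)
    (hpN : p ≤ N) : (((box N).filter (fun P => (p : ℤ) ∣ form f P)).card : ℝ) ≤
      6 * ((f.natDegree : ℝ) + 1) * (N : ℝ) ^ 2 / p := by
  classical
  have hpos : 0 < p := hp.pos
  have hpR : (0 : ℝ) < p := by exact_mod_cast hpos
  set I := Finset.Ioo (-(N : ℤ)) N with hI
  -- the points with `p ∣ b`
  set A : Finset (ℤ × ℤ) := I ×ˢ (I.filter (fun b => (p : ℤ) ∣ b - 0)) with hA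
  -- the points in the class of the root `t`
  set B : ℕ → Finset (ℤ × ℤ) := fun t =>
    I.biUnion (fun b => (I.filter (fun a => (p : ℤ) ∣ a - (t : ℤ) * b)).image (fun a => (a, b)))
    with hB
  have hsub : (box N).filter (fun P => (p : ℤ) ∣ form f P) ⊆ A ∪ (rts f p).biUnion B := by
    intro P hP
    rw [Finset.mem_filter] at hP
    obtain ⟨hPb, hd⟩ := hP
    have hPb' : P.1 ∈ I ∧ P.2 ∈ I := by
      rw [box, Finset.mem_product] at hPb
      exact hPb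
    by_cases hb : (p : ℤ) ∣ P.2
    · refine Finset.mem_union_left _ ?_
      rw [hA, Finset.mem_product, Finset.mem_filter]
      exact ⟨hPb'.1, hPb'.2, by simpa using hb⟩
    · obtain ⟨_, t, ht, hdt⟩ := point_root hN hp hz (fun h => hb h.2) hd
      refine Finset.mem_union_right _ ?_
      rw [Finset.mem_biUnion]
      refine ⟨t, ht, ?_⟩
      rw [hB]
      simp only [Finset.mem_biUnion, Finset.mem_image, Finset.mem_filter]
      exact ⟨P.2, hPb'.2, P.1, ⟨hPb'.1, hdt⟩, rfl⟩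
  have hcA : (A.card : ℝ) ≤ 6 * (N : ℝ) ^ 2 / p := by
    rw [hA, Finset.card_product]
    push_cast
    have h1 := card_Ioo_le N
    have h2 := count_mod N p hpos hpN 0
    calc (I.card : ℝ) * ((I.filter (fun b => (p : ℤ) ∣ b - 0)).card : ℝ)
        ≤ (2 * (N : ℝ)) * (3 * (N : ℝ) / p) := by
          exact mul_le_mul h1 h2 (Nat.cast_nonneg _) (by positivity)
      _ = 6 * (N : ℝ) ^ 2 / p := by ring
  have hcB : ∀ t, ((B t).card : ℝ) ≤ 6 * (N : ℝ) ^ 2 / p := by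
    intro t
    have h1 : ((B t).card : ℝ) ≤ ∑ b ∈ I, (3 * (N : ℝ) / p) := by
      have h3 : (B t).card ≤ ∑ b ∈ I, (I.filter (fun a => (p : ℤ) ∣ a - (t : ℤ) * b)).card := by
        rw [hB]
        refine le_trans Finset.card_biUnion_le ?_
        exact Finset.sum_le_sum (fun b _ => Finset.card_image_le)
      have h4 : ((B t).card : ℝ) ≤
          ∑ b ∈ I, ((I.filter (fun a => (p : ℤ) ∣ a - (t : ℤ) * b)).card : ℝ) := by
        exact_mod_cast h3
      refine le_trans h4 (Finset.sum_le_sum (fun b _ => ?_))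
      exact count_mod N p hpos hpN _
    rw [Finset.sum_const, nsmul_eq_mul] at h1
    refine le_trans h1 ?_
    calc (I.card : ℝ) * (3 * (N : ℝ) / p) ≤ (2 * (N : ℝ)) * (3 * (N : ℝ) / p) :=
          mul_le_mul_of_nonneg_right (card_Ioo_le N) (by positivity)
      _ = 6 * (N : ℝ) ^ 2 / p := by ring
  have hr : ((rts f p).card : ℝ) ≤ (f.natDegree : ℝ) := by
    exact_mod_cast card_rts_le f p hp (hN.lead p hp hz)
  have hcU : (((rts f p).biUnion B).card : ℝ) ≤ (f.natDegree : ℝ) * (6 * (N : ℝ) ^ 2 / p) := by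
    have h1 : (((rts f p).biUnion B).card : ℝ) ≤ ∑ t ∈ rts f p, ((B t).card : ℝ) := by
      exact_mod_cast Finset.card_biUnion_le
    refine le_trans h1 ?_
    refine le_trans (Finset.sum_le_sum (fun t _ => hcB t)) ?_
    rw [Finset.sum_const, nsmul_eq_mul]
    exact mul_le_mul_of_nonneg_right hr (by positivity)
  have hT : (((box N).filter (fun P => (p : ℤ) ∣ form f P)).card : ℝ) ≤
      (A.card : ℝ) + (((rts f p).biUnion B).card : ℝ) := by
    exact_mod_cast le_trans (Finset.card_le_card hsub) (Finset.card_union_le _ _)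
  refine le_trans hT ?_
  have : 6 * ((f.natDegree : ℝ) + 1) * (N : ℝ) ^ 2 / p =
      6 * (N : ℝ) ^ 2 / p + (f.natDegree : ℝ) * (6 * (N : ℝ) ^ 2 / p) := by ring
  rw [this]
  exact add_le_add hcA hcU

theorem V_nonneg (f : Polynomial ℤ) (z Y : ℕ) (P : ℤ × ℤ) : 0 ≤ V f z Y P := by
  unfold V
  refine Finset.sum_nonneg (fun p hp => ?_)
  split_ifs
  · exact Real.log_natCast_nonneg p
  · exact le_refl _

theorem V_mean (f : Polynomial ℤ) (z N T : ℕ) (hN : Nice f z) (hT : 1 ≤ T) (hTN : T ≤ N) :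
    ∑ P ∈ box N, V f z T P ≤ 18 * ((f.natDegree : ℝ) + 1) * (N : ℝ) ^ 2 * Real.log (T : ℝ) := by
  unfold V
  rw [Finset.sum_comm]
  have h1 : ∀ p ∈ prm z T, ∑ P ∈ box N, (if (p : ℤ) ∣ form f P then Real.log (p : ℝ) else 0) ≤
      (6 * ((f.natDegree : ℝ) + 1) * (N : ℝ) ^ 2) * (Real.log (p : ℝ) / (p : ℝ)) := by
    intro p hp
    rw [mem_prm] at hp
    obtain ⟨hz, hpT, hpp⟩ := hp
    rw [← Finset.sum_filter, Finset.sum_const, nsmul_eq_mul]
    have h2 := card_dvd f z N p hN hpp hz (le_trans hpT hTN)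
    have h3 : 0 ≤ Real.log (p : ℝ) := Real.log_natCast_nonneg p
    calc (((box N).filter (fun P => (p : ℤ) ∣ form f P)).card : ℝ) * Real.log (p : ℝ)
        ≤ (6 * ((f.natDegree : ℝ) + 1) * (N : ℝ) ^ 2 / p) * Real.log (p : ℝ) :=
          mul_le_mul_of_nonneg_right h2 h3
      _ = (6 * ((f.natDegree : ℝ) + 1) * (N : ℝ) ^ 2) * (Real.log (p : ℝ) / (p : ℝ)) := by ring
  refine le_trans (Finset.sum_le_sum h1) ?_
  rw [← Finset.mul_sum]
  have h4 := mertens_upper z T hT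
  calc (6 * ((f.natDegree : ℝ) + 1) * (N : ℝ) ^ 2) * ∑ p ∈ prm z T, Real.log (p : ℝ) / (p : ℝ)
      ≤ (6 * ((f.natDegree : ℝ) + 1) * (N : ℝ) ^ 2) * (3 * Real.log (T : ℝ)) :=
        mul_le_mul_of_nonneg_left h4 (by positivity)
    _ = 18 * ((f.natDegree : ℝ) + 1) * (N : ℝ) ^ 2 * Real.log (T : ℝ) := by ring

end Pool.Agent.Helper83.TW
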