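import Pool.Agent.Helper83.TW.L01
import Pool.Agent.Helper83.TW.L04
import Pool.Agent.Helper83.TW.L08

/-!
# TW-L12: lower mean value and upper bounds of Wt

`Wt_mean`: exchange the sums and use `lattice_wt` (all primes are positive).
`Wt_le_log`: only primes with `p ∣ form h P` contribute (`dvd_form_of_root`), each at most
`card (rts h p) <= natDegree h` times (`card_rts_le`); then `log_prod_le`.
`Wt_le_theta`: the same with all primes and `theta_le`.
-/

set_option autoImplicit false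

namespace Pool.Agent.Helper83.TW

theorem Wt_nonneg (h : Polynomial ℤ) (z Y : ℕ) (P : ℤ × ℤ) : 0 ≤ Wt h z Y P := by
  unfold Wt
  refine Finset.sum_nonneg fun p _ => Finset.sum_nonneg fun t _ => ?_
  split_ifs
  · exact Real.log_natCast_nonneg p
  · exact le_refl _

theorem Wt_mean (h : Polynomial ℤ) (z Y N : ℕ) :
    (N : ℝ) ^ 4 * R h z Y ≤ ∑ P ∈ box N, wt N P * Wt h z Y P := by
  have h1 : ∑ P ∈ box N, wt N P * Wt h z Y P =
      ∑ p ∈ prm z Y, ∑ t ∈ rts h p, Real.log (p : ℝ) *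
        ∑ P ∈ (box N).filter (fun P => (p : ℤ) ∣ P.1 - (t : ℤ) * P.2), wt N P := by
    unfold Wt
    simp_rw [Finset.mul_sum]
    rw [Finset.sum_comm]
    refine Finset.sum_congr rfl fun p _ => ?_
    rw [Finset.sum_comm]
    refine Finset.sum_congr rfl fun t _ => ?_
    rw [Finset.sum_filter]
    refine Finset.sum_congr rfl fun P _ => ?_
    split_ifs
    · ring
    · ring
  rw [h1]
  unfold R
  rw [Finset.mul_sum]
  refine Finset.sum_le_sum fun p hp => ?_
  have hpp : p.Prime := (mem_prm.1 hp).2.2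
  have h2 : (N : ℝ) ^ 4 * (((rts h p).card : ℝ) * Real.log (p : ℝ) / p) =
      ∑ _t ∈ rts h p, Real.log (p : ℝ) * ((N : ℝ) ^ 4 / p) := by
    rw [Finset.sum_const, nsmul_eq_mul]
    ring
  rw [h2]
  refine Finset.sum_le_sum fun t _ => ?_
  exact mul_le_mul_of_nonneg_left (lattice_wt N p hpp.pos t) (Real.log_natCast_nonneg p)

/-- the inner sum is at most `natDegree h * log p` -/
private theorem l12_inner (h : Polynomial ℤ) (z Y : ℕ)
    (hl : ∀ p : ℕ, p.Prime → z < p → ¬ (p : ℤ) ∣ h.leadingCoeff) (P : ℤ × ℤ)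
    {p : ℕ} (hp : p ∈ prm z Y) :
    (∑ t ∈ rts h p, if (p : ℤ) ∣ P.1 - (t : ℤ) * P.2 then Real.log (p : ℝ) else 0) ≤
      h.natDegree * Real.log (p : ℝ) := by
  obtain ⟨hz, -, hpp⟩ := mem_prm.1 hp
  have hlog : 0 ≤ Real.log (p : ℝ) := Real.log_natCast_nonneg p
  calc (∑ t ∈ rts h p, if (p : ℤ) ∣ P.1 - (t : ℤ) * P.2 then Real.log (p : ℝ) else 0)
      ≤ ∑ _t ∈ rts h p, Real.log (p : ℝ) := by
        refine Finset.sum_le_sum fun t _ => ?_
        split_ifs
        · exact le_refl _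
        · exact hlog
    _ = ((rts h p).card : ℝ) * Real.log (p : ℝ) := by rw [Finset.sum_const, nsmul_eq_mul]
    _ ≤ h.natDegree * Real.log (p : ℝ) := by
        refine mul_le_mul_of_nonneg_right ?_ hlog
        exact_mod_cast card_rts_le h p hpp (hl p hpp hz)

theorem Wt_le_log (h : Polynomial ℤ) (z Y : ℕ)
    (hl : ∀ p : ℕ, p.Prime → z < p → ¬ (p : ℤ) ∣ h.leadingCoeff) (P : ℤ × ℤ)
    (h0 : form h P ≠ 0) : Wt h z Y P ≤ h.natDegree * Real.log |(form h P : ℝ)| := by
  classical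
  have h1 : Wt h z Y P ≤
      ∑ p ∈ (prm z Y).filter (fun p : ℕ => (p : ℤ) ∣ form h P), (h.natDegree : ℝ) * Real.log (p : ℝ) := by
    unfold Wt
    rw [Finset.sum_filter]
    refine Finset.sum_le_sum fun p hp => ?_
    split_ifs with hd
    · exact l12_inner h z Y hl P hp
    · refine le_of_eq (Finset.sum_eq_zero fun t ht => ?_)
      rw [if_neg]
      intro hdt
      exact hd (dvd_form_of_root (mem_rts.1 ht).2 hdt)
  refine h1.trans ?_
  rw [← Finset.mul_sum]
  refine mul_le_mul_of_nonneg_left ?_ (Nat.cast_nonneg _)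
  refine log_prod_le (form h P) h0 _ fun p hp => ?_
  rw [Finset.mem_filter] at hp
  exact ⟨(mem_prm.1 hp.1).2.2, hp.2⟩

theorem Wt_le_theta (h : Polynomial ℤ) (z Y : ℕ)
    (hl : ∀ p : ℕ, p.Prime → z < p → ¬ (p : ℤ) ∣ h.leadingCoeff) (P : ℤ × ℤ) :
    Wt h z Y P ≤ h.natDegree * (2 * (Y : ℝ)) := by
  have h1 : Wt h z Y P ≤ ∑ p ∈ prm z Y, h.natDegree * Real.log (p : ℝ) := by
    unfold Wt
    exact Finset.sum_le_sum fun p hp => l12_inner h z Y hl P hp
  refine h1.trans ?_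
  rw [← Finset.mul_sum]
  exact mul_le_mul_of_nonneg_left (theta_le z Y) (Nat.cast_nonneg _)

end Pool.Agent.Helper83.TW
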