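import Pool.Agent.Helper83.TW.L04
import Pool.Agent.Helper83.TW.Sfp

/-!
# TW-L13: pointwise bounds at regular points

`Wt_add_le`: fix a prime `p > z`; then `p` does not divide both coordinates (`not_dvd_both`).
If `p ∣ a - t b` with `p ∣ h_i(t)` then `p ∣ f(t)` (as `h_i ∣ f`), so `p ∣ form f P`
(`dvd_form_of_root`), and `p` does not divide `b` (`point_root`).  If two pairs `(i, t)`, `(j, t')`
occur, then `t b ≡ t' b`, so `t = t'` (both in `[0, p)`), and if `i ≠ j` then `f = h1 h2 k` has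
`f(t) ≡ f'(t) ≡ 0 (mod p)`, against `Nice.simple`.  So the contribution of `p` to the left side is at
most `log p` if `p ∣ form f P` and `0` otherwise (primes in `(z, N]` are in `(z, N^2]`).

`V_le_rough`: a prime `p` in `(T, Y]` dividing `form f P` is in `prm z Y`, so `p^2` does not divide
`form f P`, so `p ∣ sfp (form f P)` (`prime_dvd_sfp`), and `p` is a factor of `rough T`.

`sfp_abs_le_rough`: `natAbs_sfp`; the primes dividing `sfp` are `<= z` (product at most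
`primorial z`), in `(z, T]` (they divide `form f P`; product at most `exp (V f z T P)`), or `> T`
(product `rough T`).
-/

set_option autoImplicit false

namespace Pool.Agent.Helper83.TW

/-- the sum over the roots as a cardinality -/
private theorem L13_sum (h : Polynomial ℤ) (p : ℕ) (P : ℤ × ℤ) :
    (∑ t ∈ rts h p, if (p : ℤ) ∣ P.1 - (t : ℤ) * P.2 then Real.log (p : ℝ) else 0) =
      (((rts h p).filter (fun t : ℕ => (p : ℤ) ∣ P.1 - (t : ℤ) * P.2)).card : ℝ) *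
        Real.log (p : ℝ) := by
  rw [← Finset.sum_filter, Finset.sum_const, nsmul_eq_mul]

private theorem L13_card (f h1 h2 : Polynomial ℤ) (z G : ℕ) (hN : Nice f z) (hG : G ≤ z)
    (hdvd : h1 * h2 ∣ f) (P : ℤ × ℤ) (hg : 1 ≤ gc P ∧ gc P ≤ G) (p : ℕ) (hp : p.Prime)
    (hz : z < p) :
    (((rts h1 p).filter (fun t : ℕ => (p : ℤ) ∣ P.1 - (t : ℤ) * P.2)).card +
      ((rts h2 p).filter (fun t : ℕ => (p : ℤ) ∣ P.1 - (t : ℤ) * P.2)).card ≤ 1) ∧
    (¬ (p : ℤ) ∣ form f P →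
      ((rts h1 p).filter (fun t : ℕ => (p : ℤ) ∣ P.1 - (t : ℤ) * P.2)).card +
      ((rts h2 p).filter (fun t : ℕ => (p : ℤ) ∣ P.1 - (t : ℤ) * P.2)).card = 0) := by
  obtain ⟨k, hk⟩ := hdvd
  have hnb : ¬ ((p : ℤ) ∣ P.1 ∧ (p : ℤ) ∣ P.2) := not_dvd_both hg.1 hg.2 (lt_of_le_of_lt hG hz)
  have hpI : Prime (p : ℤ) := Nat.prime_iff_prime_int.mp hp
  -- values
  have hf1 : ∀ t : ℕ, t ∈ rts h1 p → (p : ℤ) ∣ f.eval (t : ℤ) := by
    intro t ht
    rw [hk, Polynomial.eval_mul, Polynomial.eval_mul]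
    exact Dvd.dvd.mul_right (Dvd.dvd.mul_right (mem_rts.mp ht).2 _) _
  have hf2 : ∀ t : ℕ, t ∈ rts h2 p → (p : ℤ) ∣ f.eval (t : ℤ) := by
    intro t ht
    rw [hk, Polynomial.eval_mul, Polynomial.eval_mul]
    exact Dvd.dvd.mul_right (Dvd.dvd.mul_left (mem_rts.mp ht).2 _) _
  have hnP : ∀ t : ℕ, (p : ℤ) ∣ P.1 - (t : ℤ) * P.2 → ¬ (p : ℤ) ∣ P.2 := by
    intro t ht h2
    refine hnb ⟨?_, h2⟩
    have := dvd_add ht (Dvd.dvd.mul_left h2 (t : ℤ))
    simpa using this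
  have huniq : ∀ t t' : ℕ, t < p → t' < p → (p : ℤ) ∣ P.1 - (t : ℤ) * P.2 →
      (p : ℤ) ∣ P.1 - (t' : ℤ) * P.2 → t = t' := by
    intro t t' h1 h2 h3 h4
    have h5 : (p : ℤ) ∣ ((t : ℤ) - t') * P.2 := by
      have := dvd_sub h4 h3
      have e : P.1 - (t' : ℤ) * P.2 - (P.1 - (t : ℤ) * P.2) = ((t : ℤ) - t') * P.2 := by ring
      rwa [e] at this
    have h6 : (p : ℤ) ∣ (t : ℤ) - t' := (hpI.dvd_or_dvd h5).resolve_right (hnP t h3)
    have h7 : (t' : ℤ) ≡ t [ZMOD p] := (Int.modEq_iff_dvd.mpr h6)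
    have h8 : t' ≡ t [MOD p] := (Int.natCast_modEq_iff).mp h7
    exact (Nat.ModEq.eq_of_lt_of_lt h8 h2 h1).symm
  have hdisj : Disjoint ((rts h1 p).filter (fun t : ℕ => (p : ℤ) ∣ P.1 - (t : ℤ) * P.2))
      ((rts h2 p).filter (fun t : ℕ => (p : ℤ) ∣ P.1 - (t : ℤ) * P.2)) := by
    rw [Finset.disjoint_left]
    intro t ht1 ht2
    rw [Finset.mem_filter] at ht1 ht2
    refine hN.simple p hp hz t (hf1 t ht1.1) ?_
    have a1 := (mem_rts.mp ht1.1).2
    have a2 := (mem_rts.mp ht2.1).2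
    rw [hk]
    simp only [Polynomial.derivative_mul, Polynomial.eval_mul, Polynomial.eval_add]
    refine dvd_add (Dvd.dvd.mul_right (dvd_add ?_ ?_) _) ?_
    · exact Dvd.dvd.mul_left a2 _
    · exact Dvd.dvd.mul_right a1 _
    · exact Dvd.dvd.mul_right (Dvd.dvd.mul_right a1 _) _
  rw [← Finset.card_union_of_disjoint hdisj]
  have hmem : ∀ t ∈ ((rts h1 p).filter (fun t : ℕ => (p : ℤ) ∣ P.1 - (t : ℤ) * P.2)) ∪
      ((rts h2 p).filter (fun t : ℕ => (p : ℤ) ∣ P.1 - (t : ℤ) * P.2)),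
      t < p ∧ (p : ℤ) ∣ P.1 - (t : ℤ) * P.2 ∧ (p : ℤ) ∣ f.eval (t : ℤ) := by
    intro t ht
    rw [Finset.mem_union, Finset.mem_filter, Finset.mem_filter] at ht
    rcases ht with ht | ht
    · exact ⟨(mem_rts.mp ht.1).1, ht.2, hf1 t ht.1⟩
    · exact ⟨(mem_rts.mp ht.1).1, ht.2, hf2 t ht.1⟩
  constructor
  · rw [Finset.card_le_one]
    intro a ha b hb
    exact huniq a b (hmem a ha).1 (hmem b hb).1 (hmem a ha).2.1 (hmem b hb).2.1
  · intro hnf
    rw [Finset.card_eq_zero, Finset.eq_empty_iff_forall_notMem]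
    intro t ht
    exact hnf (dvd_form_of_root (hmem t ht).2.2 (hmem t ht).2.1)

theorem Wt_add_le (f h1 h2 : Polynomial ℤ) (z G N : ℕ) (hN : Nice f z) (hG : G ≤ z)
    (hdvd : h1 * h2 ∣ f) (P : ℤ × ℤ) (hg : 1 ≤ gc P ∧ gc P ≤ G) (hpos : 1 ≤ N) :
    Wt h1 z (N ^ 2) P + Wt h2 z N P ≤ V f z (N ^ 2) P := by
  have hlog : ∀ p : ℕ, 0 ≤ Real.log (p : ℝ) := fun p => Real.log_natCast_nonneg p
  have h3 : Wt h2 z N P ≤ Wt h2 z (N ^ 2) P := by
    unfold Wt
    refine Finset.sum_le_sum_of_subset_of_nonneg ?_ ?_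
    · intro p hp
      rw [mem_prm] at hp ⊢
      exact ⟨hp.1, hp.2.1.trans (by nlinarith), hp.2.2⟩
    · intro p _ _
      refine Finset.sum_nonneg fun t _ => ?_
      split_ifs
      · exact hlog p
      · exact le_rfl
  refine (add_le_add_right h3 _).trans ?_
  unfold Wt V
  rw [← Finset.sum_add_distrib]
  refine Finset.sum_le_sum fun p hp => ?_
  rw [mem_prm] at hp
  rw [L13_sum, L13_sum, ← add_mul]
  obtain ⟨c1, c2⟩ := L13_card f h1 h2 z G hN hG hdvd P hg p hp.2.2 hp.1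
  split_ifs with hd
  · have : ((((rts h1 p).filter (fun t : ℕ => (p : ℤ) ∣ P.1 - (t : ℤ) * P.2)).card : ℝ) +
      ((rts h2 p).filter (fun t : ℕ => (p : ℤ) ∣ P.1 - (t : ℤ) * P.2)).card) ≤ 1 := by
      exact_mod_cast c1
    calc _ ≤ 1 * Real.log (p : ℝ) := mul_le_mul_of_nonneg_right this (hlog p)
      _ = Real.log (p : ℝ) := one_mul _
  · have : ((((rts h1 p).filter (fun t : ℕ => (p : ℤ) ∣ P.1 - (t : ℤ) * P.2)).card : ℝ) +
      ((rts h2 p).filter (fun t : ℕ => (p : ℤ) ∣ P.1 - (t : ℤ) * P.2)).card) = 0 := by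
      exact_mod_cast c2 hd
    rw [this, zero_mul]

theorem V_le_rough (f : Polynomial ℤ) (z T Y : ℕ) (P : ℤ × ℤ) (hzT : z ≤ T)
    (h0 : form f P ≠ 0) (hsq : ∀ p ∈ prm z Y, ¬ (p : ℤ) ^ 2 ∣ form f P) :
    V f z Y P ≤ V f z T P + Real.log (rough T (sfp (form f P)) : ℝ) := by
  classical
  have hlog : ∀ p : ℕ, 0 ≤ Real.log (p : ℝ) := fun p => Real.log_natCast_nonneg p
  have hs0 : sfp (form f P) ≠ 0 := sfp_ne_zero _ h0
  unfold V rough
  rw [← Finset.sum_filter, ← Finset.sum_filter]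
  push_cast
  rw [Real.log_prod (fun p hp => by
    have := (Nat.prime_of_mem_primeFactors (Finset.mem_filter.mp hp).1).ne_zero
    exact_mod_cast this)]
  have hsub : (prm z Y).filter (fun p : ℕ => (p : ℤ) ∣ form f P) ⊆
      (prm z T).filter (fun p : ℕ => (p : ℤ) ∣ form f P) ∪
        (sfp (form f P)).natAbs.primeFactors.filter (fun p => T < p) := by
    intro p hp
    rw [Finset.mem_filter, mem_prm] at hp
    rw [Finset.mem_union, Finset.mem_filter, mem_prm, Finset.mem_filter, Nat.mem_primeFactors]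
    by_cases hT : p ≤ T
    · exact Or.inl ⟨⟨hp.1.1, hT, hp.1.2.2⟩, hp.2⟩
    · refine Or.inr ⟨⟨hp.1.2.2, ?_, Int.natAbs_ne_zero.mpr hs0⟩, not_le.mp hT⟩
      have := prime_dvd_sfp (form f P) p h0 hp.1.2.2 hp.2 (hsq p (mem_prm.mpr hp.1))
      exact Int.natCast_dvd.mp this
  refine (Finset.sum_le_sum_of_subset_of_nonneg hsub fun p _ _ => hlog p).trans ?_
  rw [← Finset.sum_union_inter]
  have : 0 ≤ ∑ x ∈ (prm z T).filter (fun p : ℕ => (p : ℤ) ∣ form f P) ∩
        (sfp (form f P)).natAbs.primeFactors.filter (fun p => T < p), Real.log (x : ℝ) :=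
    Finset.sum_nonneg fun p _ => hlog p
  linarith

theorem sfp_abs_le_rough (f : Polynomial ℤ) (z T : ℕ) (P : ℤ × ℤ) (hzT : z ≤ T)
    (h0 : form f P ≠ 0) :
    |(sfp (form f P) : ℝ)| ≤
      (rough T (sfp (form f P)) : ℝ) * (primorial z : ℝ) * Real.exp (V f z T P) := by
  classical
  set s := sfp (form f P) with hs
  have hs0 : s ≠ 0 := sfp_ne_zero _ h0
  have h1 : |(s : ℝ)| = ((s.natAbs : ℕ) : ℝ) := by
    rw [Nat.cast_natAbs]; push_cast; rfl
  rw [h1, natAbs_sfp (form f P) h0, ← hs]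
  -- split
  have hsplit : ∏ p ∈ s.natAbs.primeFactors, p =
      (∏ p ∈ s.natAbs.primeFactors.filter (fun p => T < p), p) *
        ((∏ p ∈ (s.natAbs.primeFactors.filter (fun p => ¬ T < p)).filter (fun p => z < p), p) *
         (∏ p ∈ (s.natAbs.primeFactors.filter (fun p => ¬ T < p)).filter (fun p => ¬ z < p), p)) := by
    rw [Finset.prod_filter_mul_prod_filter_not, Finset.prod_filter_mul_prod_filter_not]
  have hA : (∏ p ∈ (s.natAbs.primeFactors.filter (fun p => ¬ T < p)).filter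
      (fun p => ¬ z < p), p) ≤ primorial z := by
    unfold primorial
    refine Finset.prod_le_prod_of_subset_of_one_le' ?_ ?_
    · intro p hp
      simp only [Finset.mem_filter] at hp
      simp only [Finset.mem_filter, Finset.mem_range]
      exact ⟨by omega, Nat.prime_of_mem_primeFactors hp.1.1⟩
    · intro p hp _
      exact (Finset.mem_filter.mp hp).2.one_le
  have hB : ((∏ p ∈ (s.natAbs.primeFactors.filter (fun p => ¬ T < p)).filter
      (fun p => z < p), p : ℕ) : ℝ) ≤ Real.exp (V f z T P) := by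
    unfold V
    rw [← Finset.sum_filter, Real.exp_sum]
    have e : ∏ p ∈ (prm z T).filter (fun p : ℕ => (p : ℤ) ∣ form f P), Real.exp (Real.log (p : ℝ))
        = ((∏ p ∈ (prm z T).filter (fun p : ℕ => (p : ℤ) ∣ form f P), p : ℕ) : ℝ) := by
      push_cast
      refine Finset.prod_congr rfl fun p hp => ?_
      have hpp := (mem_prm.mp (Finset.mem_filter.mp hp).1).2.2
      exact Real.exp_log (by exact_mod_cast hpp.pos)
    rw [e]
    have : (∏ p ∈ (s.natAbs.primeFactors.filter (fun p => ¬ T < p)).filter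
      (fun p => z < p), p) ≤ ∏ p ∈ (prm z T).filter (fun p : ℕ => (p : ℤ) ∣ form f P), p := by
      refine Finset.prod_le_prod_of_subset_of_one_le' ?_ ?_
      · intro p hp
        simp only [Finset.mem_filter] at hp
        rw [Finset.mem_filter, mem_prm]
        refine ⟨⟨hp.2, not_lt.mp hp.1.2, Nat.prime_of_mem_primeFactors hp.1.1⟩, ?_⟩
        have : (p : ℤ) ∣ s := Int.natCast_dvd.mpr (Nat.dvd_of_mem_primeFactors hp.1.1)
        exact this.trans (sfp_dvd _)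
      · intro p hp _
        exact (mem_prm.mp (Finset.mem_filter.mp hp).1).2.2.one_le
    exact_mod_cast this
  rw [hsplit]
  push_cast
  have hA' : ((∏ p ∈ (s.natAbs.primeFactors.filter (fun p => ¬ T < p)).filter
      (fun p => ¬ z < p), p : ℕ) : ℝ) ≤ (primorial z : ℝ) := by exact_mod_cast hA
  push_cast at hA' hB
  unfold rough
  push_cast
  have hp0 : (0:ℝ) ≤ ∏ p ∈ s.natAbs.primeFactors.filter (fun p => T < p), (p : ℝ) :=
    Finset.prod_nonneg fun p _ => Nat.cast_nonneg p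
  have hp1 : (0:ℝ) ≤ ∏ p ∈ (s.natAbs.primeFactors.filter (fun p => ¬ T < p)).filter
      (fun p => ¬ z < p), (p : ℝ) :=
    Finset.prod_nonneg fun p _ => Nat.cast_nonneg p
  rw [mul_assoc]
  refine mul_le_mul_of_nonneg_left ?_ hp0
  rw [mul_comm (primorial z : ℝ)]
  exact mul_le_mul hB hA' hp1 (Real.exp_pos _).le

end Pool.Agent.Helper83.TW
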