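import Pool.Agent.Helper83.TW.L08
import Pool.Agent.Helper83.TW.Sfp

/-!
# TW-L14: number of large primes dividing an integer

Proof.  With `k` the number of primes `> T` dividing `n`: `N^(eta k) <= T^k <= |n| <= N^r`
(`log_prod_le` or a product bound), and take logarithms (`log N > 0`).
-/

set_option autoImplicit false

namespace Pool.Agent.Helper83.TW

theorem card_rough (n : ℤ) (hn : n ≠ 0) (N T r : ℕ) (η : ℝ) (hη : 0 < η) (hN : 2 ≤ N)
    (hT : (N : ℝ) ^ η ≤ T) (hb : |(n : ℝ)| ≤ (N : ℝ) ^ r) :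
    ((n.natAbs.primeFactors.filter (fun p => T < p)).card : ℝ) ≤ r / η := by
  set s := n.natAbs.primeFactors.filter (fun p => T < p) with hs
  have hn0 : n.natAbs ≠ 0 := Int.natAbs_ne_zero.2 hn
  have h1 : T ^ s.card ≤ n.natAbs := by
    calc T ^ s.card ≤ ∏ p ∈ s, p :=
          Finset.pow_card_le_prod s (fun p => p) T
            (fun p hp => (Finset.mem_filter.1 hp).2.le)
      _ ≤ ∏ p ∈ n.natAbs.primeFactors, p :=
          Finset.prod_le_prod_of_subset_of_one_le' (Finset.filter_subset _ _)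
            (fun p hp _ => (Nat.prime_of_mem_primeFactors hp).one_lt.le)
      _ ≤ n.natAbs := Nat.le_of_dvd (Nat.pos_of_ne_zero hn0) (Nat.prod_primeFactors_dvd _)
  have hNr : (2 : ℝ) ≤ N := by exact_mod_cast hN
  have hN0 : (0 : ℝ) < N := by linarith
  have hlog : 0 < Real.log N := Real.log_pos (by linarith)
  have habs : ((n.natAbs : ℕ) : ℝ) = |(n : ℝ)| := by
    rw [Nat.cast_natAbs, Int.cast_abs]
  have h2 : ((N : ℝ) ^ η) ^ s.card ≤ (N : ℝ) ^ r := by
    calc ((N : ℝ) ^ η) ^ s.card ≤ (T : ℝ) ^ s.card :=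
          pow_le_pow_left₀ (Real.rpow_nonneg hN0.le _) hT _
      _ ≤ (n.natAbs : ℝ) := by exact_mod_cast h1
      _ = |(n : ℝ)| := habs
      _ ≤ (N : ℝ) ^ r := hb
  have h3 := Real.log_le_log (by positivity) h2
  rw [Real.log_pow, Real.log_pow, Real.log_rpow hN0] at h3
  rw [le_div_iff₀ hη]
  have h4 : (s.card : ℝ) * η * Real.log N ≤ r * Real.log N := by
    calc (s.card : ℝ) * η * Real.log N = s.card * (η * Real.log N) := by ring
      _ ≤ r * Real.log N := h3
  exact le_of_mul_le_mul_right h4 hlog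

end Pool.Agent.Helper83.TW
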