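import Pool.Agent.Helper83.TW.L11
import Pool.Agent.Helper83.TW.L12
import Pool.Agent.Helper83.TW.L13

/-!
# TW-L15: the core inequality

Proof.  Put `W P = Wt h1 z (N^2) P + Wt h2 z N P`.  By `Wt_mean` the left side is at most
`sum_box wt * W`.  Split the box (all terms are nonnegative):
* `form f P = 0`, `P = 0`: `wt <= N^2`, `W 0 <= m1 * 2 N^2 + m2 * 2 N` (`Wt_le_theta`): `O(N^4)`;
* `form f P = 0`, `P ≠ 0`: at most `2 r N` points (`card_zero`), `wt <= N^2`,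
  `Wt h1 <= m1 log |form h1 P| <= C N` (`Wt_le_log`, `form_abs_le`, and `form h1 P ≠ 0` by `hz1`),
  `Wt h2 <= 2 m2 N`: `O(N^4)`;
* `form f P ≠ 0` and `P ∈ Exc` or `P ∈ Good`: `form h_i P ≠ 0` (`form_mul`, `h_i ∣ f`), so
  `W <= C log N` (`N >= 2`), `wt <= N^2`;
* `P ∈ Bad`: `1 <= gc P <= G`, so `W <= V f z (N^2) P <= V f z T P + log (rough ..)` (`Wt_add_le`,
  `V_le_rough`), and `sum wt * V f z T P <= N^2 * sum V f z T P <= C N^4 log T` (`V_mean`).
Every point of the box with `form f P ≠ 0` is nonzero (`form_zero`) and lies in `Exc`, `Good` or `Bad`.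
-/

set_option autoImplicit false

namespace Pool.Agent.Helper83.TW

private theorem log_form_le (h : Polynomial ℤ) (C : ℕ) (hC : 0 < C)
    (hb : ∀ (N : ℕ) (P : ℤ × ℤ), P ∈ box N → |form h P| ≤ C * (N : ℤ) ^ h.natDegree)
    (N : ℕ) (hN : 2 ≤ N) (P : ℤ × ℤ) (hP : P ∈ box N) (h0 : form h P ≠ 0) :
    Real.log |(form h P : ℝ)| ≤
      (Real.log C / Real.log 2 + h.natDegree) * Real.log N := by
  have hpos : 0 < |(form h P : ℝ)| := abs_pos.mpr (by exact_mod_cast h0)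
  have h1 : |(form h P : ℝ)| ≤ (C : ℝ) * (N : ℝ) ^ h.natDegree := by
    have := hb N P hP
    have h2 : ((|form h P| : ℤ) : ℝ) ≤ ((C * (N : ℤ) ^ h.natDegree : ℤ) : ℝ) := by
      exact_mod_cast this
    push_cast at h2
    exact h2
  have hCpos : (0 : ℝ) < C := by exact_mod_cast hC
  have hNpos : (0 : ℝ) < N := by exact_mod_cast (by omega : 0 < N)
  have h3 : Real.log |(form h P : ℝ)| ≤ Real.log C + h.natDegree * Real.log N := by
    have := Real.log_le_log hpos h1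
    rwa [Real.log_mul hCpos.ne' (pow_pos hNpos _).ne', Real.log_pow] at this
  have hl2 : 0 < Real.log 2 := Real.log_pos (by norm_num)
  have hlC : 0 ≤ Real.log C := Real.log_nonneg (by exact_mod_cast hC)
  have hlN : Real.log 2 ≤ Real.log N :=
    Real.log_le_log (by norm_num) (by exact_mod_cast hN)
  have h4 : Real.log C ≤ Real.log C / Real.log 2 * Real.log N := by
    rw [div_mul_eq_mul_div, le_div_iff₀ hl2]
    exact mul_le_mul_of_nonneg_left hlN hlC
  nlinarith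

private theorem Wt_le_K (h : Polynomial ℤ) (C : ℕ) (hC : 0 < C)
    (hb : ∀ (N : ℕ) (P : ℤ × ℤ), P ∈ box N → |form h P| ≤ C * (N : ℤ) ^ h.natDegree)
    (z Y : ℕ) (hl : ∀ p : ℕ, p.Prime → z < p → ¬ (p : ℤ) ∣ h.leadingCoeff)
    (N : ℕ) (hN : 2 ≤ N) (P : ℤ × ℤ) (hP : P ∈ box N) (h0 : form h P ≠ 0) :
    Wt h z Y P ≤ (h.natDegree * (Real.log C / Real.log 2 + h.natDegree)) * Real.log N := by
  have h1 := Wt_le_log h z Y hl P h0
  have h2 := log_form_le h C hC hb N hN P hP h0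
  have h3 : (0 : ℝ) ≤ h.natDegree := Nat.cast_nonneg _
  calc Wt h z Y P ≤ h.natDegree * Real.log |(form h P : ℝ)| := h1
    _ ≤ h.natDegree * ((Real.log C / Real.log 2 + h.natDegree) * Real.log N) :=
        mul_le_mul_of_nonneg_left h2 h3
    _ = _ := by ring

theorem core_ineq (f h1 h2 : Polynomial ℤ) (hf : 1 ≤ f.natDegree) (hdvd : h1 * h2 ∣ f)
    (hz1 : ∀ P : ℤ × ℤ, P ≠ 0 → form h1 P ≠ 0) :
    ∃ C : ℝ, 0 < C ∧ ∀ z G : ℕ, Nice f z → 1 ≤ G → G ≤ z → ∀ N T : ℕ, 2 ≤ N → 1 ≤ T →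
      z ≤ T → T ≤ N →
      (N : ℝ) ^ 4 * (R h1 z (N ^ 2) + R h2 z N) ≤
        C * (N : ℝ) ^ 4 + C * (N : ℝ) ^ 4 * Real.log (T : ℝ) +
        C * (N : ℝ) ^ 2 * Real.log (N : ℝ) *
          (((Exc f z G N).card : ℝ) + ((Good f z G N T).card : ℝ)) +
        ∑ P ∈ Bad f z G N T, wt N P * Real.log (rough T (sfp (form f P)) : ℝ) := by
  classical
  have hf0 : f ≠ 0 := by
    rintro rfl
    simp at hf
  have h12 : h1 * h2 ≠ 0 := fun h => hf0 (by rw [h] at hdvd; exact zero_dvd_iff.mp hdvd)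
  have h10 : h1 ≠ 0 := left_ne_zero_of_mul h12
  have h20 : h2 ≠ 0 := right_ne_zero_of_mul h12
  have hd1 : h1 ∣ f := (dvd_mul_right h1 h2).trans hdvd
  have hd2 : h2 ∣ f := (dvd_mul_left h2 h1).trans hdvd
  obtain ⟨C1, hC1, hb1⟩ := form_abs_le h1
  obtain ⟨C2, hC2, hb2⟩ := form_abs_le h2
  -- nonvanishing of the factors
  have hfac : ∀ P : ℤ × ℤ, form f P ≠ 0 → form h1 P ≠ 0 ∧ form h2 P ≠ 0 := by
    intro P hP
    obtain ⟨k, hk⟩ := hdvd
    have hk0 : k ≠ 0 := by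
      rintro rfl
      exact hf0 (by rw [hk, mul_zero])
    rw [hk, form_mul _ _ h12 hk0, form_mul _ _ h10 h20] at hP
    exact ⟨left_ne_zero_of_mul (left_ne_zero_of_mul hP),
      right_ne_zero_of_mul (left_ne_zero_of_mul hP)⟩
  -- constants
  have hl2 : 0 < Real.log 2 := Real.log_pos (by norm_num)
  have hlC1 : 0 ≤ Real.log C1 := Real.log_nonneg (by exact_mod_cast hC1)
  have hlC2 : 0 ≤ Real.log C2 := Real.log_nonneg (by exact_mod_cast hC2)
  obtain ⟨r1, hr1⟩ : ∃ r : ℝ, r = (h1.natDegree : ℝ) := ⟨_, rfl⟩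
  obtain ⟨r2, hr2⟩ : ∃ r : ℝ, r = (h2.natDegree : ℝ) := ⟨_, rfl⟩
  obtain ⟨r, hr⟩ : ∃ r : ℝ, r = (f.natDegree : ℝ) := ⟨_, rfl⟩
  have hr1n : 0 ≤ r1 := by rw [hr1]; exact Nat.cast_nonneg _
  have hr2n : 0 ≤ r2 := by rw [hr2]; exact Nat.cast_nonneg _
  have hrn : 0 ≤ r := by rw [hr]; exact Nat.cast_nonneg _
  obtain ⟨K1, hK1⟩ : ∃ K : ℝ, K = r1 * (Real.log C1 / Real.log 2 + r1) := ⟨_, rfl⟩
  obtain ⟨K2, hK2⟩ : ∃ K : ℝ, K = r2 * (Real.log C2 / Real.log 2 + r2) := ⟨_, rfl⟩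
  have hK1n : 0 ≤ K1 := by rw [hK1]; positivity
  have hK2n : 0 ≤ K2 := by rw [hK2]; positivity
  refine ⟨1 + 2 * (r1 + r2) + 2 * r * (K1 + 2 * r2) + (K1 + K2) + 18 * (r + 1), by positivity, ?_⟩
  intro z G hNice hG hGz N T hN hT hzT hTN
  have hl1 := lead_of_dvd hNice hd1
  have hl2' := lead_of_dvd hNice hd2
  have hNpos : (0 : ℝ) < N := by exact_mod_cast (by omega : 0 < N)
  have hN1 : (1 : ℝ) ≤ N := by exact_mod_cast (by omega : 1 ≤ N)
  have hlogN : 0 ≤ Real.log N := Real.log_nonneg hN1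
  have hlogT : 0 ≤ Real.log T := Real.log_nonneg (by exact_mod_cast hT)
  have hlogNN : Real.log N ≤ N := (Real.log_le_sub_one_of_pos hNpos).trans (by linarith)
  -- lower bound
  have hlow : (N : ℝ) ^ 4 * (R h1 z (N ^ 2) + R h2 z N) ≤
      ∑ P ∈ box N, wt N P * (Wt h1 z (N ^ 2) P + Wt h2 z N P) := by
    have e1 := Wt_mean h1 z (N ^ 2) N
    have e2 := Wt_mean h2 z N N
    have e3 : ∑ P ∈ box N, wt N P * (Wt h1 z (N ^ 2) P + Wt h2 z N P) =
        ∑ P ∈ box N, wt N P * Wt h1 z (N ^ 2) P + ∑ P ∈ box N, wt N P * Wt h2 z N P := by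
      rw [← Finset.sum_add_distrib]
      exact Finset.sum_congr rfl fun P _ => by ring
    rw [e3, mul_add]
    exact add_le_add e1 e2
  refine hlow.trans ?_
  -- pointwise bound
  have hpt : ∀ P ∈ box N, wt N P * (Wt h1 z (N ^ 2) P + Wt h2 z N P) ≤
      (if P = 0 then 2 * (r1 + r2) * (N : ℝ) ^ 4 else 0) +
      (if form f P = 0 then (K1 + 2 * r2) * (N : ℝ) ^ 3 else 0) +
      (if P ∈ Exc f z G N then (K1 + K2) * ((N : ℝ) ^ 2 * Real.log N) else 0) +
      (if P ∈ Good f z G N T then (K1 + K2) * ((N : ℝ) ^ 2 * Real.log N) else 0) +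
      (N : ℝ) ^ 2 * V f z T P +
      (if P ∈ Bad f z G N T then wt N P * Real.log (rough T (sfp (form f P)) : ℝ) else 0) := by
    intro P hP
    have hw0 : 0 ≤ wt N P := wt_nonneg hP
    have hw1 : wt N P ≤ (N : ℝ) ^ 2 := wt_le hP
    have hV0 : 0 ≤ V f z T P := V_nonneg f z T P
    have ht0 : 0 ≤ (if P = 0 then 2 * (r1 + r2) * (N : ℝ) ^ 4 else 0) := by
      split_ifs <;> positivity
    have ht1 : 0 ≤ (if form f P = 0 then (K1 + 2 * r2) * (N : ℝ) ^ 3 else 0) := by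
      split_ifs <;> positivity
    have ht2 : 0 ≤ (if P ∈ Exc f z G N then (K1 + K2) * ((N : ℝ) ^ 2 * Real.log N) else 0) := by
      split_ifs <;> positivity
    have ht3 : 0 ≤ (if P ∈ Good f z G N T then (K1 + K2) * ((N : ℝ) ^ 2 * Real.log N)
        else 0) := by
      split_ifs <;> positivity
    have ht4 : 0 ≤ (N : ℝ) ^ 2 * V f z T P := by positivity
    have hlr : 0 ≤ Real.log (rough T (sfp (form f P)) : ℝ) :=
      Real.log_nonneg (by exact_mod_cast rough_pos T (sfp (form f P)))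
    have ht5 : 0 ≤ (if P ∈ Bad f z G N T then wt N P * Real.log (rough T (sfp (form f P)) : ℝ)
        else 0) := by
      split_ifs
      · exact mul_nonneg hw0 hlr
      · exact le_rfl
    have hW1 : 0 ≤ Wt h1 z (N ^ 2) P := Wt_nonneg _ _ _ _
    have hW2 : 0 ≤ Wt h2 z N P := Wt_nonneg _ _ _ _
    by_cases hP0 : P = 0
    · -- the origin
      have e1 : Wt h1 z (N ^ 2) P ≤ r1 * (2 * (N : ℝ) ^ 2) := by
        have := Wt_le_theta h1 z (N ^ 2) hl1 P
        rw [hr1]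
        push_cast at this
        exact this
      have e2 : Wt h2 z N P ≤ r2 * (2 * (N : ℝ) ^ 2) := by
        have := Wt_le_theta h2 z N hl2' P
        rw [← hr2] at this
        refine this.trans ?_
        have : (N : ℝ) ≤ (N : ℝ) ^ 2 := by nlinarith
        nlinarith
      have e3 : wt N P * (Wt h1 z (N ^ 2) P + Wt h2 z N P) ≤ 2 * (r1 + r2) * (N : ℝ) ^ 4 := by
        calc wt N P * (Wt h1 z (N ^ 2) P + Wt h2 z N P)
            ≤ (N : ℝ) ^ 2 * (r1 * (2 * (N : ℝ) ^ 2) + r2 * (2 * (N : ℝ) ^ 2)) :=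
              mul_le_mul hw1 (add_le_add e1 e2) (add_nonneg hW1 hW2) (by positivity)
          _ = _ := by ring
      rw [if_pos hP0] at ht0 ⊢
      linarith
    by_cases hF : form f P = 0
    · have e1 : Wt h1 z (N ^ 2) P ≤ K1 * N := by
        have := Wt_le_K h1 C1 hC1 hb1 z (N ^ 2) hl1 N hN P hP (hz1 P hP0)
        rw [← hr1, ← hK1] at this
        exact this.trans (mul_le_mul_of_nonneg_left hlogNN hK1n)
      have e2 : Wt h2 z N P ≤ r2 * (2 * (N : ℝ)) := by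
        have := Wt_le_theta h2 z N hl2' P
        rwa [← hr2] at this
      have e3 : wt N P * (Wt h1 z (N ^ 2) P + Wt h2 z N P) ≤ (K1 + 2 * r2) * (N : ℝ) ^ 3 := by
        calc wt N P * (Wt h1 z (N ^ 2) P + Wt h2 z N P)
            ≤ (N : ℝ) ^ 2 * (K1 * N + r2 * (2 * (N : ℝ))) :=
              mul_le_mul hw1 (add_le_add e1 e2) (add_nonneg hW1 hW2) (by positivity)
          _ = _ := by ring
      rw [if_pos hF] at ht1 ⊢
      linarith
    -- now the form does not vanish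
    obtain ⟨hF1, hF2⟩ := hfac P hF
    have hWK : wt N P * (Wt h1 z (N ^ 2) P + Wt h2 z N P) ≤
        (K1 + K2) * ((N : ℝ) ^ 2 * Real.log N) := by
      have e1 := Wt_le_K h1 C1 hC1 hb1 z (N ^ 2) hl1 N hN P hP hF1
      have e2 := Wt_le_K h2 C2 hC2 hb2 z N hl2' N hN P hP hF2
      rw [← hr1, ← hK1] at e1
      rw [← hr2, ← hK2] at e2
      calc wt N P * (Wt h1 z (N ^ 2) P + Wt h2 z N P)
          ≤ (N : ℝ) ^ 2 * (K1 * Real.log N + K2 * Real.log N) :=
            mul_le_mul hw1 (add_le_add e1 e2) (add_nonneg hW1 hW2) (by positivity)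
        _ = _ := by ring
    by_cases hE : P ∈ Exc f z G N
    · rw [if_pos hE] at ht2 ⊢
      linarith
    by_cases hGd : P ∈ Good f z G N T
    · rw [if_pos hGd] at ht3 ⊢
      linarith
    -- the point is regular and bad
    have hcond : ¬ (P.1 = 0 ∨ G < gc P ∨ ∃ p ∈ prm z (N ^ 2), (p : ℤ) ^ 2 ∣ form f P) := by
      intro h
      exact hE (Finset.mem_filter.mpr ⟨hP, hP0, h⟩)
    have hc1 : P.1 ≠ 0 := fun h => hcond (Or.inl h)
    have hc2 : gc P ≤ G := by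
      by_contra h
      exact hcond (Or.inr (Or.inl (not_le.mp h)))
    have hc3 : ∀ p ∈ prm z (N ^ 2), ¬ (p : ℤ) ^ 2 ∣ form f P := by
      intro p hp h
      exact hcond (Or.inr (Or.inr ⟨p, hp, h⟩))
    have hReg : P ∈ Reg f z G N := Finset.mem_filter.mpr ⟨hP, hc1, hc2, hF, hc3⟩
    have hBad : P ∈ Bad f z G N T := by
      refine Finset.mem_filter.mpr ⟨hReg, ?_⟩
      by_contra h
      exact hGd (Finset.mem_filter.mpr ⟨hReg, not_lt.mp h⟩)
    have e1 := Wt_add_le f h1 h2 z G N hNice hGz hdvd P ⟨gc_pos hc1, hc2⟩ (by omega)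
    have e2 := V_le_rough f z T (N ^ 2) P hzT hF hc3
    have e3 : wt N P * (Wt h1 z (N ^ 2) P + Wt h2 z N P) ≤
        (N : ℝ) ^ 2 * V f z T P + wt N P * Real.log (rough T (sfp (form f P)) : ℝ) := by
      calc wt N P * (Wt h1 z (N ^ 2) P + Wt h2 z N P)
          ≤ wt N P * (V f z T P + Real.log (rough T (sfp (form f P)) : ℝ)) :=
            mul_le_mul_of_nonneg_left (e1.trans e2) hw0
        _ = wt N P * V f z T P + wt N P * Real.log (rough T (sfp (form f P)) : ℝ) := by ring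
        _ ≤ _ := by
            have := mul_le_mul_of_nonneg_right hw1 hV0
            linarith
    rw [if_pos hBad] at ht5 ⊢
    linarith
  refine (Finset.sum_le_sum hpt).trans ?_
  rw [Finset.sum_add_distrib, Finset.sum_add_distrib, Finset.sum_add_distrib,
    Finset.sum_add_distrib, Finset.sum_add_distrib]
  -- the six sums
  have s0 : ∑ P ∈ box N, (if P = 0 then 2 * (r1 + r2) * (N : ℝ) ^ 4 else 0) ≤
      2 * (r1 + r2) * (N : ℝ) ^ 4 := by
    rw [Finset.sum_ite_eq']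
    split_ifs
    · exact le_rfl
    · positivity
  have s1 : ∑ P ∈ box N, (if form f P = 0 then (K1 + 2 * r2) * (N : ℝ) ^ 3 else 0) ≤
      2 * r * (K1 + 2 * r2) * (N : ℝ) ^ 4 := by
    rw [← Finset.sum_filter, Finset.sum_const, nsmul_eq_mul]
    have := card_zero f hf N
    have h3 : (((box N).filter (fun P => form f P = 0)).card : ℝ) ≤ 2 * r * N := by
      rw [hr]
      exact_mod_cast this
    calc (((box N).filter (fun P => form f P = 0)).card : ℝ) * ((K1 + 2 * r2) * (N : ℝ) ^ 3)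
        ≤ (2 * r * N) * ((K1 + 2 * r2) * (N : ℝ) ^ 3) :=
          mul_le_mul_of_nonneg_right h3 (by positivity)
      _ = _ := by ring
  have s2 : ∑ P ∈ box N, (if P ∈ Exc f z G N then (K1 + K2) * ((N : ℝ) ^ 2 * Real.log N)
      else 0) ≤ (K1 + K2) * ((N : ℝ) ^ 2 * Real.log N) * ((Exc f z G N).card : ℝ) := by
    rw [← Finset.sum_filter, Finset.sum_const, nsmul_eq_mul, mul_comm]
    refine mul_le_mul_of_nonneg_left ?_ (by positivity)
    exact_mod_cast Finset.card_le_card (fun P hP => (Finset.mem_filter.mp hP).2)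
  have s3 : ∑ P ∈ box N, (if P ∈ Good f z G N T then (K1 + K2) * ((N : ℝ) ^ 2 * Real.log N)
      else 0) ≤ (K1 + K2) * ((N : ℝ) ^ 2 * Real.log N) * ((Good f z G N T).card : ℝ) := by
    rw [← Finset.sum_filter, Finset.sum_const, nsmul_eq_mul, mul_comm]
    refine mul_le_mul_of_nonneg_left ?_ (by positivity)
    exact_mod_cast Finset.card_le_card (fun P hP => (Finset.mem_filter.mp hP).2)
  have s4 : ∑ P ∈ box N, (N : ℝ) ^ 2 * V f z T P ≤
      18 * (r + 1) * (N : ℝ) ^ 4 * Real.log T := by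
    rw [← Finset.mul_sum]
    have := V_mean f z N T hNice hT hTN
    rw [← hr] at this
    calc (N : ℝ) ^ 2 * ∑ P ∈ box N, V f z T P
        ≤ (N : ℝ) ^ 2 * (18 * (r + 1) * (N : ℝ) ^ 2 * Real.log T) :=
          mul_le_mul_of_nonneg_left this (by positivity)
      _ = _ := by ring
  have s5 : ∑ P ∈ box N, (if P ∈ Bad f z G N T then
      wt N P * Real.log (rough T (sfp (form f P)) : ℝ) else 0) =
      ∑ P ∈ Bad f z G N T, wt N P * Real.log (rough T (sfp (form f P)) : ℝ) := by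
    rw [← Finset.sum_filter]
    refine Finset.sum_congr ?_ fun _ _ => rfl
    ext P
    rw [Finset.mem_filter]
    refine ⟨fun h => h.2, fun h => ⟨?_, h⟩⟩
    exact Reg_sub (Finset.mem_filter.mp h).1
  rw [s5]
  -- collect the constants
  obtain ⟨A, hA⟩ : ∃ A : ℝ, A = (N : ℝ) ^ 4 := ⟨_, rfl⟩
  obtain ⟨B, hB⟩ : ∃ B : ℝ, B = (N : ℝ) ^ 2 * Real.log N := ⟨_, rfl⟩
  obtain ⟨e, he⟩ : ∃ e : ℝ, e = ((Exc f z G N).card : ℝ) := ⟨_, rfl⟩
  obtain ⟨g, hg⟩ : ∃ g : ℝ, g = ((Good f z G N T).card : ℝ) := ⟨_, rfl⟩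
  have hA0 : 0 ≤ A := by rw [hA]; positivity
  have hB0 : 0 ≤ B := by rw [hB]; positivity
  have he0 : 0 ≤ e := by rw [he]; exact Nat.cast_nonneg _
  have hg0 : 0 ≤ g := by rw [hg]; exact Nat.cast_nonneg _
  rw [← hA] at s0 s1 s4 ⊢
  rw [← hB, ← he] at s2
  rw [← hB, ← hg] at s3
  rw [mul_assoc _ ((N : ℝ) ^ 2) (Real.log N), ← hB, ← he, ← hg]
  obtain ⟨C, hCdef⟩ : ∃ C : ℝ,
    C = 1 + 2 * (r1 + r2) + 2 * r * (K1 + 2 * r2) + (K1 + K2) + 18 * (r + 1) := ⟨_, rfl⟩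
  rw [← hCdef]
  have c1 : 2 * (r1 + r2) * A + 2 * r * (K1 + 2 * r2) * A ≤ C * A := by
    rw [← add_mul]
    refine mul_le_mul_of_nonneg_right ?_ hA0
    rw [hCdef]
    have : 0 ≤ 1 + (K1 + K2) + 18 * (r + 1) := by positivity
    linarith
  have c2 : (K1 + K2) * B * e + (K1 + K2) * B * g ≤ C * B * (e + g) := by
    have h3 : (K1 + K2) ≤ C := by
      rw [hCdef]
      have : 0 ≤ 1 + 2 * (r1 + r2) + 2 * r * (K1 + 2 * r2) + 18 * (r + 1) := by positivity
      linarith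
    have h4 : (K1 + K2) * (B * (e + g)) ≤ C * (B * (e + g)) :=
      mul_le_mul_of_nonneg_right h3 (by positivity)
    calc (K1 + K2) * B * e + (K1 + K2) * B * g = (K1 + K2) * (B * (e + g)) := by ring
      _ ≤ C * (B * (e + g)) := h4
      _ = _ := by ring
  have c3 : 18 * (r + 1) * A * Real.log T ≤ C * A * Real.log T := by
    refine mul_le_mul_of_nonneg_right (mul_le_mul_of_nonneg_right ?_ hA0) hlogT
    rw [hCdef]
    have : 0 ≤ 1 + 2 * (r1 + r2) + 2 * r * (K1 + 2 * r2) + (K1 + K2) := by positivity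
    linarith
  linarith

end Pool.Agent.Helper83.TW
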