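import Pool.Agent.Helper83.TW.L09
import Pool.Agent.Helper83.TW.L10
import Pool.Agent.Helper83.TW.L14
import Pool.Agent.Helper83.TW.L15

/-!
# TW-L16: many squarefree parts, mean value 3

Proof.  Let `C` be the constant of `core_ineq`, `z₀` from `exists_nice`, and `G`, `z` from
`exc_small` with `ε = 1/(8 C)`.  Let `η = 1/(8 C)` (at most `1`; take `min`) and, for large `N`,
`T = floor (N^η)` (so `z <= T <= N`, `log T <= η log N`, `N^(η/2) <= T`).  In `Bad`,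
`rough T .. < N^2` and `log (rough ..) <= 2 log N`, and the sum of the weights is at most `N^4`
(`sum_wt`).  Dividing `core_ineq` by `N^4 log N` and using `hM` with `ε = 1/4`:
`3 - 1/4 <= C / log N + C η + C (ε N^2 + |Good|)/N^2 + 2`, so `|Good| >= N^2/(4 C)` for large `N`.
For `P ∈ Good`: `1 <= gc P <= G`, `N^2 <= rough T (sfp (form f P))`, and by `card_rough` (with
`|form f P| <= N^(r+1)` for large `N`, and `sfp_abs_le`) the number of primes `> T` dividing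
`sfp (form f P)` is at most `k = ceil (2 (r+1)/η)`.  `card_le_image` with `M = N^2` gives
`|Good| <= |image| * r^k * 16 G`, and the image is a subset of `sfs f N`.
-/

set_option autoImplicit false

namespace Pool.Agent.Helper83.TW

open Filter in
private theorem ev_params (C η : ℝ) (hη : 0 < η) (z Cf N1 N2 : ℕ) :
    ∃ N₀ : ℕ, ∀ N : ℕ, N₀ ≤ N → N1 ≤ N ∧ N2 ≤ N ∧ 2 ≤ N ∧ Cf ≤ N ∧
      4 * C ≤ Real.log (N : ℝ) ∧ (2 : ℝ) ≤ (N : ℝ) ^ (η / 2) ∧ (z : ℝ) ≤ (N : ℝ) ^ η := by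
  have h1 : Tendsto (fun N : ℕ => Real.log (N : ℝ)) atTop atTop :=
    Real.tendsto_log_atTop.comp tendsto_natCast_atTop_atTop
  have h2 : Tendsto (fun N : ℕ => (N : ℝ) ^ (η / 2)) atTop atTop :=
    (tendsto_rpow_atTop (by positivity)).comp tendsto_natCast_atTop_atTop
  have h3 : Tendsto (fun N : ℕ => (N : ℝ) ^ η) atTop atTop :=
    (tendsto_rpow_atTop hη).comp tendsto_natCast_atTop_atTop
  have e := (((((((eventually_ge_atTop N1).and (eventually_ge_atTop N2)).and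
    (eventually_ge_atTop 2)).and (eventually_ge_atTop Cf)).and
    (h1.eventually (eventually_ge_atTop (4 * C)))).and
    (h2.eventually (eventually_ge_atTop 2))).and
    (h3.eventually (eventually_ge_atTop (z : ℝ))))
  obtain ⟨N₀, hN₀⟩ := eventually_atTop.1 e
  refine ⟨N₀, fun N hN => ?_⟩
  obtain ⟨⟨⟨⟨⟨⟨a, b⟩, c⟩, d⟩, e⟩, g⟩, h⟩ := hN₀ N hN
  exact ⟨a, b, c, d, e, g, h⟩

private theorem sum_bad (f : Polynomial ℤ) (z G N T : ℕ) (hN : 2 ≤ N) :
    ∑ P ∈ Bad f z G N T, wt N P * Real.log (rough T (sfp (form f P)) : ℝ) ≤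
      (N : ℝ) ^ 4 * (2 * Real.log (N : ℝ)) := by
  have hN0 : (2 : ℝ) ≤ N := by exact_mod_cast hN
  have hlog : 0 ≤ Real.log (N : ℝ) := Real.log_nonneg (by linarith)
  have hsub : Bad f z G N T ⊆ box N := (Finset.filter_subset _ _).trans Reg_sub
  calc ∑ P ∈ Bad f z G N T, wt N P * Real.log (rough T (sfp (form f P)) : ℝ)
      ≤ ∑ P ∈ Bad f z G N T, wt N P * (2 * Real.log (N : ℝ)) := by
        refine Finset.sum_le_sum fun P hP => ?_
        refine mul_le_mul_of_nonneg_left ?_ (wt_nonneg (hsub hP))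
        have h1 : rough T (sfp (form f P)) < N ^ 2 := (Finset.mem_filter.1 hP).2
        have h2 : (1 : ℝ) ≤ (rough T (sfp (form f P)) : ℝ) := by
          exact_mod_cast rough_pos T _
        have h3 : (rough T (sfp (form f P)) : ℝ) ≤ (N : ℝ) ^ 2 := by exact_mod_cast h1.le
        calc Real.log (rough T (sfp (form f P)) : ℝ) ≤ Real.log ((N : ℝ) ^ 2) :=
              Real.log_le_log (by linarith) h3
          _ = 2 * Real.log (N : ℝ) := by rw [Real.log_pow]; norm_num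
    _ = (∑ P ∈ Bad f z G N T, wt N P) * (2 * Real.log (N : ℝ)) := by rw [Finset.sum_mul]
    _ ≤ (∑ P ∈ box N, wt N P) * (2 * Real.log (N : ℝ)) := by
        refine mul_le_mul_of_nonneg_right ?_ (by positivity)
        exact Finset.sum_le_sum_of_subset_of_nonneg hsub fun P hP _ => wt_nonneg hP
    _ = (N : ℝ) ^ 4 * (2 * Real.log (N : ℝ)) := by rw [sum_wt]

private theorem good_large {C η L N E Gd R2 T S : ℝ} (hC : 1 ≤ C) (hη : C * η = 1 / 8)
    (hL : 4 * C ≤ L) (hN : 2 ≤ N) (hE : E ≤ 1 / (8 * C) * N ^ 2) (hT : T ≤ η * L)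
    (hS : S ≤ N ^ 4 * (2 * L)) (hR : (3 - 1 / 4) * L ≤ R2)
    (hcore : N ^ 4 * R2 ≤ C * N ^ 4 + C * N ^ 4 * T + C * N ^ 2 * L * (E + Gd) + S) :
    1 / (4 * C) * N ^ 2 ≤ Gd := by
  have hL0 : 0 < L := by linarith
  have hN2 : 0 < N ^ 2 := by positivity
  have hN4 : 0 < N ^ 4 := by positivity
  have h1 : C * N ^ 4 * T ≤ 1 / 8 * (N ^ 4 * L) := by
    calc C * N ^ 4 * T ≤ C * N ^ 4 * (η * L) :=
          mul_le_mul_of_nonneg_left hT (by positivity)
      _ = (C * η) * (N ^ 4 * L) := by ring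
      _ = 1 / 8 * (N ^ 4 * L) := by rw [hη]
  have h2 : C * N ^ 2 * L * E ≤ 1 / 8 * (N ^ 4 * L) := by
    calc C * N ^ 2 * L * E ≤ C * N ^ 2 * L * (1 / (8 * C) * N ^ 2) :=
          mul_le_mul_of_nonneg_left hE (by positivity)
      _ = 1 / 8 * (N ^ 4 * L) := by field_simp
  have h3 : N ^ 4 * ((3 - 1 / 4) * L) ≤ N ^ 4 * R2 := mul_le_mul_of_nonneg_left hR hN4.le
  have h4 : C * N ^ 4 ≤ 1 / 4 * (N ^ 4 * L) := by nlinarith
  have h5 : 1 / 4 * (N ^ 4 * L) ≤ C * N ^ 2 * L * Gd := by nlinarith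
  have h6 : (C * N ^ 2 * L) * (1 / (4 * C) * N ^ 2) ≤ (C * N ^ 2 * L) * Gd := by
    calc (C * N ^ 2 * L) * (1 / (4 * C) * N ^ 2) = 1 / 4 * (N ^ 4 * L) := by field_simp
      _ ≤ _ := h5
  exact le_of_mul_le_mul_left h6 (by positivity)

theorem core_three (f h1 h2 : Polynomial ℤ) (hf : 1 ≤ f.natDegree)
    (hs : (f.map (Int.castRingHom ℚ)).Separable) (hdvd : h1 * h2 ∣ f)
    (hz1 : ∀ P : ℤ × ℤ, P ≠ 0 → form h1 P ≠ 0)
    (hM : ∀ ε : ℝ, 0 < ε → ∀ z : ℕ, ∃ N₀ : ℕ, ∀ N : ℕ, N₀ ≤ N →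
      (3 - ε) * Real.log (N : ℝ) ≤ R h1 z (N ^ 2) + R h2 z N) :
    ∃ c : ℝ, 0 < c ∧ ∃ N₀ : ℕ, ∀ N : ℕ, N₀ ≤ N → c * (N : ℝ) ^ 2 ≤ ((sfs f N).card : ℝ) := by
  obtain ⟨C0, hC0, hcore⟩ := core_ineq f h1 h2 hf hdvd hz1
  set C : ℝ := max C0 1 with hCdef
  have hC1 : 1 ≤ C := le_max_right _ _
  have hCC : C0 ≤ C := le_max_left _ _
  have hCpos : 0 < C := by linarith
  obtain ⟨z₀, hz₀⟩ := exists_nice f hs
  obtain ⟨G, z, hG1, hGz, hzz, hexc⟩ := exc_small f z₀ hz₀ (1 / (8 * C)) (by positivity)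
  obtain ⟨N1, hN1⟩ := hexc z le_rfl
  obtain ⟨N2, hN2⟩ := hM (1 / 4) (by norm_num) z
  obtain ⟨Cf, hCf, hform⟩ := form_abs_le f
  set η : ℝ := 1 / (8 * C) with hηdef
  have hη : 0 < η := by positivity
  have hCη : C * η = 1 / 8 := by rw [hηdef]; field_simp
  have hη1 : η ≤ 1 := by
    rw [hηdef, div_le_one (by positivity)]; linarith
  obtain ⟨N₀, hN₀⟩ := ev_params C η hη z Cf N1 N2
  set k : ℕ := ⌈((f.natDegree + 1 : ℕ) : ℝ) / (η / 2)⌉₊ with hk
  have hr : (1 : ℝ) ≤ (f.natDegree : ℝ) := by exact_mod_cast hf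
  have hrk : (0 : ℝ) < (f.natDegree : ℝ) ^ k := by positivity
  have hGpos : (0 : ℝ) < (G : ℝ) := by exact_mod_cast hG1
  refine ⟨1 / (4 * C) / ((f.natDegree : ℝ) ^ k * (16 * G)), by positivity, N₀, fun N hN => ?_⟩
  obtain ⟨ha, hb, hc, hd, he, hg, hh⟩ := hN₀ N hN
  have hN0 : (2 : ℝ) ≤ N := by exact_mod_cast hc
  have hNpos : (0 : ℝ) < N := by linarith
  set T : ℕ := ⌊(N : ℝ) ^ η⌋₊ with hTdef
  have hpow0 : (0 : ℝ) ≤ (N : ℝ) ^ η := Real.rpow_nonneg hNpos.le _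
  have hzT : z ≤ T := Nat.le_floor hh
  have hTle : (T : ℝ) ≤ (N : ℝ) ^ η := Nat.floor_le hpow0
  have hTN : T ≤ N := by
    have : (T : ℝ) ≤ N := by
      calc (T : ℝ) ≤ (N : ℝ) ^ η := hTle
        _ ≤ (N : ℝ) ^ (1 : ℝ) := Real.rpow_le_rpow_of_exponent_le (by linarith) hη1
        _ = N := Real.rpow_one _
    exact_mod_cast this
  have hhalf : (N : ℝ) ^ (η / 2) ≤ T := by
    have h1 : (N : ℝ) ^ η = (N : ℝ) ^ (η / 2) * (N : ℝ) ^ (η / 2) := by
      rw [← Real.rpow_add hNpos]; congr 1; ring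
    have h2 : (N : ℝ) ^ η < (T : ℝ) + 1 := Nat.lt_floor_add_one _
    nlinarith
  have hT1 : 1 ≤ T := by
    have : (2 : ℝ) ≤ T := hg.trans hhalf
    have : 2 ≤ T := by exact_mod_cast this
    omega
  have hTpos : (0 : ℝ) < T := by exact_mod_cast hT1
  have hlogT : Real.log (T : ℝ) ≤ η * Real.log (N : ℝ) := by
    calc Real.log (T : ℝ) ≤ Real.log ((N : ℝ) ^ η) := Real.log_le_log hTpos hTle
      _ = η * Real.log (N : ℝ) := Real.log_rpow hNpos _
  have hlogT0 : 0 ≤ Real.log (T : ℝ) := Real.log_nonneg (by exact_mod_cast hT1)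
  have hlogN : 0 ≤ Real.log (N : ℝ) := Real.log_nonneg (by linarith)
  have hnice : Nice f z := hz₀ z hzz
  have hmain := hcore z G hnice hG1 hGz N T hc hT1 hzT hTN
  have hmain' : (N : ℝ) ^ 4 * (R h1 z (N ^ 2) + R h2 z N) ≤
        C * (N : ℝ) ^ 4 + C * (N : ℝ) ^ 4 * Real.log (T : ℝ) +
        C * (N : ℝ) ^ 2 * Real.log (N : ℝ) *
          (((Exc f z G N).card : ℝ) + ((Good f z G N T).card : ℝ)) +
        ∑ P ∈ Bad f z G N T, wt N P * Real.log (rough T (sfp (form f P)) : ℝ) := by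
    refine hmain.trans ?_
    gcongr
  have hgood := good_large hC1 hCη he hN0 (hN1 N ha) hlogT (sum_bad f z G N T hc) (hN2 N hb) hmain'
  -- the multiplicity bound
  have hGr : Good f z G N T ⊆ Reg f z G N := Finset.filter_subset _ _
  have hGb : Good f z G N T ⊆ box N := hGr.trans Reg_sub
  have hprop : ∀ P ∈ Good f z G N T, P.1 ≠ 0 ∧ gc P ≤ G ∧ form f P ≠ 0 := by
    intro P hP
    have := (Finset.mem_filter.1 (hGr hP)).2
    exact ⟨this.1, this.2.1, this.2.2.1⟩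
  have himg := card_le_image f z G N T k ((N : ℝ) ^ 2) (by positivity) hnice hf hGz hzT
    (by omega) (Good f z G N T) hGb
    (fun P hP => ⟨gc_pos (hprop P hP).1, (hprop P hP).2.1⟩)
    (fun P hP => (hprop P hP).2.2)
    (fun P hP => by
      have h0 : form f P ≠ 0 := (hprop P hP).2.2
      have hb1 : |((sfp (form f P) : ℤ) : ℝ)| ≤ (N : ℝ) ^ (f.natDegree + 1) := by
        have e1 : |sfp (form f P)| ≤ Cf * (N : ℤ) ^ f.natDegree :=
          (sfp_abs_le _).trans (hform N P (hGb hP))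
        have e2 : (Cf : ℤ) * (N : ℤ) ^ f.natDegree ≤ (N : ℤ) ^ (f.natDegree + 1) := by
          rw [pow_succ, mul_comm]
          exact mul_le_mul_of_nonneg_left (by exact_mod_cast hd) (by positivity)
        exact_mod_cast e1.trans e2
      have := card_rough (sfp (form f P)) (sfp_ne_zero _ h0) N T (f.natDegree + 1) (η / 2)
        (by positivity) hc hhalf hb1
      exact_mod_cast this.trans (Nat.le_ceil _))
    (fun P hP => by
      have : N ^ 2 ≤ rough T (sfp (form f P)) := (Finset.mem_filter.1 hP).2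
      exact_mod_cast this)
  have hsub : (Good f z G N T).image (fun P => sfp (form f P)) ⊆ sfs f N := by
    intro d hd'
    obtain ⟨P, hP, rfl⟩ := Finset.mem_image.1 hd'
    exact Finset.mem_image.2 ⟨P, Finset.mem_filter.2
      ⟨hGb hP, (hprop P hP).1, (hprop P hP).2.2⟩, rfl⟩
  have hcard : (((Good f z G N T).image (fun P => sfp (form f P))).card : ℝ) ≤
      ((sfs f N).card : ℝ) := by exact_mod_cast Finset.card_le_card hsub
  have hself : (N : ℝ) ^ 2 / (N : ℝ) ^ 2 = 1 := div_self (by positivity)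
  rw [hself] at himg
  have hfin : 1 / (4 * C) * (N : ℝ) ^ 2 ≤
      ((sfs f N).card : ℝ) * ((f.natDegree : ℝ) ^ k * (16 * G)) := by
    calc 1 / (4 * C) * (N : ℝ) ^ 2 ≤ ((Good f z G N T).card : ℝ) := hgood
      _ ≤ _ := himg
      _ = (((Good f z G N T).image (fun P => sfp (form f P))).card : ℝ) *
          ((f.natDegree : ℝ) ^ k * (16 * G)) := by ring
      _ ≤ _ := mul_le_mul_of_nonneg_right hcard (by positivity)
  rw [div_mul_eq_mul_div, div_le_iff₀ (by positivity)]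
  exact hfin

end Pool.Agent.Helper83.TW
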