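import Pool.Agent.Helper83.TW.L09
import Pool.Agent.Helper83.TW.L10
import Pool.Agent.Helper83.TW.L14
import Pool.Agent.Helper83.TW.L15

/-!
# TW-L17: the dichotomy, mean value 2

Proof.  Let `κ ∈ (0, 1)` (the statement for larger `κ` follows from `κ = 1/2`), `C >= 1` the constant
of `core_ineq`, `κ' = κ/4`, `ε1 = κ'/(32 C)` etc.  Choose `G`, `z` from `exc_small` with `ε1`, and
`η` small (`C η <= κ'/32` and `18 (r+1) η <= κ'/32`), `T = floor (N^η)`, `c0 = κ'/(32 C)`.  If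
`|Good| >= c0 N^2` conclude as in `core_three`.  Otherwise `core_ineq` and `hM` with `ε1` give, for
large `N`, `sum_{Bad} wt * log (rough) >= (2 - κ'/4) N^4 log N`.  In `Bad` `log (rough) < 2 log N` and
the total weight is at most `N^4`; splitting `Bad` at `log (rough) >= (2 - κ') log N`, the total
weight of that part `Bad1` is at least `(3/4) N^4`, so `|Bad1| >= (3/4) N^2` (`wt_le`).  By `V_mean`
and Markov, at most `N^2/4` points have `V f z T P > κ' log N`.  So at least `N^2/2` points `P` of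
`Bad1` have `V f z T P <= κ' log N`; for them `rough >= N^(2-κ')`, and
`|sfp (form f P)| <= N^2 * primorial z * N^κ' <= N^(2+κ)` (`sfp_abs_le_rough`).  `card_le_image`
with `M = N^(2-κ')` gives `N^2/2 <= |image| * C' * N^κ'`, so `|image| >= N^(2-κ)` for large `N`.
-/

set_option autoImplicit false

namespace Pool.Agent.Helper83.TW

open Filter Topology

private theorem l17_T (N z : ℕ) (η : ℝ) (hη1 : η ≤ 1) (hN : 2 ≤ N)
    (h2 : 2 ≤ (N : ℝ) ^ (η / 2)) (hz : (z : ℝ) ≤ (N : ℝ) ^ (η / 2)) :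
    1 ≤ ⌊(N : ℝ) ^ η⌋₊ ∧ z ≤ ⌊(N : ℝ) ^ η⌋₊ ∧ ⌊(N : ℝ) ^ η⌋₊ ≤ N ∧
      Real.log ((⌊(N : ℝ) ^ η⌋₊ : ℕ) : ℝ) ≤ η * Real.log (N : ℝ) ∧
      (N : ℝ) ^ (η / 2) ≤ ((⌊(N : ℝ) ^ η⌋₊ : ℕ) : ℝ) := by
  have hN0 : (0 : ℝ) < N := by exact_mod_cast (by omega : 0 < N)
  have hN1 : (1 : ℝ) ≤ N := by exact_mod_cast (by omega : 1 ≤ N)
  set y : ℝ := (N : ℝ) ^ (η / 2) with hy
  have hsq : (N : ℝ) ^ η = y * y := by
    rw [hy, ← Real.rpow_add hN0]
    congr 1
    ring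
  have hlt : (N : ℝ) ^ η < ((⌊(N : ℝ) ^ η⌋₊ : ℕ) : ℝ) + 1 := Nat.lt_floor_add_one _
  have hpos : (0 : ℝ) ≤ (N : ℝ) ^ η := (Real.rpow_pos_of_pos hN0 η).le
  have hle : ((⌊(N : ℝ) ^ η⌋₊ : ℕ) : ℝ) ≤ (N : ℝ) ^ η := Nat.floor_le hpos
  have hyT : y ≤ ((⌊(N : ℝ) ^ η⌋₊ : ℕ) : ℝ) := by
    have : y + 1 ≤ y * y := by nlinarith
    rw [hsq] at hlt ⊢
    linarith
  have hT1 : (1 : ℝ) ≤ ((⌊(N : ℝ) ^ η⌋₊ : ℕ) : ℝ) := by linarith
  refine ⟨by exact_mod_cast hT1, ?_, ?_, ?_, hyT⟩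
  · have : (z : ℝ) ≤ ((⌊(N : ℝ) ^ η⌋₊ : ℕ) : ℝ) := hz.trans hyT
    exact_mod_cast this
  · have h3 : (N : ℝ) ^ η ≤ (N : ℝ) ^ (1 : ℝ) := Real.rpow_le_rpow_of_exponent_le hN1 hη1
    rw [Real.rpow_one] at h3
    have : ((⌊(N : ℝ) ^ η⌋₊ : ℕ) : ℝ) ≤ (N : ℝ) := hle.trans h3
    exact_mod_cast this
  · rw [← Real.log_rpow hN0]
    exact Real.log_le_log (by linarith) hle

private theorem l17_card (f : Polynomial ℤ) (Cf : ℕ)
    (hCf : ∀ (N : ℕ) (P : ℤ × ℤ), P ∈ box N → |form f P| ≤ Cf * (N : ℤ) ^ f.natDegree)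
    (N T : ℕ) (η : ℝ) (hη : 0 < η) (hN : 2 ≤ N) (hCN : Cf ≤ N)
    (hT : (N : ℝ) ^ (η / 2) ≤ T) (P : ℤ × ℤ) (hP : P ∈ box N) (h0 : form f P ≠ 0) :
    ((sfp (form f P)).natAbs.primeFactors.filter (fun p => T < p)).card ≤
      ⌈((f.natDegree : ℝ) + 1) / (η / 2)⌉₊ := by
  have hb : |((sfp (form f P) : ℤ) : ℝ)| ≤ (N : ℝ) ^ (f.natDegree + 1) := by
    have h1 : |sfp (form f P)| ≤ Cf * (N : ℤ) ^ f.natDegree := (sfp_abs_le _).trans (hCf N P hP)
    have h2 : (Cf : ℤ) * (N : ℤ) ^ f.natDegree ≤ (N : ℤ) ^ (f.natDegree + 1) := by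
      rw [pow_succ, mul_comm]
      have : (Cf : ℤ) ≤ (N : ℤ) := by exact_mod_cast hCN
      exact mul_le_mul_of_nonneg_left this (by positivity)
    have h3 : |sfp (form f P)| ≤ (N : ℤ) ^ (f.natDegree + 1) := h1.trans h2
    exact_mod_cast h3
  have h4 := card_rough (sfp (form f P)) (sfp_ne_zero _ h0) N T (f.natDegree + 1) (η / 2)
    (by linarith) hN hT hb
  have h5 : (((sfp (form f P)).natAbs.primeFactors.filter (fun p => T < p)).card : ℝ) ≤
      ((⌈((f.natDegree : ℝ) + 1) / (η / 2)⌉₊ : ℕ) : ℝ) := by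
    refine h4.trans ?_
    push_cast
    exact Nat.le_ceil _
  exact_mod_cast h5

/-- regular points: basic facts -/
private theorem l17_reg {f : Polynomial ℤ} {z G N : ℕ} {P : ℤ × ℤ} (h : P ∈ Reg f z G N) :
    P ∈ box N ∧ P.1 ≠ 0 ∧ 1 ≤ gc P ∧ gc P ≤ G ∧ form f P ≠ 0 := by
  unfold Reg at h
  rw [Finset.mem_filter] at h
  exact ⟨h.1, h.2.1, gc_pos h.2.1, h.2.2.1, h.2.2.2.1⟩

private theorem l17_img {f : Polynomial ℤ} {z G N : ℕ} (S : Finset (ℤ × ℤ))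
    (hS : S ⊆ Reg f z G N) : S.image (fun P => sfp (form f P)) ⊆ sfs f N := by
  intro d hd
  rw [Finset.mem_image] at hd
  obtain ⟨P, hP, rfl⟩ := hd
  obtain ⟨h1, h2, -, -, h5⟩ := l17_reg (hS hP)
  unfold sfs
  exact Finset.mem_image_of_mem _ (Finset.mem_filter.mpr ⟨h1, h2, h5⟩)

/-- the weighted splitting of the bad points -/
private theorem l17_split (N : ℕ) (S : Finset (ℤ × ℤ)) (hS : S ⊆ box N) (g : ℤ × ℤ → ℝ) (L δ : ℝ)
    (hL : 0 < L) (hδ : 0 < δ) (hδ2 : δ ≤ 2) (hg : ∀ P ∈ S, g P ≤ 2 * L)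
    (hsum : (2 - δ / 4) * ((N : ℝ) ^ 4 * L) ≤ ∑ P ∈ S, wt N P * g P) (hN : 0 < N) :
    (3 / 4 : ℝ) * (N : ℝ) ^ 2 ≤ ((S.filter (fun P => (2 - δ) * L ≤ g P)).card : ℝ) := by
  classical
  have hNr : (0 : ℝ) < N := by exact_mod_cast hN
  set S1 := S.filter (fun P => (2 - δ) * L ≤ g P) with hS1
  set S2 := S.filter (fun P => ¬ (2 - δ) * L ≤ g P) with hS2
  have hw : ∀ P ∈ S, 0 ≤ wt N P := fun P hP => wt_nonneg (hS hP)
  have e1 : ∑ P ∈ S, wt N P * g P = ∑ P ∈ S1, wt N P * g P + ∑ P ∈ S2, wt N P * g P :=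
    (Finset.sum_filter_add_sum_filter_not S _ _).symm
  have e2 : ∑ P ∈ S, wt N P = ∑ P ∈ S1, wt N P + ∑ P ∈ S2, wt N P :=
    (Finset.sum_filter_add_sum_filter_not S _ _).symm
  have i1 : ∑ P ∈ S1, wt N P * g P ≤ (∑ P ∈ S1, wt N P) * (2 * L) := by
    rw [Finset.sum_mul]
    refine Finset.sum_le_sum fun P hP => ?_
    have hPS := (Finset.mem_filter.mp hP).1
    exact mul_le_mul_of_nonneg_left (hg P hPS) (hw P hPS)
  have i2 : ∑ P ∈ S2, wt N P * g P ≤ (∑ P ∈ S2, wt N P) * ((2 - δ) * L) := by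
    rw [Finset.sum_mul]
    refine Finset.sum_le_sum fun P hP => ?_
    have hPS := (Finset.mem_filter.mp hP).1
    have h2 := (Finset.mem_filter.mp hP).2
    exact mul_le_mul_of_nonneg_left (not_le.mp h2).le (hw P hPS)
  have i3 : ∑ P ∈ S, wt N P ≤ (N : ℝ) ^ 4 := by
    rw [← sum_wt N]
    exact Finset.sum_le_sum_of_subset_of_nonneg hS fun P hP _ => wt_nonneg hP
  have i4 : ∑ P ∈ S1, wt N P ≤ (S1.card : ℝ) * (N : ℝ) ^ 2 := by
    have : ∑ P ∈ S1, wt N P ≤ ∑ _P ∈ S1, (N : ℝ) ^ 2 :=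
      Finset.sum_le_sum fun P hP => wt_le (hS (Finset.mem_filter.mp hP).1)
    rwa [Finset.sum_const, nsmul_eq_mul] at this
  set W1 := ∑ P ∈ S1, wt N P with hW1
  set W2 := ∑ P ∈ S2, wt N P with hW2
  have hW : W1 + W2 ≤ (N : ℝ) ^ 4 := by rw [← e2]; exact i3
  have h3 : (2 - δ / 4) * ((N : ℝ) ^ 4 * L) ≤ W1 * (2 * L) + W2 * ((2 - δ) * L) := by
    linarith
  have h4 : W1 * (2 * L) + W2 * ((2 - δ) * L) =
      (W1 + W2) * ((2 - δ) * L) + δ * L * W1 := by ring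
  have h5 : (W1 + W2) * ((2 - δ) * L) ≤ (N : ℝ) ^ 4 * ((2 - δ) * L) :=
    mul_le_mul_of_nonneg_right hW (mul_nonneg (by linarith) hL.le)
  have h6 : δ * L * ((3 / 4) * (N : ℝ) ^ 4) ≤ δ * L * W1 := by nlinarith
  have h7 : (3 / 4) * (N : ℝ) ^ 4 ≤ W1 := le_of_mul_le_mul_left h6 (mul_pos hδ hL)
  have h8 : (3 / 4) * (N : ℝ) ^ 2 * (N : ℝ) ^ 2 ≤ (S1.card : ℝ) * (N : ℝ) ^ 2 := by
    have : (3 / 4) * (N : ℝ) ^ 2 * (N : ℝ) ^ 2 = (3 / 4) * (N : ℝ) ^ 4 := by ring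
    rw [this]
    linarith
  exact le_of_mul_le_mul_right h8 (by positivity)

/-- Markov -/
private theorem l17_markov (N : ℕ) (V : ℤ × ℤ → ℝ) (hV : ∀ P ∈ box N, 0 ≤ V P) (A B a : ℝ)
    (ha : 0 < a) (hs : ∑ P ∈ box N, V P ≤ A) (hA : A ≤ a * B) :
    (((box N).filter (fun P => a < V P)).card : ℝ) ≤ B := by
  classical
  have h1 : ∑ P ∈ (box N).filter (fun P => a < V P), a ≤
      ∑ P ∈ (box N).filter (fun P => a < V P), V P :=
    Finset.sum_le_sum fun P hP => (Finset.mem_filter.mp hP).2.le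
  have h2 : ∑ P ∈ (box N).filter (fun P => a < V P), V P ≤ ∑ P ∈ box N, V P :=
    Finset.sum_le_sum_of_subset_of_nonneg (Finset.filter_subset _ _) fun P hP _ => hV P hP
  rw [Finset.sum_const, nsmul_eq_mul] at h1
  have h3 : (((box N).filter (fun P => a < V P)).card : ℝ) * a ≤ B * a := by linarith
  exact le_of_mul_le_mul_right h3 ha

private theorem l17_small (f h1 h2 : Polynomial ℤ) (hf : 1 ≤ f.natDegree)
    (hs : (f.map (Int.castRingHom ℚ)).Separable) (hdvd : h1 * h2 ∣ f)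
    (hz1 : ∀ P : ℤ × ℤ, P ≠ 0 → form h1 P ≠ 0)
    (hM : ∀ ε : ℝ, 0 < ε → ∀ z : ℕ, ∃ N₀ : ℕ, ∀ N : ℕ, N₀ ≤ N →
      (2 - ε) * Real.log (N : ℝ) ≤ R h1 z (N ^ 2) + R h2 z N) (κ : ℝ) (hκ : 0 < κ)
    (hκ1 : κ ≤ 1 / 2) :
    ∃ c : ℝ, 0 < c ∧ ∃ N₀ : ℕ, ∀ N : ℕ, N₀ ≤ N →
      c * (N : ℝ) ^ 2 ≤ ((sfs f N).card : ℝ) ∨
      (N : ℝ) ^ (2 - κ) ≤
        (((sfs f N).filter (fun d : ℤ => |(d : ℝ)| ≤ (N : ℝ) ^ (2 + κ))).card : ℝ) := by
  classical
  obtain ⟨C, hC, hcore⟩ := core_ineq f h1 h2 hf hdvd hz1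
  obtain ⟨z₀, hz₀⟩ := exists_nice f hs
  obtain ⟨Cf, hCf0, hCf⟩ := form_abs_le f
  set r : ℕ := f.natDegree with hr
  set δ : ℝ := κ / 4 with hδ
  have hδ0 : 0 < δ := by positivity
  set ε : ℝ := δ / (32 * C) with hε
  have hε0 : 0 < ε := by positivity
  obtain ⟨G, z, hG1, hGz, hz₀z, hexc⟩ := exc_small f z₀ hz₀ ε hε0
  have hnice : Nice f z := hz₀ z hz₀z
  obtain ⟨N₁, hN₁⟩ := hexc z le_rfl
  obtain ⟨N₂, hN₂⟩ := hM (δ / 32) (by positivity) z
  have hrr : (0 : ℝ) < (r : ℝ) + 1 := by positivity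
  set η : ℝ := min 1 (min (δ / (32 * C)) (δ / (72 * ((r : ℝ) + 1)))) with hη
  have hη0 : 0 < η := lt_min one_pos (lt_min (by positivity) (by positivity))
  have hη1 : η ≤ 1 := min_le_left _ _
  have hη2 : C * η ≤ δ / 32 := by
    have h3 : η ≤ δ / (32 * C) := (min_le_right _ _).trans (min_le_left _ _)
    calc C * η ≤ C * (δ / (32 * C)) := mul_le_mul_of_nonneg_left h3 hC.le
      _ = δ / 32 := by field_simp
  have hη3 : 18 * ((r : ℝ) + 1) * η ≤ δ / 4 := by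
    have h3 : η ≤ δ / (72 * ((r : ℝ) + 1)) := (min_le_right _ _).trans (min_le_right _ _)
    calc 18 * ((r : ℝ) + 1) * η ≤ 18 * ((r : ℝ) + 1) * (δ / (72 * ((r : ℝ) + 1))) :=
          mul_le_mul_of_nonneg_left h3 (by positivity)
      _ = δ / 4 := by field_simp; ring
  set k : ℕ := ⌈((r : ℝ) + 1) / (η / 2)⌉₊ with hk
  set K : ℝ := (r : ℝ) ^ k * (8 * G * 2) with hK
  have hr1 : (1 : ℝ) ≤ (r : ℝ) := by exact_mod_cast hf
  have hGr : (1 : ℝ) ≤ (G : ℝ) := by exact_mod_cast hG1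
  have hK0 : 0 < K := by
    have : (0 : ℝ) < (r : ℝ) ^ k := pow_pos (by linarith) k
    positivity
  -- largeness conditions
  have tcast : Tendsto (fun N : ℕ => (N : ℝ)) atTop atTop := tendsto_natCast_atTop_atTop
  have tlog : Tendsto (fun N : ℕ => Real.log (N : ℝ)) atTop atTop :=
    Real.tendsto_log_atTop.comp tcast
  have tη : Tendsto (fun N : ℕ => (N : ℝ) ^ (η / 2)) atTop atTop :=
    (tendsto_rpow_atTop (by linarith)).comp tcast
  have tκ : Tendsto (fun N : ℕ => (N : ℝ) ^ (κ - δ)) atTop atTop :=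
    (tendsto_rpow_atTop (by rw [hδ]; linarith)).comp tcast
  have ev : ∀ᶠ N : ℕ in atTop, 2 ≤ N ∧ N₁ ≤ N ∧ N₂ ≤ N ∧ Cf ≤ N ∧
      C * 32 / δ ≤ Real.log (N : ℝ) ∧ 2 ≤ (N : ℝ) ^ (η / 2) ∧ (z : ℝ) ≤ (N : ℝ) ^ (η / 2) ∧
      (primorial z : ℝ) ≤ (N : ℝ) ^ (κ - δ) ∧ 2 * K ≤ (N : ℝ) ^ (κ - δ) := by
    filter_upwards [eventually_ge_atTop 2, eventually_ge_atTop N₁, eventually_ge_atTop N₂,
      eventually_ge_atTop Cf, tlog.eventually_ge_atTop (C * 32 / δ),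
      tη.eventually_ge_atTop 2, tη.eventually_ge_atTop (z : ℝ),
      tκ.eventually_ge_atTop (primorial z : ℝ), tκ.eventually_ge_atTop (2 * K)]
      with N a1 a2 a3 a4 a5 a6 a7 a8 a9
    exact ⟨a1, a2, a3, a4, a5, a6, a7, a8, a9⟩
  obtain ⟨N₀, hN₀⟩ := eventually_atTop.mp ev
  refine ⟨ε / K, by positivity, N₀, fun N hN => ?_⟩
  obtain ⟨a1, a2, a3, a4, a5, a6, a7, a8, a9⟩ := hN₀ N hN
  have hNpos : 0 < N := by omega
  have hNr : (0 : ℝ) < N := by exact_mod_cast hNpos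
  have hNr1 : (1 : ℝ) ≤ N := by exact_mod_cast hNpos
  have hL : 0 < Real.log (N : ℝ) := Real.log_pos (by exact_mod_cast (by omega : 1 < N))
  set L : ℝ := Real.log (N : ℝ) with hLdef
  obtain ⟨t1, t2, t3, t4, t5⟩ := l17_T N z η hη1 a1 a6 a7
  set T : ℕ := ⌊(N : ℝ) ^ η⌋₊ with hT
  have hcardk : ∀ P ∈ Reg f z G N,
      ((sfp (form f P)).natAbs.primeFactors.filter (fun p => T < p)).card ≤ k := by
    intro P hP
    obtain ⟨b1, -, -, -, b5⟩ := l17_reg hP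
    exact l17_card f Cf hCf N T η hη0 a1 a4 t5 P b1 b5
  by_cases hgood : ε * (N : ℝ) ^ 2 ≤ ((Good f z G N T).card : ℝ)
  · -- many good points
    left
    have hsub : Good f z G N T ⊆ Reg f z G N := Finset.filter_subset _ _
    have h3 := card_le_image f z G N T k ((N : ℝ) ^ 2) (by positivity) hnice hf hGz t2 hNpos
      (Good f z G N T) (hsub.trans Reg_sub)
      (fun P hP => ⟨(l17_reg (hsub hP)).2.2.1, (l17_reg (hsub hP)).2.2.2.1⟩)
      (fun P hP => (l17_reg (hsub hP)).2.2.2.2)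
      (fun P hP => hcardk P (hsub hP))
      (fun P hP => by
        have := (Finset.mem_filter.mp hP).2
        exact_mod_cast this)
    have h4 : (N : ℝ) ^ 2 / (N : ℝ) ^ 2 = 1 := div_self (by positivity)
    rw [h4] at h3
    have h5 : (((Good f z G N T).image (fun P => sfp (form f P))).card : ℝ) ≤
        ((sfs f N).card : ℝ) := by
      exact_mod_cast Finset.card_le_card (l17_img _ hsub)
    have h6 : ((Good f z G N T).card : ℝ) ≤ ((sfs f N).card : ℝ) * K := by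
      refine h3.trans ?_
      rw [show (r : ℝ) ^ k * (8 * (G : ℝ) * (1 + 1)) = K by rw [hK]; ring]
      exact mul_le_mul_of_nonneg_right h5 hK0.le
    rw [div_mul_eq_mul_div, div_le_iff₀ hK0]
    linarith
  · right
    have hgood' : ((Good f z G N T).card : ℝ) ≤ ε * (N : ℝ) ^ 2 := (not_le.mp hgood).le
    have hcor := hcore z G hnice hG1 hGz N T a1 t1 t2 t3
    have hMN := hN₂ N a3
    have hE := hN₁ N a2
    have hbsub : Bad f z G N T ⊆ Reg f z G N := Finset.filter_subset _ _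
    -- lower bound for the weighted sum over the bad points
    have hsum : (2 - δ / 4) * ((N : ℝ) ^ 4 * L) ≤
        ∑ P ∈ Bad f z G N T, wt N P * Real.log (rough T (sfp (form f P)) : ℝ) := by
      have j1 : (N : ℝ) ^ 4 * ((2 - δ / 32) * L) ≤ (N : ℝ) ^ 4 * (R h1 z (N ^ 2) + R h2 z N) :=
        mul_le_mul_of_nonneg_left hMN (by positivity)
      have j2 : C * (N : ℝ) ^ 4 ≤ δ / 32 * ((N : ℝ) ^ 4 * L) := by
        have : C ≤ δ / 32 * L := by
          have h7 : C * 32 / δ * (δ / 32) ≤ L * (δ / 32) :=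
            mul_le_mul_of_nonneg_right a5 (by positivity)
          have h8 : C * 32 / δ * (δ / 32) = C := by field_simp
          linarith
        calc C * (N : ℝ) ^ 4 ≤ (δ / 32 * L) * (N : ℝ) ^ 4 :=
              mul_le_mul_of_nonneg_right this (by positivity)
          _ = _ := by ring
      have j3 : C * (N : ℝ) ^ 4 * Real.log (T : ℝ) ≤ δ / 32 * ((N : ℝ) ^ 4 * L) := by
        calc C * (N : ℝ) ^ 4 * Real.log (T : ℝ) ≤ C * (N : ℝ) ^ 4 * (η * L) :=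
              mul_le_mul_of_nonneg_left t4 (by positivity)
          _ = (C * η) * ((N : ℝ) ^ 4 * L) := by ring
          _ ≤ _ := mul_le_mul_of_nonneg_right hη2 (by positivity)
      have j4 : C * (N : ℝ) ^ 2 * L * (((Exc f z G N).card : ℝ) + ((Good f z G N T).card : ℝ)) ≤
          δ / 16 * ((N : ℝ) ^ 4 * L) := by
        calc C * (N : ℝ) ^ 2 * L * (((Exc f z G N).card : ℝ) + ((Good f z G N T).card : ℝ))
            ≤ C * (N : ℝ) ^ 2 * L * (ε * (N : ℝ) ^ 2 + ε * (N : ℝ) ^ 2) :=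
              mul_le_mul_of_nonneg_left (add_le_add hE hgood') (by positivity)
          _ = (C * ε) * (2 * ((N : ℝ) ^ 4 * L)) := by ring
          _ = δ / 16 * ((N : ℝ) ^ 4 * L) := by
              rw [hε]
              field_simp
              ring
      have j5 : 0 ≤ δ * ((N : ℝ) ^ 4 * L) := by positivity
      nlinarith
    have hroughpos : ∀ P, (0 : ℝ) < (rough T (sfp (form f P)) : ℝ) := by
      intro P
      exact_mod_cast rough_pos T (sfp (form f P))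
    have hlog2 : ∀ P ∈ Bad f z G N T, Real.log (rough T (sfp (form f P)) : ℝ) ≤ 2 * L := by
      intro P hP
      have h3 : rough T (sfp (form f P)) < N ^ 2 := (Finset.mem_filter.mp hP).2
      have h4 : (rough T (sfp (form f P)) : ℝ) ≤ (N : ℝ) ^ 2 := by exact_mod_cast h3.le
      have h5 : Real.log (rough T (sfp (form f P)) : ℝ) ≤ Real.log ((N : ℝ) ^ 2) :=
        Real.log_le_log (hroughpos P) h4
      rw [Real.log_pow] at h5
      exact_mod_cast h5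
    have hB1 := l17_split N (Bad f z G N T) (hbsub.trans Reg_sub)
      (fun P => Real.log (rough T (sfp (form f P)) : ℝ)) L δ hL hδ0 (by linarith) hlog2 hsum hNpos
    set Bad1 := (Bad f z G N T).filter
      (fun P => (2 - δ) * L ≤ Real.log (rough T (sfp (form f P)) : ℝ)) with hBad1
    have hV := l17_markov N (fun P => V f z T P) (fun P _ => V_nonneg f z T P)
      (18 * ((r : ℝ) + 1) * (N : ℝ) ^ 2 * Real.log (T : ℝ)) ((N : ℝ) ^ 2 / 4) (δ * L)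
      (mul_pos hδ0 hL) (V_mean f z N T hnice t1 t3) (by
        calc 18 * ((r : ℝ) + 1) * (N : ℝ) ^ 2 * Real.log (T : ℝ)
            ≤ 18 * ((r : ℝ) + 1) * (N : ℝ) ^ 2 * (η * L) :=
              mul_le_mul_of_nonneg_left t4 (by positivity)
          _ = (18 * ((r : ℝ) + 1) * η) * ((N : ℝ) ^ 2 * L) := by ring
          _ ≤ (δ / 4) * ((N : ℝ) ^ 2 * L) := mul_le_mul_of_nonneg_right hη3 (by positivity)
          _ = δ * L * ((N : ℝ) ^ 2 / 4) := by ring)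
    set S := Bad1.filter (fun P => V f z T P ≤ δ * L) with hSdef
    have hSc : (N : ℝ) ^ 2 / 2 ≤ (S.card : ℝ) := by
      have h3 : Bad1 ⊆ S ∪ (box N).filter (fun P => δ * L < V f z T P) := by
        intro P hP
        by_cases hv : V f z T P ≤ δ * L
        · exact Finset.mem_union_left _ (Finset.mem_filter.mpr ⟨hP, hv⟩)
        · refine Finset.mem_union_right _ (Finset.mem_filter.mpr ⟨?_, not_le.mp hv⟩)
          exact Reg_sub (hbsub (Finset.mem_filter.mp hP).1)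
      have h4 : Bad1.card ≤ S.card + ((box N).filter (fun P => δ * L < V f z T P)).card :=
        (Finset.card_le_card h3).trans (Finset.card_union_le _ _)
      have h5 : (Bad1.card : ℝ) ≤
          (S.card : ℝ) + (((box N).filter (fun P => δ * L < V f z T P)).card : ℝ) := by
        exact_mod_cast h4
      linarith
    have hSsub : S ⊆ Reg f z G N := fun P hP =>
      hbsub (Finset.mem_filter.mp (Finset.mem_filter.mp hP).1).1
    have hMr : ∀ P ∈ S, (N : ℝ) ^ (2 - δ) ≤ (rough T (sfp (form f P)) : ℝ) := by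
      intro P hP
      have h3 : (2 - δ) * L ≤ Real.log (rough T (sfp (form f P)) : ℝ) :=
        (Finset.mem_filter.mp (Finset.mem_filter.mp hP).1).2
      rw [← Real.log_rpow hNr] at h3
      exact (Real.log_le_log_iff (Real.rpow_pos_of_pos hNr _) (hroughpos P)).mp h3
    have hMpos : 0 < (N : ℝ) ^ (2 - δ) := Real.rpow_pos_of_pos hNr _
    have him := card_le_image f z G N T k ((N : ℝ) ^ (2 - δ)) hMpos hnice hf hGz t2 hNpos
      S (hSsub.trans Reg_sub)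
      (fun P hP => ⟨(l17_reg (hSsub hP)).2.2.1, (l17_reg (hSsub hP)).2.2.2.1⟩)
      (fun P hP => (l17_reg (hSsub hP)).2.2.2.2)
      (fun P hP => hcardk P (hSsub hP)) hMr
    have hquot : (N : ℝ) ^ 2 / (N : ℝ) ^ (2 - δ) = (N : ℝ) ^ δ := by
      rw [← Real.rpow_natCast (N : ℝ) 2, ← Real.rpow_sub hNr]
      congr 1
      push_cast
      ring
    have hNδ : 1 ≤ (N : ℝ) ^ δ := Real.one_le_rpow hNr1 hδ0.le
    have him2 : (S.card : ℝ) ≤
        ((S.image (fun P => sfp (form f P))).card : ℝ) * (K * (N : ℝ) ^ δ) := by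
      refine him.trans ?_
      refine mul_le_mul_of_nonneg_left ?_ (by positivity)
      rw [hquot, hK]
      have h3 : (0 : ℝ) ≤ (r : ℝ) ^ k * (8 * G) := by positivity
      have h3' : (r : ℝ) ^ k * (8 * G) * ((N : ℝ) ^ δ + 1) ≤
          (r : ℝ) ^ k * (8 * G) * ((N : ℝ) ^ δ + (N : ℝ) ^ δ) :=
        mul_le_mul_of_nonneg_left (by linarith) h3
      calc (r : ℝ) ^ k * (8 * G * ((N : ℝ) ^ δ + 1)) =
            (r : ℝ) ^ k * (8 * G) * ((N : ℝ) ^ δ + 1) := by ring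
        _ ≤ (r : ℝ) ^ k * (8 * G) * ((N : ℝ) ^ δ + (N : ℝ) ^ δ) := h3'
        _ = (r : ℝ) ^ k * (8 * G * 2) * (N : ℝ) ^ δ := by ring
    -- the image consists of small squarefree numbers
    have hfil : S.image (fun P => sfp (form f P)) ⊆
        (sfs f N).filter (fun d : ℤ => |(d : ℝ)| ≤ (N : ℝ) ^ (2 + κ)) := by
      intro d hd
      refine Finset.mem_filter.mpr ⟨l17_img S hSsub hd, ?_⟩
      rw [Finset.mem_image] at hd
      obtain ⟨P, hP, rfl⟩ := hd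
      have h0 := (l17_reg (hSsub hP)).2.2.2.2
      have h3 := sfp_abs_le_rough f z T P t2 h0
      have hbad : P ∈ Bad f z G N T := (Finset.mem_filter.mp (Finset.mem_filter.mp hP).1).1
      have h4 : (rough T (sfp (form f P)) : ℝ) ≤ (N : ℝ) ^ 2 := by
        exact_mod_cast (Finset.mem_filter.mp hbad).2.le
      have h5 : Real.exp (V f z T P) ≤ (N : ℝ) ^ δ := by
        have h6 : V f z T P ≤ δ * L := (Finset.mem_filter.mp hP).2
        rw [Real.rpow_def_of_pos hNr]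
        exact Real.exp_le_exp.mpr (by linarith)
      refine h3.trans ?_
      have h7 : (N : ℝ) ^ (2 + κ) = (N : ℝ) ^ 2 * (N : ℝ) ^ (κ - δ) * (N : ℝ) ^ δ := by
        rw [← Real.rpow_natCast (N : ℝ) 2, ← Real.rpow_add hNr, ← Real.rpow_add hNr]
        congr 1
        push_cast
        ring
      rw [h7]
      exact mul_le_mul (mul_le_mul h4 a8 (by positivity) (by positivity)) h5
        (Real.exp_pos _).le (by positivity)
    have hcardim : ((S.image (fun P => sfp (form f P))).card : ℝ) ≤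
        (((sfs f N).filter (fun d : ℤ => |(d : ℝ)| ≤ (N : ℝ) ^ (2 + κ))).card : ℝ) := by
      exact_mod_cast Finset.card_le_card hfil
    refine le_trans ?_ hcardim
    set I : ℝ := ((S.image (fun P => sfp (form f P))).card : ℝ) with hI
    have h8 : (N : ℝ) ^ 2 ≤ I * (2 * K * (N : ℝ) ^ δ) := by linarith
    have hI0 : 0 ≤ I := by positivity
    have h9 : 2 * K * (N : ℝ) ^ δ ≤ (N : ℝ) ^ (κ - δ) * (N : ℝ) ^ δ :=
      mul_le_mul_of_nonneg_right a9 (by positivity)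
    have h10 : (N : ℝ) ^ (κ - δ) * (N : ℝ) ^ δ = (N : ℝ) ^ κ := by
      rw [← Real.rpow_add hNr]
      congr 1
      ring
    have h11 : (N : ℝ) ^ 2 ≤ I * (N : ℝ) ^ κ := by
      refine h8.trans ?_
      rw [← h10]
      exact mul_le_mul_of_nonneg_left h9 hI0
    have h12 : (N : ℝ) ^ 2 = (N : ℝ) ^ (2 - κ) * (N : ℝ) ^ κ := by
      rw [← Real.rpow_natCast (N : ℝ) 2, ← Real.rpow_add hNr]
      congr 1
      push_cast
      ring
    rw [h12] at h11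
    exact le_of_mul_le_mul_right h11 (Real.rpow_pos_of_pos hNr _)

theorem core_two (f h1 h2 : Polynomial ℤ) (hf : 1 ≤ f.natDegree)
    (hs : (f.map (Int.castRingHom ℚ)).Separable) (hdvd : h1 * h2 ∣ f)
    (hz1 : ∀ P : ℤ × ℤ, P ≠ 0 → form h1 P ≠ 0)
    (hM : ∀ ε : ℝ, 0 < ε → ∀ z : ℕ, ∃ N₀ : ℕ, ∀ N : ℕ, N₀ ≤ N →
      (2 - ε) * Real.log (N : ℝ) ≤ R h1 z (N ^ 2) + R h2 z N) (κ : ℝ) (hκ : 0 < κ) :
    ∃ c : ℝ, 0 < c ∧ ∃ N₀ : ℕ, ∀ N : ℕ, N₀ ≤ N →
      c * (N : ℝ) ^ 2 ≤ ((sfs f N).card : ℝ) ∨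
      (N : ℝ) ^ (2 - κ) ≤
        (((sfs f N).filter (fun d : ℤ => |(d : ℝ)| ≤ (N : ℝ) ^ (2 + κ))).card : ℝ) := by
  obtain ⟨c, hc, N₀, h⟩ := l17_small f h1 h2 hf hs hdvd hz1 hM (min κ (1 / 2))
    (lt_min hκ (by norm_num)) (min_le_right _ _)
  refine ⟨c, hc, max N₀ 1, fun N hN => ?_⟩
  have hN1 : 1 ≤ N := (le_max_right _ _).trans hN
  have hNr1 : (1 : ℝ) ≤ N := by exact_mod_cast hN1
  rcases h N ((le_max_left _ _).trans hN) with h3 | h3
  · exact Or.inl h3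
  · right
    have h4 : (N : ℝ) ^ (2 - κ) ≤ (N : ℝ) ^ (2 - min κ (1 / 2)) :=
      Real.rpow_le_rpow_of_exponent_le hNr1 (by linarith [min_le_left κ (1 / 2)])
    have h5 : (N : ℝ) ^ (2 + min κ (1 / 2)) ≤ (N : ℝ) ^ (2 + κ) :=
      Real.rpow_le_rpow_of_exponent_le hNr1 (by linarith [min_le_left κ (1 / 2)])
    refine h4.trans (h3.trans ?_)
    have h6 : ((sfs f N).filter (fun d : ℤ => |(d : ℝ)| ≤ (N : ℝ) ^ (2 + min κ (1 / 2)))) ⊆
        ((sfs f N).filter (fun d : ℤ => |(d : ℝ)| ≤ (N : ℝ) ^ (2 + κ))) := by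
      intro d hd
      rw [Finset.mem_filter] at hd ⊢
      exact ⟨hd.1, hd.2.trans h5⟩
    exact_mod_cast Finset.card_le_card h6

end Pool.Agent.Helper83.TW
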