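import Pool.Agent.Helper83.TW.L03

/-!
# TW-T1: passing to a binary form of full degree
-/

set_option autoImplicit false

namespace Pool.Agent.Helper83.TW

open Polynomial in
private theorem t1_natDegree {R : Type*} [CommRing R] [IsDomain R] (r : ℕ) (q : R[X])
    (hq : q.natDegree ≤ r) (h0 : q.coeff 0 ≠ 0) : (reflect r q).natDegree = r := by
  apply le_antisymm
  · have := natDegree_reflect_le (N := r) (p := q)
    omega
  · apply le_natDegree_of_ne_zero
    rw [coeff_reflect, revAt_le le_rfl, Nat.sub_self]
    exact h0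

open Polynomial in
/-- squarefreeness of the reflected polynomial -/
private theorem t1_squarefree (r : ℕ) (q : ℚ[X]) (hr : 1 ≤ r) (hq : q.natDegree ≤ r)
    (hq1 : r ≤ q.natDegree + 1) (h0 : q.coeff 0 ≠ 0) (hs : Squarefree q) :
    Squarefree (reflect r q) := by
  intro u hu
  obtain ⟨k, hk⟩ := hu
  have hq0 : q ≠ 0 := by rintro rfl; simp at h0
  have hG0 : reflect r q ≠ 0 := by rw [Ne, reflect_eq_zero_iff]; exact hq0
  have hu0 : u ≠ 0 := by rintro rfl; apply hG0; rw [hk]; ring
  have hk0 : k ≠ 0 := by rintro rfl; apply hG0; rw [hk]; ring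
  have hdeg := t1_natDegree r q hq h0
  rw [hk, natDegree_mul (mul_ne_zero hu0 hu0) hk0, natDegree_mul hu0 hu0] at hdeg
  have hq' : q = reflect u.natDegree u * reflect u.natDegree u * reflect k.natDegree k := by
    rw [← reflect_mul u u le_rfl le_rfl, ← reflect_mul (u * u) k natDegree_mul_le le_rfl, hdeg, ← hk,
      reflect_reflect]
  have hunit : IsUnit (reflect u.natDegree u) := hs _ ⟨_, hq'⟩
  rw [isUnit_iff] at hunit
  obtain ⟨c, hc, hcu⟩ := hunit
  have hu2 : u = C c * X ^ u.natDegree := by
    rw [← reflect_C, hcu, reflect_reflect]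
  by_cases hm : u.natDegree = 0
  · rw [hm, pow_zero, mul_one] at hu2
    rw [hu2]
    exact isUnit_C.mpr hc
  exfalso
  have hX : X ^ 2 ∣ reflect r q := by
    rw [hk, hu2]
    refine Dvd.dvd.mul_right ?_ k
    obtain ⟨m, hm'⟩ : ∃ m, u.natDegree = m + 1 := ⟨u.natDegree - 1, by omega⟩
    rw [hm']
    exact ⟨C c * C c * X ^ (2 * m), by ring⟩
  rw [X_pow_dvd_iff] at hX
  have h1 := hX 0 (by norm_num)
  have h2 := hX 1 (by norm_num)
  rw [coeff_reflect, revAt_le (Nat.zero_le _), Nat.sub_zero] at h1
  rw [coeff_reflect, revAt_le hr] at h2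
  have hlead : q.coeff q.natDegree ≠ 0 := by
    rw [coeff_natDegree]; exact leadingCoeff_ne_zero.mpr hq0
  rcases Nat.lt_or_ge q.natDegree r with h | h
  · have : q.natDegree = r - 1 := by omega
    rw [this] at hlead
    exact hlead h2
  · have : q.natDegree = r := by omega
    rw [this] at hlead
    exact hlead h1

open Polynomial in
/-- the formula for the form -/
private theorem t1_form (r : ℕ) (q : ℤ[X]) (hq : q.natDegree ≤ r) (h0 : q.coeff 0 ≠ 0)
    (P : ℤ × ℤ) (hP : P.1 ≠ 0) :
    (form (reflect r q) P : ℚ) =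
      (P.1 : ℚ) ^ r * (q.map (Int.castRingHom ℚ)).eval ((P.2 : ℚ) / (P.1 : ℚ)) := by
  have hP' : (P.1 : ℚ) ≠ 0 := by exact_mod_cast hP
  rw [form, t1_natDegree r q hq h0]
  rw [eval_eq_sum_range' (n := r + 1) (lt_of_le_of_lt natDegree_map_le (by omega))]
  rw [← Finset.sum_range_reflect]
  push_cast
  rw [Finset.mul_sum]
  apply Finset.sum_congr rfl
  intro j hj
  rw [Finset.mem_range] at hj
  have e2 : r - (r - j) = j := by omega
  rw [coeff_reflect, revAt_le (Nat.sub_le _ _), e2, coeff_map, div_pow]
  have e3 : (P.1 : ℚ) ^ r = (P.1 : ℚ) ^ (r - j) * (P.1 : ℚ) ^ j := by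
    rw [← pow_add]; congr 1; omega
  rw [e3]
  simp only [eq_intCast]
  field_simp

open Polynomial in
theorem exists_form (f : Polynomial ℤ) (hf : 5 ≤ f.natDegree)
    (hs : (f.map (Int.castRingHom ℚ)).Separable) :
    ∃ (g : Polynomial ℤ) (s : ℤ), g.natDegree = 2 * ((f.natDegree - 1) / 2) + 2 ∧
      (g.map (Int.castRingHom ℚ)).Separable ∧
      (∀ P : ℤ × ℤ, P.1 ≠ 0 → (form g P : ℚ) = (P.1 : ℚ) ^ g.natDegree *
        (f.map (Int.castRingHom ℚ)).eval ((s : ℚ) + (P.2 : ℚ) / (P.1 : ℚ))) ∧
      ((Odd f.natDegree ∨ ¬ Irreducible (f.map (Int.castRingHom ℚ))) →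
        ¬ Irreducible (g.map (Int.castRingHom ℚ))) := by
  have hf0 : f ≠ 0 := by rintro rfl; simp at hf
  obtain ⟨s, hsf⟩ : ∃ s : ℤ, f.eval s ≠ 0 := by
    by_contra h
    push Not at h
    exact hf0 (Polynomial.funext (fun x => by rw [h x, eval_zero]))
  set r : ℕ := 2 * ((f.natDegree - 1) / 2) + 2 with hr
  set q : ℤ[X] := f.comp (X + C s) with hq
  have hqd : q.natDegree = f.natDegree := by
    rw [hq, natDegree_comp, natDegree_X_add_C, mul_one]
  have hq0 : q.coeff 0 ≠ 0 := by
    rw [coeff_zero_eq_eval_zero, hq, eval_comp]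
    simpa using hsf
  have hinj : Function.Injective (Int.castRingHom ℚ) := (Int.castRingHom ℚ).injective_int
  set F : ℚ[X] := f.map (Int.castRingHom ℚ) with hF
  have hFd : F.natDegree = f.natDegree := natDegree_map_eq_of_injective hinj f
  have hqmap : q.map (Int.castRingHom ℚ) = F.comp (X + C (s : ℚ)) := by
    rw [hq, Polynomial.map_comp]
    simp [hF]
  set Q : ℚ[X] := q.map (Int.castRingHom ℚ) with hQ
  have hQd : Q.natDegree = f.natDegree := by
    rw [hQ, natDegree_map_eq_of_injective hinj, hqd]
  have hQ0 : Q.coeff 0 ≠ 0 := by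
    rw [hQ, coeff_map]
    simpa using hq0
  have hQsep : Q.Separable := by
    rw [hqmap]
    have h1 : IsCoprime F (derivative F) := hs
    have h2 := h1.map (compRingHom (X + C (s : ℚ)))
    rw [Separable, derivative_comp]
    simpa using h2
  have hQsq : Squarefree Q := hQsep.squarefree
  have hgmap : (reflect r q).map (Int.castRingHom ℚ) = reflect r Q := by
    rw [hQ, reflect_map]
  have hgd : (reflect r q).natDegree = r := t1_natDegree r q (by omega) hq0
  have hGd : (reflect r Q).natDegree = r := t1_natDegree r Q (by omega) hQ0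
  refine ⟨reflect r q, s, hgd, ?_, ?_, ?_⟩
  · rw [hgmap, PerfectField.separable_iff_squarefree]
    exact t1_squarefree r Q (by omega) (by omega) (by omega) hQ0 hQsq
  · intro P hP
    rw [t1_form r q (by omega) hq0 P hP, hgd, ← hQ, hqmap, eval_comp]
    congr 2
    simp
    ring
  · rw [hgmap]
    intro h hirr
    rcases Nat.even_or_odd f.natDegree with hev | hodd
    · -- n even, F reducible
      have hrn : r = f.natDegree := by
        obtain ⟨k, hk⟩ := hev
        omega
      have hFred : ¬ Irreducible F := by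
        rcases h with h | h
        · exact absurd hev (Nat.not_even_iff_odd.mpr h)
        · exact h
      apply hFred
      have hF0 : F ≠ 0 := by rintro h0; rw [h0] at hFd; simp at hFd; omega
      refine ⟨?_, ?_⟩
      · intro hu
        have := natDegree_eq_zero_of_isUnit hu
        omega
      · intro u v huv
        have hu0 : u ≠ 0 := by rintro rfl; apply hF0; rw [huv]; ring
        have hv0 : v ≠ 0 := by rintro rfl; apply hF0; rw [huv]; ring
        have hev0 : Q.coeff 0 = u.eval (s : ℚ) * v.eval (s : ℚ) := by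
          rw [coeff_zero_eq_eval_zero, hqmap, eval_comp, huv]
          simp
        have hus : u.eval (s : ℚ) ≠ 0 := by
          intro h0
          apply hQ0
          rw [hev0, h0, zero_mul]
        have hvs : v.eval (s : ℚ) ≠ 0 := by
          intro h0
          apply hQ0
          rw [hev0, h0, mul_zero]
        have hUd : (u.comp (X + C (s : ℚ))).natDegree = u.natDegree := by
          rw [natDegree_comp, natDegree_X_add_C, mul_one]
        have hVd : (v.comp (X + C (s : ℚ))).natDegree = v.natDegree := by
          rw [natDegree_comp, natDegree_X_add_C, mul_one]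
        have hdd : u.natDegree + v.natDegree = r := by
          rw [← natDegree_mul hu0 hv0, ← huv, hFd, hrn]
        have hG : reflect r Q = reflect u.natDegree (u.comp (X + C (s : ℚ))) *
            reflect v.natDegree (v.comp (X + C (s : ℚ))) := by
          rw [← reflect_mul _ _ hUd.le hVd.le, hdd, hqmap, huv, mul_comp]
        have key : ∀ w : ℚ[X], w ≠ 0 → w.eval (s : ℚ) ≠ 0 →
            IsUnit (reflect w.natDegree (w.comp (X + C (s : ℚ)))) → IsUnit w := by
          intro w hw hws hun
          have h1 := natDegree_eq_zero_of_isUnit hun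
          have h2 : w.natDegree ≤ (reflect w.natDegree (w.comp (X + C (s : ℚ)))).natDegree := by
            apply le_natDegree_of_ne_zero
            rw [coeff_reflect, revAt_le le_rfl, Nat.sub_self, coeff_zero_eq_eval_zero, eval_comp]
            simpa using hws
          have h3 : w.natDegree = 0 := by omega
          rw [isUnit_iff_degree_eq_zero, degree_eq_natDegree hw, h3]
          rfl
        rcases hirr.isUnit_or_isUnit hG with h1 | h1
        · exact Or.inl (key u hu0 hus h1)
        · exact Or.inr (key v hv0 hvs h1)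
    · -- n odd
      have hrn : r = f.natDegree + 1 := by
        obtain ⟨k, hk⟩ := hodd
        omega
      have hX : X ∣ reflect r Q := by
        rw [X_dvd_iff, coeff_reflect, revAt_le (Nat.zero_le _), Nat.sub_zero]
        apply coeff_eq_zero_of_natDegree_lt
        omega
      obtain ⟨k, hk⟩ := hX
      have hk0 : k ≠ 0 := by
        rintro rfl
        rw [hk] at hGd
        simp at hGd
      rcases hirr.isUnit_or_isUnit hk with h1 | h1
      · exact not_isUnit_X h1
      · have h2 := natDegree_eq_zero_of_isUnit h1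
        rw [hk, natDegree_mul X_ne_zero hk0, natDegree_X, h2] at hGd
        omega

end Pool.Agent.Helper83.TW
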