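import Pool.Agent.Helper83.TW.L04

/-!
# TW-T2: factorization types

`prim_factor`: an integer polynomial with the given irreducible rational factor (clear denominators,
take the primitive part; `IsLocalization.integerNormalization`, `Polynomial.primPart`,
`Polynomial.IsPrimitive.Int.dvd_iff_map_cast_dvd_map_cast`).
`split_cases`: `F = f.map ..` of degree `>= 3`, squarefree, not irreducible.  If all irreducible factors
are linear, `F` splits and has `natDegree f >= 3` distinct roots.  Otherwise let `q1` be an irreducible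
factor of degree `>= 2`; the cofactor `F/q1` is not a unit (as `F` is not irreducible), let `q2` be an
irreducible factor of it.  Then `q1 q2 ∣ F`; take primitive integer multiples `h1`, `h2`, so `h1 h2` is
primitive (Gauss) and divides `f` in `Z[x]` (it divides the primitive part of `f`).
-/

set_option autoImplicit false

namespace Pool.Agent.Helper83.TW

open Polynomial

private theorem prim_factor (q : Polynomial ℚ) (hq : q ≠ 0) :
    ∃ h : Polynomial ℤ, h.IsPrimitive ∧ Associated (h.map (Int.castRingHom ℚ)) q := by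
  obtain ⟨b, hb, hbq⟩ := IsLocalization.integerNormalization_spec (nonZeroDivisors ℤ) q
  set g := IsLocalization.integerNormalization (nonZeroDivisors ℤ) q with hg
  have hb0 : b ≠ 0 := nonZeroDivisors.ne_zero hb
  have hbQ : (b : ℚ) ≠ 0 := by exact_mod_cast hb0
  have hmap : g.map (Int.castRingHom ℚ) = C (b : ℚ) * q := by
    have h1 : (algebraMap ℤ ℚ) = Int.castRingHom ℚ := rfl
    rw [← h1, hbq]
    ext n
    simp
  have hg0 : g ≠ 0 := by
    intro h
    rw [h, Polynomial.map_zero] at hmap
    exact mul_ne_zero (by simpa using hbQ) hq hmap.symm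
  have hc0 : (g.content : ℚ) ≠ 0 := by
    have : g.content ≠ 0 := by rwa [Ne, Polynomial.content_eq_zero_iff]
    exact_mod_cast this
  refine ⟨g.primPart, g.isPrimitive_primPart, ?_⟩
  have h2 : g.map (Int.castRingHom ℚ) = C (g.content : ℚ) * g.primPart.map (Int.castRingHom ℚ) := by
    conv_lhs => rw [g.eq_C_content_mul_primPart]
    simp
  have u1 : Associated (g.primPart.map (Int.castRingHom ℚ)) (g.map (Int.castRingHom ℚ)) := by
    rw [h2]
    exact (associated_unit_mul_right _ _ (isUnit_C.2 (isUnit_iff_ne_zero.2 hc0)))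
  have u2 : Associated (g.map (Int.castRingHom ℚ)) q := by
    rw [hmap]
    exact (associated_unit_mul_left _ _ (isUnit_C.2 (isUnit_iff_ne_zero.2 hbQ)))
  exact u1.trans u2

theorem split_cases (f : Polynomial ℤ) (hf : 3 ≤ f.natDegree)
    (hs : (f.map (Int.castRingHom ℚ)).Separable)
    (hred : ¬ Irreducible (f.map (Int.castRingHom ℚ))) :
    (∃ h1 h2 : Polynomial ℤ, h1 * h2 ∣ f ∧ 2 ≤ h1.natDegree ∧
      Irreducible (h1.map (Int.castRingHom ℚ)) ∧ Irreducible (h2.map (Int.castRingHom ℚ))) ∨
    (∃ S : Finset ℚ, 3 ≤ S.card ∧ ∀ x ∈ S, (f.map (Int.castRingHom ℚ)).eval x = 0) := by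
  classical
  have hinj : Function.Injective (Int.castRingHom ℚ) := Int.cast_injective
  set F := f.map (Int.castRingHom ℚ) with hF
  have hdeg : F.natDegree = f.natDegree := natDegree_map_eq_of_injective hinj f
  have hF0 : F ≠ 0 := by
    intro h
    rw [h, natDegree_zero] at hdeg
    omega
  by_cases hall : ∃ q1 : ℚ[X], Irreducible q1 ∧ q1 ∣ F ∧ 2 ≤ q1.natDegree
  · left
    obtain ⟨q1, hi1, ⟨c, hc⟩, hd1⟩ := hall
    have hcu : ¬ IsUnit c := by
      intro hu
      apply hred
      have : Associated q1 F := by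
        rw [hc]
        exact (associated_mul_unit_right q1 c hu)
      exact (this.irreducible_iff).1 hi1
    have hc0 : c ≠ 0 := by
      rintro rfl
      exact hF0 (by rw [hc, mul_zero])
    obtain ⟨q2, hi2, hq2⟩ := WfDvdMonoid.exists_irreducible_factor hcu hc0
    obtain ⟨h1, hp1, ha1⟩ := prim_factor q1 hi1.ne_zero
    obtain ⟨h2, hp2, ha2⟩ := prim_factor q2 hi2.ne_zero
    refine ⟨h1, h2, ?_, ?_, ha1.irreducible_iff.2 hi1, ha2.irreducible_iff.2 hi2⟩
    · rw [IsPrimitive.Int.dvd_iff_map_cast_dvd_map_cast _ _ (hp1.mul hp2), Polynomial.map_mul]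
      have h3 : q1 * q2 ∣ F := by
        rw [hc]
        exact mul_dvd_mul_left q1 hq2
      exact ((ha1.mul_mul ha2).dvd).trans h3
    · have h4 : (h1.map (Int.castRingHom ℚ)).natDegree = h1.natDegree :=
        natDegree_map_eq_of_injective hinj h1
      have h5 : (h1.map (Int.castRingHom ℚ)).natDegree = q1.natDegree :=
        natDegree_eq_of_degree_eq (degree_eq_degree_of_associated ha1)
      omega
  · right
    push Not at hall
    have hsp : Splits F := by
      rw [splits_iff_splits]
      right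
      intro g hg hgF
      have h1 := hall g hg hgF
      have h2 : 0 < g.degree := hg.degree_pos
      have h3 : 0 < g.natDegree := natDegree_pos_iff_degree_pos.2 h2
      rw [degree_eq_natDegree hg.ne_zero]
      have : g.natDegree = 1 := by omega
      rw [this]; rfl
    refine ⟨F.roots.toFinset, ?_, ?_⟩
    · rw [Multiset.toFinset_card_of_nodup (nodup_roots hs), ← hsp.natDegree_eq_card_roots, hdeg]
      exact hf
    · intro x hx
      exact (mem_roots hF0).1 (Multiset.mem_toFinset.1 hx)

/-- an irreducible polynomial of degree at least two has no rational root -/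
theorem no_root_of_irreducible (h : Polynomial ℤ) (h2 : 2 ≤ h.natDegree)
    (hi : Irreducible (h.map (Int.castRingHom ℚ))) (x : ℚ) :
    (h.map (Int.castRingHom ℚ)).eval x ≠ 0 := by
  intro h0
  have hinj : Function.Injective (Int.castRingHom ℚ) := Int.cast_injective
  have h1 := degree_eq_one_of_irreducible_of_root hi (show IsRoot _ x from h0)
  have h3 : (h.map (Int.castRingHom ℚ)).natDegree = 1 := natDegree_eq_of_degree_eq_some h1
  rw [natDegree_map_eq_of_injective hinj] at h3
  omega

private theorem root_mod (f : Polynomial ℤ) (x : ℚ)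
    (hx : (f.map (Int.castRingHom ℚ)).eval x = 0) (p : ℕ) [Fact p.Prime]
    (hd : ((x.den : ℕ) : ZMod p) ≠ 0) :
    (f.map (Int.castRingHom (ZMod p))).eval ((x.num : ZMod p) / ((x.den : ℕ) : ZMod p)) = 0 := by
  set n := f.natDegree with hn
  have hden : (x.den : ℚ) ≠ 0 := by exact_mod_cast x.den_ne_zero
  have e1 : ∑ i ∈ Finset.range (n + 1), (f.coeff i : ℚ) * x ^ i = 0 := by
    have := hx
    rw [eval_map, eval₂_eq_sum_range] at this
    simpa using this
  have e2 : ∑ i ∈ Finset.range (n + 1), f.coeff i * x.num ^ i * (x.den : ℤ) ^ (n - i) = 0 := by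
    have : ((∑ i ∈ Finset.range (n + 1), f.coeff i * x.num ^ i * (x.den : ℤ) ^ (n - i) : ℤ) : ℚ)
        = (x.den : ℚ) ^ n * ∑ i ∈ Finset.range (n + 1), (f.coeff i : ℚ) * x ^ i := by
      push_cast
      rw [Finset.mul_sum]
      refine Finset.sum_congr rfl fun i hi => ?_
      have hi' : i ≤ n := Nat.lt_succ_iff.1 (Finset.mem_range.1 hi)
      have hxq : x * (x.den : ℚ) = x.num := Rat.mul_den_eq_num x
      calc (f.coeff i : ℚ) * (x.num : ℚ) ^ i * (x.den : ℚ) ^ (n - i)
          = (f.coeff i : ℚ) * (x * x.den) ^ i * (x.den : ℚ) ^ (n - i) := by rw [hxq]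
        _ = (f.coeff i : ℚ) * x ^ i * ((x.den : ℚ) ^ i * (x.den : ℚ) ^ (n - i)) := by
            rw [mul_pow]; ring
        _ = (f.coeff i : ℚ) * x ^ i * (x.den : ℚ) ^ n := by
            rw [← pow_add, Nat.add_sub_cancel' hi']
        _ = (x.den : ℚ) ^ n * ((f.coeff i : ℚ) * x ^ i) := by ring
    rw [e1, mul_zero] at this
    exact_mod_cast this
  have e3 : ∑ i ∈ Finset.range (n + 1), (f.coeff i : ZMod p) * (x.num : ZMod p) ^ i *
      ((x.den : ℕ) : ZMod p) ^ (n - i) = 0 := by
    have := congrArg (Int.cast : ℤ → ZMod p) e2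
    push_cast at this
    exact this
  have e4 : ((x.den : ℕ) : ZMod p) ^ n *
      ∑ i ∈ Finset.range (n + 1), (f.coeff i : ZMod p) *
        ((x.num : ZMod p) / ((x.den : ℕ) : ZMod p)) ^ i = 0 := by
    rw [← e3, Finset.mul_sum]
    refine Finset.sum_congr rfl fun i hi => ?_
    have hi' : i ≤ n := Nat.lt_succ_iff.1 (Finset.mem_range.1 hi)
    rw [div_pow]
    have h5 : ((x.den : ℕ) : ZMod p) ^ n = ((x.den : ℕ) : ZMod p) ^ i *
        ((x.den : ℕ) : ZMod p) ^ (n - i) := by
      rw [← pow_add, Nat.add_sub_cancel' hi']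
    rw [h5]
    field_simp
  have e5 := (mul_eq_zero.1 e4).resolve_left (pow_ne_zero _ hd)
  rw [eval_map, eval₂_eq_sum_range]
  simpa using e5

/-- rational roots give roots modulo all large primes (distinct roots stay distinct) -/
theorem rts_card_ge (f : Polynomial ℤ) (S : Finset ℚ)
    (hS : ∀ x ∈ S, (f.map (Int.castRingHom ℚ)).eval x = 0) :
    ∃ z₀ : ℕ, ∀ p : ℕ, p.Prime → z₀ < p → S.card ≤ (rts f p).card := by
  classical
  refine ⟨∑ x ∈ S, x.den + ∑ x ∈ S, ∑ y ∈ S, (x.num * y.den - y.num * x.den).natAbs, ?_⟩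
  intro p hp hz
  have : Fact p.Prime := ⟨hp⟩
  have hden : ∀ x ∈ S, ((x.den : ℕ) : ZMod p) ≠ 0 := by
    intro x hx h0
    rw [ZMod.natCast_eq_zero_iff] at h0
    have h1 : p ≤ x.den := Nat.le_of_dvd x.den_pos h0
    have h2 : x.den ≤ ∑ x ∈ S, x.den := Finset.single_le_sum (f := fun x : ℚ => x.den)
      (fun _ _ => Nat.zero_le _) hx
    omega
  refine Finset.card_le_card_of_injOn
    (fun x => ((x.num : ZMod p) / ((x.den : ℕ) : ZMod p)).val) ?_ ?_
  · intro x hx
    have h1 := root_mod f x (hS x hx) p (hden x hx)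
    rw [Finset.mem_coe, mem_rts]
    refine ⟨ZMod.val_lt _, ?_⟩
    rw [← ZMod.intCast_zmod_eq_zero_iff_dvd]
    have h2 : ((f.eval (((((x.num : ZMod p) / ((x.den : ℕ) : ZMod p)).val : ℕ) : ℤ)) : ℤ) : ZMod p)
        = (f.map (Int.castRingHom (ZMod p))).eval
          ((x.num : ZMod p) / ((x.den : ℕ) : ZMod p)) := by
      have := Polynomial.eval_intCast_map (Int.castRingHom (ZMod p)) f
        ((((x.num : ZMod p) / ((x.den : ℕ) : ZMod p)).val : ℕ) : ℤ)
      simpa using this.symm
    rw [h2, h1]
  · intro x hx y hy hxy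
    have h1 : (x.num : ZMod p) / ((x.den : ℕ) : ZMod p) =
        (y.num : ZMod p) / ((y.den : ℕ) : ZMod p) := ZMod.val_injective p hxy
    rw [div_eq_div_iff (hden x hx) (hden y hy)] at h1
    have h2 : ((x.num * y.den - y.num * x.den : ℤ) : ZMod p) = 0 := by
      push_cast
      rw [h1]; ring
    rw [ZMod.intCast_zmod_eq_zero_iff_dvd] at h2
    have h3 : (x.num * y.den - y.num * x.den).natAbs = 0 := by
      by_contra hne
      have h4 : p ≤ (x.num * y.den - y.num * x.den).natAbs :=
        Nat.le_of_dvd (Nat.pos_of_ne_zero hne) (Int.natCast_dvd.1 h2)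
      have h5 : (x.num * y.den - y.num * x.den).natAbs ≤
          ∑ y ∈ S, (x.num * y.den - y.num * x.den).natAbs :=
        Finset.single_le_sum (f := fun y : ℚ => (x.num * y.den - y.num * x.den).natAbs)
          (fun _ _ => Nat.zero_le _) hy
      have h6 : ∑ y ∈ S, (x.num * y.den - y.num * x.den).natAbs ≤
          ∑ x ∈ S, ∑ y ∈ S, (x.num * y.den - y.num * x.den).natAbs :=
        Finset.single_le_sum
          (f := fun x : ℚ => ∑ y ∈ S, (x.num * y.den - y.num * x.den).natAbs)
          (fun _ _ => Nat.zero_le _) hx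
      omega
    have h7 : x.num * y.den = y.num * x.den := by
      have := Int.natAbs_eq_zero.1 h3
      linarith
    exact (Rat.eq_iff_mul_eq_mul).2 h7

end Pool.Agent.Helper83.TW
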