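import Pool.Agent.Helper83.TW.A7
import Pool.Agent.Helper83.TW.T2

/-!
# TW-T3: the two mean value hypotheses

`mean_three`: case 1 of `split_cases`: take `h1`, `h2` from there; `form_ne_zero` with
`no_root_of_irreducible`; `R_lower` for `h1` with `Y = N^2` (`log (N^2) = 2 log N`) and for `h2` with
`Y = N`.  Case 2: `h1 = 1`, `h2 = f` (`form_one`; `R 1 z Y >= 0`), for `p > max z z₀`
`card (rts f p) >= 3`, and `sum log p / p >= (1 - ε) log N - O(1)` is `R_lower` for the polynomial `X`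
(one root modulo every prime; split off the primes `<= max z z₀`).
`mean_two`: `R_lower` for `f` with `Y = N^2`, and `R 1 z N = 0` or `>= 0`.
-/

set_option autoImplicit false

namespace Pool.Agent.Helper83.TW

theorem R_nonneg (h : Polynomial ℤ) (z Y : ℕ) : 0 ≤ R h z Y := by
  unfold R
  refine Finset.sum_nonneg fun p hp => ?_
  have hp1 : (1 : ℝ) ≤ p := by exact_mod_cast (mem_prm.mp hp).2.2.one_lt.le
  have := Real.log_nonneg hp1
  positivity

private theorem T3_log_sq (N : ℕ) : Real.log ((N ^ 2 : ℕ) : ℝ) = 2 * Real.log (N : ℝ) := by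
  rw [Nat.cast_pow, Real.log_pow]
  norm_num

private theorem T3_le_sq {Y N : ℕ} (h : Y + 1 ≤ N) : Y ≤ N ^ 2 := by
  nlinarith

private theorem T3_ne_zero {h : Polynomial ℤ} (hi : Irreducible (h.map (Int.castRingHom ℚ))) :
    h ≠ 0 := by
  rintro rfl
  rw [Polynomial.map_zero] at hi
  exact not_irreducible_zero hi

/-- three rational roots -/
private theorem T3_roots (f : Polynomial ℤ) (S : Finset ℚ) (hS3 : 3 ≤ S.card)
    (hS : ∀ x ∈ S, (f.map (Int.castRingHom ℚ)).eval x = 0) :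
    ∀ ε : ℝ, 0 < ε → ∀ z : ℕ, ∃ N₀ : ℕ, ∀ N : ℕ, N₀ ≤ N →
      (3 - ε) * Real.log (N : ℝ) ≤ R f z N := by
  intro ε hε z
  obtain ⟨z₀, hz₀⟩ := rts_card_ge f S hS
  have hX : Irreducible ((Polynomial.X : Polynomial ℤ).map (Int.castRingHom ℚ)) := by
    rw [Polynomial.map_X]
    exact Polynomial.irreducible_X
  obtain ⟨Y₀, hY₀⟩ := R_lower Polynomial.X hX (ε / 3) (by positivity) (max z z₀)
  refine ⟨Y₀, fun N hN => ?_⟩
  have h1 := hY₀ N hN
  have hsub : prm (max z z₀) N ⊆ prm z N := by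
    intro p hp
    rw [mem_prm] at hp ⊢
    exact ⟨lt_of_le_of_lt (le_max_left _ _) hp.1, hp.2⟩
  have h2 : 3 * R Polynomial.X (max z z₀) N ≤ R f z N := by
    unfold R
    calc 3 * ∑ p ∈ prm (max z z₀) N,
          ((rts Polynomial.X p).card : ℝ) * Real.log (p : ℝ) / p
        = ∑ p ∈ prm (max z z₀) N,
          3 * (((rts Polynomial.X p).card : ℝ) * Real.log (p : ℝ) / p) := by
          rw [Finset.mul_sum]
      _ ≤ ∑ p ∈ prm (max z z₀) N, ((rts f p).card : ℝ) * Real.log (p : ℝ) / p := by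
          refine Finset.sum_le_sum fun p hp => ?_
          rw [mem_prm] at hp
          have hp1 : (1 : ℝ) ≤ p := by exact_mod_cast hp.2.2.one_lt.le
          have hlog := Real.log_nonneg hp1
          have hc1 : (rts Polynomial.X p).card ≤ 1 := by
            rw [Finset.card_le_one]
            intro a ha b hb
            rw [mem_rts, Polynomial.eval_X] at ha hb
            have ha' : p ∣ a := by exact_mod_cast ha.2
            have hb' : p ∣ b := by exact_mod_cast hb.2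
            rw [Nat.eq_zero_of_dvd_of_lt ha' ha.1, Nat.eq_zero_of_dvd_of_lt hb' hb.1]
          have hc2 : 3 ≤ (rts f p).card :=
            hS3.trans (hz₀ p hp.2.2 (lt_of_le_of_lt (le_max_right _ _) hp.1))
          have hc1' : ((rts Polynomial.X p).card : ℝ) ≤ 1 := by exact_mod_cast hc1
          have hc2' : (3 : ℝ) ≤ ((rts f p).card : ℝ) := by exact_mod_cast hc2
          have hq : 0 ≤ Real.log (p : ℝ) / p := by positivity
          calc 3 * (((rts Polynomial.X p).card : ℝ) * Real.log (p : ℝ) / p)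
              = (3 * ((rts Polynomial.X p).card : ℝ)) * (Real.log (p : ℝ) / p) := by ring
            _ ≤ ((rts f p).card : ℝ) * (Real.log (p : ℝ) / p) :=
                mul_le_mul_of_nonneg_right (by linarith) hq
            _ = _ := by ring
      _ ≤ ∑ p ∈ prm z N, ((rts f p).card : ℝ) * Real.log (p : ℝ) / p := by
          refine Finset.sum_le_sum_of_subset_of_nonneg hsub fun p hp _ => ?_
          have hp1 : (1 : ℝ) ≤ p := by exact_mod_cast (mem_prm.mp hp).2.2.one_lt.le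
          have := Real.log_nonneg hp1
          positivity
  calc (3 - ε) * Real.log (N : ℝ) = 3 * ((1 - ε / 3) * Real.log (N : ℝ)) := by ring
    _ ≤ 3 * R Polynomial.X (max z z₀) N := by linarith
    _ ≤ R f z N := h2

theorem mean_three (f : Polynomial ℤ) (hf : 3 ≤ f.natDegree)
    (hs : (f.map (Int.castRingHom ℚ)).Separable)
    (hred : ¬ Irreducible (f.map (Int.castRingHom ℚ))) :
    ∃ h1 h2 : Polynomial ℤ, h1 * h2 ∣ f ∧ (∀ P : ℤ × ℤ, P ≠ 0 → form h1 P ≠ 0) ∧
      ∀ ε : ℝ, 0 < ε → ∀ z : ℕ, ∃ N₀ : ℕ, ∀ N : ℕ, N₀ ≤ N →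
        (3 - ε) * Real.log (N : ℝ) ≤ R h1 z (N ^ 2) + R h2 z N := by
  rcases split_cases f hf hs hred with ⟨h1, h2, hd, hdeg, hi1, hi2⟩ | ⟨S, hS3, hS⟩
  · refine ⟨h1, h2, hd, fun P hP => form_ne_zero h1 (T3_ne_zero hi1)
      (no_root_of_irreducible h1 hdeg hi1) P hP, ?_⟩
    intro ε hε z
    obtain ⟨Y₁, hY₁⟩ := R_lower h1 hi1 (ε / 3) (by positivity) z
    obtain ⟨Y₂, hY₂⟩ := R_lower h2 hi2 (ε / 3) (by positivity) z
    refine ⟨Y₁ + Y₂ + 1, fun N hN => ?_⟩
    have a1 := hY₁ (N ^ 2) (T3_le_sq (by omega))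
    have a2 := hY₂ N (by omega)
    rw [T3_log_sq] at a1
    calc (3 - ε) * Real.log (N : ℝ)
        = (1 - ε / 3) * (2 * Real.log (N : ℝ)) + (1 - ε / 3) * Real.log (N : ℝ) := by ring
      _ ≤ _ := add_le_add a1 a2
  · refine ⟨1, f, by rw [one_mul], fun P _ => by rw [form_one]; exact one_ne_zero, ?_⟩
    intro ε hε z
    obtain ⟨N₀, hN₀⟩ := T3_roots f S hS3 hS ε hε z
    refine ⟨N₀, fun N hN => ?_⟩
    have := hN₀ N hN
    have := R_nonneg 1 z (N ^ 2)
    linarith

theorem mean_two (f : Polynomial ℤ) (hf : 2 ≤ f.natDegree)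
    (hirr : Irreducible (f.map (Int.castRingHom ℚ))) :
    (∀ P : ℤ × ℤ, P ≠ 0 → form f P ≠ 0) ∧
      ∀ ε : ℝ, 0 < ε → ∀ z : ℕ, ∃ N₀ : ℕ, ∀ N : ℕ, N₀ ≤ N →
        (2 - ε) * Real.log (N : ℝ) ≤ R f z (N ^ 2) + R 1 z N := by
  refine ⟨fun P hP => form_ne_zero f (T3_ne_zero hirr) (no_root_of_irreducible f hf hirr) P hP, ?_⟩
  intro ε hε z
  obtain ⟨Y₁, hY₁⟩ := R_lower f hirr (ε / 2) (by positivity) z
  refine ⟨Y₁ + 1, fun N hN => ?_⟩
  have a1 := hY₁ (N ^ 2) (T3_le_sq (by omega))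
  rw [T3_log_sq] at a1
  have := R_nonneg 1 z N
  calc (2 - ε) * Real.log (N : ℝ) = (1 - ε / 2) * (2 * Real.log (N : ℝ)) := by ring
    _ ≤ R f z (N ^ 2) := a1
    _ ≤ _ := by linarith

end Pool.Agent.Helper83.TW
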