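import Pool.Agent.Helper83.TW.L03
import Pool.Agent.Helper83.TW.Sfp

/-!
# TW-T4: from squarefree parts of the form to twists with points

`Nf f B` is the counting function of the problem and `ex f = 1/(g+1)`, `g = (natDegree f - 1)/2`.
`Nf_mono`: the sets are finite (`|d| < B`) and increasing.
`Nf_lower`: let `P` be a point with `P.1 ≠ 0`, `form g P ≠ 0` and `d = sfp (form g P)`, so
`form g P = d m^2`, `m ≠ 0` (`sfp_spec`), `d` squarefree (`sfp_squarefree`).  With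
`x = s + P.2/P.1` and `y = m / P.1^(r/2)` (`r = natDegree g` is even) `d y^2 = f(x)`, `y ≠ 0`.
-/

set_option autoImplicit false

namespace Pool.Agent.Helper83.TW

/-- number of squarefree `d`, `|d| < B`, whose twist has a nontrivial rational point -/
noncomputable def Nf (f : Polynomial ℤ) (B : ℕ) : ℕ :=
  {d : ℤ | |d| < (B : ℤ) ∧ Squarefree d ∧
    ∃ x y : ℚ, y ≠ 0 ∧ (d : ℚ) * y ^ 2 = (f.map (Int.castRingHom ℚ)).eval x}.ncard

/-- the exponent `1/(g+1)` -/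
noncomputable def ex (f : Polynomial ℤ) : ℝ :=
  (1 : ℝ) / ((((f.natDegree - 1) / 2 : ℕ) : ℝ) + 1)

theorem Nf_set_finite (f : Polynomial ℤ) (B : ℕ) :
    {d : ℤ | |d| < (B : ℤ) ∧ Squarefree d ∧
      ∃ x y : ℚ, y ≠ 0 ∧ (d : ℚ) * y ^ 2 = (f.map (Int.castRingHom ℚ)).eval x}.Finite := by
  refine (Set.finite_Ioo (-(B : ℤ)) (B : ℤ)).subset ?_
  rintro d ⟨hd, _⟩
  exact abs_lt.1 hd

theorem Nf_mono (f : Polynomial ℤ) {B B' : ℕ} (h : B ≤ B') : Nf f B ≤ Nf f B' := by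
  unfold Nf
  refine Set.ncard_le_ncard ?_ (Nf_set_finite f B')
  rintro d ⟨h1, h2⟩
  exact ⟨lt_of_lt_of_le h1 (by exact_mod_cast h), h2⟩

theorem Nf_lower (f g : Polynomial ℤ) (s : ℤ) (hg : Even g.natDegree)
    (hfg : ∀ P : ℤ × ℤ, P.1 ≠ 0 → (form g P : ℚ) = (P.1 : ℚ) ^ g.natDegree *
        (f.map (Int.castRingHom ℚ)).eval ((s : ℚ) + (P.2 : ℚ) / (P.1 : ℚ)))
    (N B : ℕ) (S : Finset ℤ) (hS : S ⊆ sfs g N) (hB : ∀ d ∈ S, |d| < (B : ℤ)) :
    S.card ≤ Nf f B := by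
  rw [← Set.ncard_coe_finset S]
  unfold Nf
  refine Set.ncard_le_ncard ?_ (Nf_set_finite f B)
  intro d hd
  have hdS : d ∈ S := hd
  have h1 := hS hdS
  unfold sfs at h1
  rw [Finset.mem_image] at h1
  obtain ⟨P, hP, hPd⟩ := h1
  rw [Finset.mem_filter] at hP
  obtain ⟨_, hP1, hP0⟩ := hP
  obtain ⟨m, hm0, hm⟩ := sfp_spec (form g P) hP0
  rw [hPd] at hm
  have hsq : Squarefree d := by
    rw [← hPd]; exact sfp_squarefree _ hP0
  refine ⟨hB d hdS, hsq, (s : ℚ) + (P.2 : ℚ) / (P.1 : ℚ), (m : ℚ) / (P.1 : ℚ) ^ (g.natDegree / 2), ?_, ?_⟩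
  · have hP1' : (P.1 : ℚ) ≠ 0 := by exact_mod_cast hP1
    have hm' : (m : ℚ) ≠ 0 := by exact_mod_cast hm0
    exact div_ne_zero hm' (pow_ne_zero _ hP1')
  · have hP1' : (P.1 : ℚ) ≠ 0 := by exact_mod_cast hP1
    have h2 := hfg P hP1
    have h3 : (form g P : ℚ) = (d : ℚ) * (m : ℚ) ^ 2 := by
      rw [hm]; push_cast; ring
    have h4 : ((P.1 : ℚ) ^ (g.natDegree / 2)) ^ 2 = (P.1 : ℚ) ^ g.natDegree := by
      rw [← pow_mul, Nat.div_mul_cancel hg.two_dvd]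
    have h5 : (P.1 : ℚ) ^ g.natDegree ≠ 0 := pow_ne_zero _ hP1'
    rw [div_pow, h4, ← mul_div_assoc, ← h3, h2]
    field_simp

end Pool.Agent.Helper83.TW
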