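import Pool.Agent.Helper83.TW.T1
import Pool.Agent.Helper83.TW.T3
import Pool.Agent.Helper83.TW.T4
import Pool.Agent.Helper83.TW.L16
import Pool.Agent.Helper83.TW.L17

/-!
# TW-T5: the two main lower bounds for Nf

Take `g`, `s` from `exists_form`, `r = natDegree g = 2 (g' + 1)`, `ex f = 2/r`.  On the box
`|form g P| <= C N^r` (`form_abs_le`), so all elements of `sfs g N` have `|d| <= C N^r` (`sfp_abs_le`).
For `B` large put `N = floor ((B/(2C))^(1/r))`: then `C N^r < B` and `N^2 >= c' B^(2/r)`.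
`lower_red`: `core_three` with `mean_three` for `g`, then `Nf_lower` with `S = sfs g N`.
`dichotomy`: if `g` is reducible this is `lower_red`; otherwise `core_two` with `h1 = g`, `h2 = 1`,
`mean_two`, and a small `κ` depending on `δ`: in the second alternative
`N^(2+κ) < B^(ex f + δ)` and `N^(2-κ) >= B^(ex f - δ)` for large `B`.
-/

set_option autoImplicit false

namespace Pool.Agent.Helper83.TW

/-- elements of `sfs` are bounded by the size of the form -/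
private theorem sfs_bound (g : Polynomial ℤ) (C : ℕ)
    (hC : ∀ (N : ℕ) (P : ℤ × ℤ), P ∈ box N → |form g P| ≤ C * (N : ℤ) ^ g.natDegree)
    (N : ℕ) (d : ℤ) (hd : d ∈ sfs g N) : |d| ≤ C * (N : ℤ) ^ g.natDegree := by
  simp only [sfs, Finset.mem_image, Finset.mem_filter] at hd
  obtain ⟨P, ⟨hP, _⟩, rfl⟩ := hd
  exact (sfp_abs_le _).trans (hC N P hP)

/-- the choice of the side of the box -/
private theorem choose_N (C r M : ℕ) (hC : 0 < C) (hr : 1 ≤ r) :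
    ∃ c : ℝ, 0 < c ∧ ∃ B₀ : ℕ, ∀ B : ℕ, B₀ ≤ B → ∃ N : ℕ, M ≤ N ∧ C * N ^ r < B ∧
      (N : ℝ) ≤ (B : ℝ) ^ ((1 : ℝ) / r) ∧ c * (B : ℝ) ^ ((1 : ℝ) / r) ≤ N := by
  have hCr : (0 : ℝ) < 2 * C := by positivity
  have hr0 : (0 : ℝ) < (r : ℝ) := by exact_mod_cast hr
  set u : ℝ := (1 / (2 * C : ℝ)) ^ ((1 : ℝ) / r) with hu
  have hupos : 0 < u := Real.rpow_pos_of_pos (by positivity) _
  have hlim : Filter.Tendsto (fun B : ℕ => u * (B : ℝ) ^ ((1 : ℝ) / r)) Filter.atTop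
      Filter.atTop :=
    Filter.Tendsto.const_mul_atTop hupos
      ((tendsto_rpow_atTop (by positivity)).comp tendsto_natCast_atTop_atTop)
  have hev := hlim.eventually (Filter.eventually_ge_atTop ((M : ℝ) + 2))
  rw [Filter.eventually_atTop] at hev
  obtain ⟨B₀, hB₀⟩ := hev
  refine ⟨u / 2, by positivity, max B₀ 1, fun B hB => ?_⟩
  have hB0 : B₀ ≤ B := (le_max_left _ _).trans hB
  have hB1 : 1 ≤ B := (le_max_right _ _).trans hB
  have hx := hB₀ B hB0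
  set x : ℝ := u * (B : ℝ) ^ ((1 : ℝ) / r) with hxdef
  have hx0 : 0 ≤ x := by positivity
  have hBpos : (0 : ℝ) < B := by exact_mod_cast hB1
  have hxr : x ^ r = (B : ℝ) / (2 * C) := by
    rw [hxdef, mul_pow, hu, ← Real.rpow_natCast, ← Real.rpow_natCast, ← Real.rpow_mul (by positivity),
      ← Real.rpow_mul hBpos.le]
    rw [one_div_mul_cancel hr0.ne', Real.rpow_one, Real.rpow_one]
    ring
  refine ⟨⌊x⌋₊, ?_, ?_, ?_, ?_⟩
  · apply Nat.le_floor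
    linarith
  · have h1 : ((⌊x⌋₊ : ℝ)) ^ r ≤ x ^ r := pow_le_pow_left₀ (by positivity) (Nat.floor_le hx0) r
    rw [hxr] at h1
    have h2 : (C : ℝ) * (⌊x⌋₊ : ℝ) ^ r < B := by
      have hC' : (0 : ℝ) < C := by exact_mod_cast hC
      calc (C : ℝ) * (⌊x⌋₊ : ℝ) ^ r ≤ C * ((B : ℝ) / (2 * C)) := by gcongr
        _ = (B : ℝ) / 2 := by field_simp
        _ < B := by linarith
    exact_mod_cast h2
  · refine (Nat.floor_le hx0).trans ?_
    have hu1 : u ≤ 1 := by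
      rw [hu]
      apply Real.rpow_le_one (by positivity) _ (by positivity)
      rw [div_le_one hCr]
      have : (1 : ℝ) ≤ C := by exact_mod_cast hC
      linarith
    calc x = u * (B : ℝ) ^ ((1 : ℝ) / r) := rfl
      _ ≤ 1 * (B : ℝ) ^ ((1 : ℝ) / r) := by gcongr
      _ = _ := one_mul _
  · have h1 := Nat.lt_floor_add_one x
    have h2 : x - 1 ≤ ⌊x⌋₊ := by linarith
    have h3 : x / 2 ≤ x - 1 := by
      have : (0 : ℝ) ≤ M := by positivity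
      linarith
    calc u / 2 * (B : ℝ) ^ ((1 : ℝ) / r) = x / 2 := by rw [hxdef]; ring
      _ ≤ _ := h3.trans h2

private theorem ex_eq (f g : Polynomial ℤ) (hg : g.natDegree = 2 * ((f.natDegree - 1) / 2) + 2) :
    ex f = 2 * ((1 : ℝ) / g.natDegree) := by
  rw [ex, hg]
  push_cast
  field_simp

/-- passing from the box to `Nf` when there are many squarefree parts -/
private theorem of_core (f g : Polynomial ℤ) (s : ℤ)
    (hg : g.natDegree = 2 * ((f.natDegree - 1) / 2) + 2)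
    (hfg : ∀ P : ℤ × ℤ, P.1 ≠ 0 → (form g P : ℚ) = (P.1 : ℚ) ^ g.natDegree *
        (f.map (Int.castRingHom ℚ)).eval ((s : ℚ) + (P.2 : ℚ) / (P.1 : ℚ)))
    (hcore : ∃ c : ℝ, 0 < c ∧ ∃ N₀ : ℕ, ∀ N : ℕ, N₀ ≤ N →
      c * (N : ℝ) ^ 2 ≤ ((sfs g N).card : ℝ)) :
    ∃ c : ℝ, 0 < c ∧ ∃ B₀ : ℕ, ∀ B : ℕ, B₀ ≤ B → c * (B : ℝ) ^ ex f ≤ (Nf f B : ℝ) := by
  obtain ⟨C, hC0, hC⟩ := form_abs_le g
  obtain ⟨c, hc, N₀, hN⟩ := hcore
  obtain ⟨c', hc', B₀, hB⟩ := choose_N C g.natDegree N₀ hC0 (by omega)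
  refine ⟨c * c' ^ 2, by positivity, B₀, fun B hBB => ?_⟩
  obtain ⟨N, hNN, hCN, _, hlow⟩ := hB B hBB
  have h1 := hN N hNN
  have h2 : (sfs g N).card ≤ Nf f B := by
    apply Nf_lower f g s _ hfg N B (sfs g N) (Finset.Subset.refl _)
    · intro d hd
      refine (sfs_bound g C hC N d hd).trans_lt ?_
      exact_mod_cast hCN
    · rw [hg]
      exact ⟨(f.natDegree - 1) / 2 + 1, by ring⟩
  have h3 : ((sfs g N).card : ℝ) ≤ Nf f B := by exact_mod_cast h2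
  refine le_trans ?_ (h1.trans h3)
  rw [ex_eq f g hg]
  have hBr : (0 : ℝ) ≤ B := by positivity
  have h4 : (B : ℝ) ^ (2 * ((1 : ℝ) / g.natDegree)) = ((B : ℝ) ^ ((1 : ℝ) / g.natDegree)) ^ 2 := by
    rw [← Real.rpow_natCast ((B : ℝ) ^ ((1 : ℝ) / g.natDegree)) 2, ← Real.rpow_mul hBr]
    congr 1
    push_cast
    ring
  rw [h4]
  have h5 : (c' * (B : ℝ) ^ ((1 : ℝ) / g.natDegree)) ^ 2 ≤ (N : ℝ) ^ 2 :=
    pow_le_pow_left₀ (by positivity) hlow 2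
  calc c * c' ^ 2 * ((B : ℝ) ^ ((1 : ℝ) / g.natDegree)) ^ 2
      = c * (c' * (B : ℝ) ^ ((1 : ℝ) / g.natDegree)) ^ 2 := by ring
    _ ≤ c * (N : ℝ) ^ 2 := by gcongr

theorem lower_red (f : Polynomial ℤ) (hf : 5 ≤ f.natDegree)
    (hs : (f.map (Int.castRingHom ℚ)).Separable)
    (h : Odd f.natDegree ∨ ¬ Irreducible (f.map (Int.castRingHom ℚ))) :
    ∃ c : ℝ, 0 < c ∧ ∃ B₀ : ℕ, ∀ B : ℕ, B₀ ≤ B → c * (B : ℝ) ^ ex f ≤ (Nf f B : ℝ) := by
  obtain ⟨g, s, hg, hgs, hfg, hred⟩ := exists_form f hf hs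
  obtain ⟨h1, h2, hd, hz, hM⟩ := mean_three g (by omega) hgs (hred h)
  exact of_core f g s hg hfg (core_three g h1 h2 (by omega) hgs hd hz hM)

theorem dichotomy (f : Polynomial ℤ) (hf : 5 ≤ f.natDegree)
    (hs : (f.map (Int.castRingHom ℚ)).Separable) (δ : ℝ) (hδ : 0 < δ) :
    ∃ c : ℝ, 0 < c ∧ ∃ B₀ : ℕ, ∀ B : ℕ, B₀ ≤ B →
      c * (B : ℝ) ^ ex f ≤ (Nf f B : ℝ) ∨
      (B : ℝ) ^ (ex f - δ) ≤ (Nf f ⌊(B : ℝ) ^ (ex f + δ)⌋₊ : ℝ) := by
  obtain ⟨g, s, hg, hgs, hfg, hred⟩ := exists_form f hf hs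
  by_cases hirr : Irreducible (g.map (Int.castRingHom ℚ))
  swap
  · obtain ⟨h1, h2, hd, hz, hM⟩ := mean_three g (by omega) hgs hirr
    obtain ⟨c, hc, B₀, hB⟩ := of_core f g s hg hfg (core_three g h1 h2 (by omega) hgs hd hz hM)
    exact ⟨c, hc, B₀, fun B hBB => Or.inl (hB B hBB)⟩
  have hr6 : 6 ≤ g.natDegree := by omega
  obtain ⟨hz, hM⟩ := mean_two g (by omega) hirr
  set κ : ℝ := min δ 1 with hκ
  have hκ0 : 0 < κ := lt_min hδ one_pos
  have hκδ : κ ≤ δ := min_le_left _ _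
  have hκ1 : κ ≤ 1 := min_le_right _ _
  obtain ⟨c, hc, N₀, hN⟩ := core_two g g 1 (by omega) hgs (by simp) hz hM κ hκ0
  obtain ⟨C, hC0, hC⟩ := form_abs_le g
  obtain ⟨c', hc', B₀, hB⟩ := choose_N C g.natDegree N₀ hC0 (by omega)
  set ρ : ℝ := (1 : ℝ) / g.natDegree with hρ
  have hρ0 : 0 < ρ := by positivity
  have hρ6 : ρ ≤ 1 / 6 := by
    rw [hρ]
    apply one_div_le_one_div_of_le (by norm_num)
    exact_mod_cast hr6
  have hex : ex f = 2 * ρ := ex_eq f g hg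
  -- eventual inequalities
  have hκρ : κ * ρ < δ := by nlinarith
  have hgap : 0 < δ - κ * ρ := by linarith
  have hlim : Filter.Tendsto (fun B : ℕ => (B : ℝ) ^ (δ - κ * ρ)) Filter.atTop Filter.atTop :=
    (tendsto_rpow_atTop hgap).comp tendsto_natCast_atTop_atTop
  have hev := hlim.eventually (Filter.eventually_ge_atTop (max 3 ((c' ^ (2 - κ))⁻¹)))
  rw [Filter.eventually_atTop] at hev
  obtain ⟨B₁, hB₁⟩ := hev
  refine ⟨c * c' ^ 2, by positivity, max B₀ (max B₁ 1), fun B hBB => ?_⟩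
  have hBB0 : B₀ ≤ B := (le_max_left _ _).trans hBB
  have hBB1 : B₁ ≤ B := ((le_max_left _ _).trans (le_max_right _ _)).trans hBB
  have hB1 : 1 ≤ B := ((le_max_right _ _).trans (le_max_right _ _)).trans hBB
  have hBpos : (0 : ℝ) < B := by exact_mod_cast hB1
  have hB1r : (1 : ℝ) ≤ B := by exact_mod_cast hB1
  have hbig := hB₁ B hBB1
  have hbig3 : 3 ≤ (B : ℝ) ^ (δ - κ * ρ) := (le_max_left _ _).trans hbig
  have hbigc : (c' ^ (2 - κ))⁻¹ ≤ (B : ℝ) ^ (δ - κ * ρ) := (le_max_right _ _).trans hbig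
  obtain ⟨N, hNN, hCN, hup, hlow⟩ := hB B hBB0
  have heven : Even g.natDegree := by
    rw [hg]
    exact ⟨(f.natDegree - 1) / 2 + 1, by ring⟩
  rcases hN N hNN with h1 | h1
  · left
    have h2 : (sfs g N).card ≤ Nf f B := by
      apply Nf_lower f g s heven hfg N B (sfs g N) (Finset.Subset.refl _)
      intro d hd
      refine (sfs_bound g C hC N d hd).trans_lt ?_
      exact_mod_cast hCN
    have h3 : ((sfs g N).card : ℝ) ≤ Nf f B := by exact_mod_cast h2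
    refine le_trans ?_ (h1.trans h3)
    rw [hex]
    have h4 : (B : ℝ) ^ (2 * ρ) = ((B : ℝ) ^ ρ) ^ 2 := by
      rw [← Real.rpow_natCast ((B : ℝ) ^ ρ) 2, ← Real.rpow_mul hBpos.le]
      congr 1
      push_cast
      ring
    rw [h4]
    have h5 : (c' * (B : ℝ) ^ ρ) ^ 2 ≤ (N : ℝ) ^ 2 := pow_le_pow_left₀ (by positivity) hlow 2
    calc c * c' ^ 2 * ((B : ℝ) ^ ρ) ^ 2 = c * (c' * (B : ℝ) ^ ρ) ^ 2 := by ring
      _ ≤ c * (N : ℝ) ^ 2 := by gcongr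
  · right
    rw [hex]
    have hNr : (0 : ℝ) ≤ (N : ℝ) := by positivity
    -- size of the elements
    have hsize : (N : ℝ) ^ (2 + κ) < (⌊(B : ℝ) ^ (2 * ρ + δ)⌋₊ : ℝ) := by
      have ha : (N : ℝ) ^ (2 + κ) ≤ (B : ℝ) ^ (2 * ρ + κ * ρ) := by
        calc (N : ℝ) ^ (2 + κ) ≤ ((B : ℝ) ^ ρ) ^ (2 + κ) :=
              Real.rpow_le_rpow hNr hup (by linarith)
          _ = (B : ℝ) ^ (2 * ρ + κ * ρ) := by
              rw [← Real.rpow_mul hBpos.le]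
              congr 1
              ring
      have hb : (B : ℝ) ^ (2 * ρ + δ) = (B : ℝ) ^ (2 * ρ + κ * ρ) * (B : ℝ) ^ (δ - κ * ρ) := by
        rw [← Real.rpow_add hBpos]
        congr 1
        ring
      have hc1 : 1 ≤ (B : ℝ) ^ (2 * ρ + κ * ρ) := Real.one_le_rpow hB1r (by positivity)
      have hd := Nat.lt_floor_add_one ((B : ℝ) ^ (2 * ρ + δ))
      have he : (B : ℝ) ^ (2 * ρ + κ * ρ) * 3 ≤
          (B : ℝ) ^ (2 * ρ + κ * ρ) * (B : ℝ) ^ (δ - κ * ρ) := by gcongr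
      rw [hb] at hd ⊢
      linarith
    have h2 : ((sfs g N).filter (fun d : ℤ => |(d : ℝ)| ≤ (N : ℝ) ^ (2 + κ))).card ≤
        Nf f ⌊(B : ℝ) ^ (2 * ρ + δ)⌋₊ := by
      apply Nf_lower f g s heven hfg N _ _ (Finset.filter_subset _ _)
      intro d hd
      rw [Finset.mem_filter] at hd
      have h3 := hd.2.trans_lt hsize
      exact_mod_cast h3
    have h3 : (((sfs g N).filter (fun d : ℤ => |(d : ℝ)| ≤ (N : ℝ) ^ (2 + κ))).card : ℝ) ≤
        Nf f ⌊(B : ℝ) ^ (2 * ρ + δ)⌋₊ := by exact_mod_cast h2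
    refine le_trans ?_ (h1.trans h3)
    -- lower bound for N^(2-κ)
    have h4 : (c' * (B : ℝ) ^ ρ) ^ (2 - κ) ≤ (N : ℝ) ^ (2 - κ) :=
      Real.rpow_le_rpow (by positivity) hlow (by linarith)
    refine le_trans ?_ h4
    rw [Real.mul_rpow hc'.le (by positivity), ← Real.rpow_mul hBpos.le]
    have h5 : (B : ℝ) ^ (ρ * (2 - κ)) = (B : ℝ) ^ (2 * ρ - δ) * (B : ℝ) ^ (δ - κ * ρ) := by
      rw [← Real.rpow_add hBpos]
      congr 1
      ring
    rw [h5]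
    have h6 : 0 < c' ^ (2 - κ) := Real.rpow_pos_of_pos hc' _
    have h7 : 1 ≤ c' ^ (2 - κ) * (B : ℝ) ^ (δ - κ * ρ) := by
      calc (1 : ℝ) = c' ^ (2 - κ) * (c' ^ (2 - κ))⁻¹ := (mul_inv_cancel₀ h6.ne').symm
        _ ≤ _ := by gcongr
    have h8 : 0 ≤ (B : ℝ) ^ (2 * ρ - δ) := by positivity
    calc (B : ℝ) ^ (2 * ρ - δ) = (B : ℝ) ^ (2 * ρ - δ) * 1 := (mul_one _).symm
      _ ≤ (B : ℝ) ^ (2 * ρ - δ) * (c' ^ (2 - κ) * (B : ℝ) ^ (δ - κ * ρ)) := by gcongr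
      _ = _ := by ring

end Pool.Agent.Helper83.TW
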